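import Pool.Agent.H57.LOW.Lob
import Pool.Agent.H77.PC3.PGc
import Pool.Agent.H57.BRA.Def

/-!
# H57-D2-BASE: the condition `G2e` (the commutator subgroup of `P` has exponent `p`)

* `G2e Dg`; `g2e_odd`: true for odd `p`. `mone_z2`: `MOne p K` from the roots of unity of order `p ^ 2`.
* `g2e_b`: for `p = 2` the commutators `[[g i, y], g i]` are trivial. `g2e_A`: the condition of `ep_ex`.
-/

set_option autoImplicit false

open scoped NumberField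
open scoped Classical

noncomputable section

namespace H57.D2

open H57.PC H57.LOW H57.BRA H63.MA H77.PC3 H77.AB

variable {p m l w N : ℕ} {P R : Type} [Group P] [Group R]

/-- the commutator subgroup of `P` has exponent `p` -/
def G2e (Dg : GP p m l w N P R) : Prop := ∀ x : P, Dg.π (Dg.q x) = 1 → x ^ p = 1

theorem g2e_odd [NeZero p] (hp : p.Prime) (h2 : p ≠ 2) (Dg : GP p m l w N P R) : G2e Dg :=
  fun x hx => g2_exp hp h2 Dg.g Dg.pow Dg.gen (gp_h4 Dg) x ((gp_G2 Dg x).1 hx)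

theorem mone_z2 (hp : p.Prime) {K : Type} [Field K] (hz : Z2 p K) : MOne p K := by
  by_cases h2 : p = 2
  · subst h2
    obtain ⟨z, hz⟩ := hz
    have h1 : IsPrimitiveRoot (z ^ 2) 2 := hz.pow (by norm_num) (by norm_num)
    exact ⟨z, h1.eq_neg_one_of_two_right⟩
  · exact mone_odd hp h2 K

/-- the commutators `[[g i, y], g i]` vanish for `p = 2` -/
theorem g2e_b {Dg : GP p m l w N P R} (hE : G2e Dg) (h2 : p = 2) (i : Fin N)
    (u : Fin m → ZMod p) : Dg.β (Dg.kV (Dg.s i) u) (Dg.s i) = 0 := by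
  subst h2
  obtain ⟨r, hr⟩ := Dg.πs (Multiplicative.ofAdd u)
  obtain ⟨y, rfl⟩ := Dg.qs r
  have hg : Dg.g i * Dg.g i = 1 := by
    rw [← pow_two]
    exact Dg.pow i
  have hgi : (Dg.g i)⁻¹ = Dg.g i := inv_eq_of_mul_eq_one_left hg
  obtain ⟨x, hx⟩ : ∃ x, x = Dg.g i * y * (Dg.g i)⁻¹ * y⁻¹ := ⟨_, rfl⟩
  have hπ : Dg.π (Dg.q x) = 1 := by
    rw [hx]
    simp only [map_mul, map_inv]
    rw [mul_comm (Dg.π (Dg.q (Dg.g i))) (Dg.π (Dg.q y)), mul_inv_cancel_right, mul_inv_cancel]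
  have hx2 : x * x = 1 := by
    rw [← pow_two]
    exact hE x hπ
  have hxi : x⁻¹ = x := inv_eq_of_mul_eq_one_left hx2
  have hc : x * Dg.g i * x⁻¹ * (Dg.g i)⁻¹ = 1 := by
    have h1 : Dg.g i * x * Dg.g i = x⁻¹ := by
      rw [hx, hgi]
      calc Dg.g i * (Dg.g i * y * Dg.g i * y⁻¹) * Dg.g i
          = (Dg.g i * Dg.g i) * (y * Dg.g i * y⁻¹ * Dg.g i) := by simp only [mul_assoc]
        _ = y * Dg.g i * y⁻¹ * Dg.g i := by rw [hg, one_mul]
        _ = (Dg.g i * y * Dg.g i * y⁻¹)⁻¹ := by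
            simp only [mul_inv_rev, inv_inv, hgi, mul_assoc]
    rw [hxi] at h1
    rw [hxi, hgi, mul_assoc, mul_assoc, ← mul_assoc (Dg.g i), h1, hx2]
  funext k
  have h1 := Dg.hβ x (Dg.g i) k hπ
  rw [hc, cw_one] at h1
  have h2 : (fun j => Dg.cv j (Dg.q x)) = Dg.kV (Dg.s i) u := by
    funext j
    have h3 := Dg.hk (Dg.q (Dg.g i)) (Dg.q y) j
    rw [hr, toAdd_ofAdd, ← map_inv, ← map_inv, ← map_mul, ← map_mul, ← map_mul, ← hx] at h3
    exact h3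
  rw [h2] at h1
  exact h1.symm

/-- the condition of `ep_ex` -/
theorem g2e_A {Dg : GP p m l w N P R} (hE : G2e Dg) {ψ : Fin N → Fin l → ZMod p}
    (hψ : InJ0 Dg ψ) {Ψ : (Fin l → ZMod p) →ₗ[ZMod p] (Fin m → ZMod p) →ₗ[ZMod p] ZMod p}
    (hΨ : ∀ i v, Ψ v (Dg.s i) = dt (ψ i) v) (h2 : p = 2) (i : Fin N) (u : Fin m → ZMod p) :
    Ψ (Dg.kV (Dg.s i) u) (Dg.s i) = 0 := by
  rw [hΨ]
  exact hψ.1 i _ (g2e_b hE h2 i u)

/-- the retraction of `G2` onto `G3 = ker q` -/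
theorem gp_ret {p m l w N : ℕ} {P R : Type} [Group P] [Finite P] [Group R] (hp : p.Prime)
    (Dg : GP p m l w N P R) (hE : G2e Dg) :
    ∃ r : P → P, (∀ u, Dg.π (Dg.q u) = 1 → Dg.q (r u) = 1) ∧
      (∀ u v, Dg.π (Dg.q u) = 1 → Dg.π (Dg.q v) = 1 → r (u * v) = r u * r v) ∧
      ∀ u, Dg.q u = 1 → r u = u := by
  have : NeZero p := ⟨hp.ne_zero⟩
  have h4 := gp_h4 Dg
  let cg : CommGroup (G2 P) := { (inferInstance : Group (G2 P)) with
    mul_comm := by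
      rintro ⟨a, ha⟩ ⟨b, hb⟩
      have h8 := c3_G2 h4 a b ha hb
      rw [mul_inv_eq_one, mul_inv_eq_iff_eq_mul] at h8
      exact Subtype.ext h8 }
  obtain ⟨d, M, f, h, -, -, h5, -, h7, h8⟩ := gv hp (Q := G2 P)
    (fun q => Subtype.ext (hE q.1 ((gp_G2 Dg q.1).2 q.2))) ((G3 P).subgroupOf (G2 P))
  choose b hb hfb using h8
  let r : P → P := fun u => if hu : u ∈ G2 P then ((b (f ⟨u, hu⟩) : G2 P) : P) else 1
  have hr : ∀ (u : P) (hu : u ∈ G2 P), r u = ((b (f ⟨u, hu⟩) : G2 P) : P) := fun u hu => dif_pos hu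
  have huniq : ∀ u v : G2 P, (u : P) ∈ G3 P → (v : P) ∈ G3 P → f u = f v → u = v := by
    intro u v hu hv huv
    have e1 : f (u * v⁻¹) = 1 := by rw [map_mul, map_inv, huv, mul_inv_cancel]
    have e2 : h (u * v⁻¹) = 1 := by
      rw [map_mul, map_inv, h7 u hu, h7 v hv, inv_one, mul_one]
    exact mul_inv_eq_one.1 (h5 _ e1 e2)
  refine ⟨r, fun u hu => ?_, fun u v hu hv => ?_, fun u hu => ?_⟩
  · rw [gp_G2] at hu
    rw [hr u hu, gp_G3]
    exact hb _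
  · rw [gp_G2] at hu hv
    rw [hr u hu, hr v hv, hr (u * v) ((G2 P).mul_mem hu hv)]
    have e1 := huniq (b (f ⟨u * v, (G2 P).mul_mem hu hv⟩)) (b (f ⟨u, hu⟩) * b (f ⟨v, hv⟩))
      (hb _) ((G3 P).mul_mem (hb _) (hb _)) (by
        rw [hfb, map_mul, hfb, hfb, ← map_mul]
        rfl)
    rw [e1]
    rfl
  · have hu2 : u ∈ G2 P := (gp_G2 Dg u).1 (by rw [hu, map_one])
    have hu3 : u ∈ G3 P := (gp_G3 Dg u).1 hu
    rw [hr u hu2, huniq (b (f ⟨u, hu2⟩)) ⟨u, hu2⟩ (hb _) hu3 (hfb _)]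

end H57.D2
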