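import Pool.Agent.H57.LOW.Epc
import Pool.Agent.H57.D2.Base

/-!
# H57-D2-COC: the cocycle of `R` with given pairing `V x U`, for every prime

`p = 2`: a basis `b` of `U` of typed vectors, `B x y = ∑_(a > c) x_a y_c kV (b a) (b c)`, `cv (r ^ 2) = B (π r) (π r)`.
* `cube2`: the function `t` with coboundary `∑_(a > b) ∑ c, τ a b c x_a y_b z_c`.
* `vr2`: the retraction of `R` onto `V`. `ep_ex`.
-/

set_option autoImplicit false

noncomputable section

namespace H57.D2

open H57.PC H57.LOW H57.BRA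

theorem two0 : (2 : ZMod 2) = 0 := rfl

/-- a sum over all triples after a relabelling -/
theorem sum3_swap {m : ℕ} (H : Fin m → Fin m → Fin m → ZMod 2) :
    ∑ a, ∑ b, ∑ c, H a b c = ∑ a, ∑ b, ∑ c, H a c b :=
  Finset.sum_congr rfl fun _ _ => Finset.sum_comm

theorem sum3_rot {m : ℕ} (H : Fin m → Fin m → Fin m → ZMod 2) :
    ∑ a, ∑ b, ∑ c, H a b c = ∑ a, ∑ b, ∑ c, H b c a := by
  have h1 : ∑ a, ∑ b, ∑ c, H b c a = ∑ b, ∑ a, ∑ c, H b c a := Finset.sum_comm
  rw [h1, sum3_swap fun b a c => H b c a]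

theorem cube2 {m : ℕ} (τ : Fin m → Fin m → Fin m → ZMod 2) (h1 : ∀ a b c, τ b a c = τ a b c)
    (hA : ∀ a b, τ a b a = 0) (h2 : ∀ a b c, τ a b c + τ b c a + τ c a b = 0) :
    ∃ t : (Fin m → ZMod 2) → (Fin m → ZMod 2) → ZMod 2, (∀ z, t 0 z = 0) ∧ (∀ z, t z 0 = 0) ∧
      ∀ x y z, t y z + t x (y + z) - t (x + y) z - t x y =
        ∑ a, ∑ b, ∑ c, if b < a then τ a b c * x a * y b * z c else 0 := by
  refine ⟨fun x y => ∑ a, ∑ b, ∑ c, if b < a ∧ c < b then τ a c b * (x a * y b * y c) +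
    τ b c a * (x b * y c * y a + x a * x b * y c) else 0, ?_, ?_, ?_⟩
  · intro z
    refine Finset.sum_eq_zero fun a _ => Finset.sum_eq_zero fun b _ => Finset.sum_eq_zero
      fun c _ => ?_
    split_ifs
    · simp
    · rfl
  · intro z
    refine Finset.sum_eq_zero fun a _ => Finset.sum_eq_zero fun b _ => Finset.sum_eq_zero
      fun c _ => ?_
    split_ifs
    · simp
    · rfl
  · intro x y z
    have hB : ∀ a b, τ a b b = 0 := fun a b => by rw [← h1, hA]
    obtain ⟨F, hF⟩ : ∃ F : Fin m → Fin m → Fin m → ZMod 2,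
        ∀ a b c, F a b c = τ a b c * x a * y b * z c := ⟨_, fun _ _ _ => rfl⟩
    have hR : ∑ a, ∑ b, ∑ c, (if b < a then τ a b c * x a * y b * z c else 0) =
        ∑ a, ∑ b, ∑ c, (if b < a ∧ c < b then F a b c + F a c b + F b c a else 0) := by
      have e1 : ∀ a b c, (if b < a then τ a b c * x a * y b * z c else 0) =
          (if b < a ∧ c < b then F a b c else 0) + (if c < a ∧ b < c then F a b c else 0) +
            (if a < c ∧ b < a then F a b c else 0) := by
        intro a b c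
        rw [← hF]
        rcases lt_trichotomy c b with h | h | h
        · by_cases h3 : b < a
          · rw [if_pos h3, if_pos ⟨h3, h⟩, if_neg (fun h4 => absurd h4.2 (not_lt.2 h.le)),
              if_neg (fun h4 => absurd (h4.1.trans h) (not_lt.2 h3.le)), add_zero, add_zero]
          · rw [if_neg h3, if_neg (fun h4 => h3 h4.1),
              if_neg (fun h4 => absurd h4.2 (not_lt.2 h.le)), if_neg (fun h4 => h3 h4.2),
              add_zero, add_zero]
        · subst h
          have h5 : F a c c = 0 := by rw [hF, hB, zero_mul, zero_mul, zero_mul]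
          rw [h5]
          simp
        · by_cases h3 : b < a
          · rw [if_pos h3, if_neg (fun h4 => absurd h4.2 (not_lt.2 h.le))]
            rcases lt_trichotomy c a with h6 | h6 | h6
            · rw [if_pos ⟨h6, h⟩, if_neg (fun h4 => absurd h4.1 (not_lt.2 h6.le)), zero_add,
                add_zero]
            · subst h6
              have h5 : F c b c = 0 := by rw [hF, hA, zero_mul, zero_mul, zero_mul]
              rw [h5]
              simp
            · rw [if_neg (fun h4 => absurd h4.1 (not_lt.2 h6.le)), if_pos ⟨h6, h3⟩, zero_add,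
                zero_add]
          · rw [if_neg h3, if_neg (fun h4 => h3 h4.1), if_neg (fun h4 => h3 (h4.2.trans h4.1)),
              if_neg (fun h4 => h3 h4.2), add_zero, add_zero]
      simp only [e1, Finset.sum_add_distrib]
      rw [sum3_swap fun a b c => if c < a ∧ b < c then F a b c else 0,
        sum3_rot fun a b c => if a < c ∧ b < a then F a b c else 0]
      simp only [← Finset.sum_add_distrib]
      refine Finset.sum_congr rfl fun a _ => Finset.sum_congr rfl fun b _ =>
        Finset.sum_congr rfl fun c _ => ?_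
      by_cases h : b < a ∧ c < b
      · rw [if_pos h, if_pos h, if_pos h, if_pos h]
      · rw [if_neg h, if_neg h, if_neg h, if_neg h, add_zero, add_zero]
    rw [hR]
    simp only [← Finset.sum_add_distrib, ← Finset.sum_sub_distrib]
    refine Finset.sum_congr rfl fun a _ => Finset.sum_congr rfl fun b _ =>
      Finset.sum_congr rfl fun c _ => ?_
    by_cases h : b < a ∧ c < b
    · simp only [if_pos h, hF, Pi.add_apply]
      have h3 := h2 a b c
      rw [h1 a c b] at h3
      linear_combination (-(x a * y b * z c)) * h3 + (τ a c b * x a * y b * z c) * two0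
    · simp only [if_neg h]
      ring

section vr

variable {m l w N : ℕ} {P R : Type} [Group P] [Group R]

/-- the value of a bilinear form on `R` -/
def bb (Dg : GP 2 m l w N P R)
    (B : (Fin m → ZMod 2) →ₗ[ZMod 2] (Fin m → ZMod 2) →ₗ[ZMod 2] (Fin l → ZMod 2)) (x y : R) :
    Fin l → ZMod 2 := B (Multiplicative.toAdd (Dg.π x)) (Multiplicative.toAdd (Dg.π y))

/-- the sum -/
def dad (Dg : GP 2 m l w N P R)
    (B : (Fin m → ZMod 2) →ₗ[ZMod 2] (Fin m → ZMod 2) →ₗ[ZMod 2] (Fin l → ZMod 2)) (x y : R) :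
    R := x * y * epa_vv Dg (bb Dg B x y)

variable (Dg : GP 2 m l w N P R)
  (B : (Fin m → ZMod 2) →ₗ[ZMod 2] (Fin m → ZMod 2) →ₗ[ZMod 2] (Fin l → ZMod 2))

theorem bb_mull (x x' y : R) : bb Dg B (x * x') y = bb Dg B x y + bb Dg B x' y := by
  unfold bb
  rw [map_mul, toAdd_mul, map_add, LinearMap.add_apply]

theorem bb_mulr (x y y' : R) : bb Dg B x (y * y') = bb Dg B x y + bb Dg B x y' := by
  unfold bb
  rw [map_mul, toAdd_mul, map_add]

theorem bb_vl {x : R} (hx : Dg.π x = 1) (y : R) : bb Dg B x y = 0 := by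
  unfold bb
  rw [hx, toAdd_one, map_zero, LinearMap.zero_apply]

theorem bb_vr (x : R) {y : R} (hy : Dg.π y = 1) : bb Dg B x y = 0 := by
  unfold bb
  rw [hy, toAdd_one, map_zero]

theorem dad_pi (x y : R) : Dg.π (dad Dg B x y) = Dg.π x * Dg.π y := by
  unfold dad
  rw [map_mul, epa_vv_pi, mul_one, map_mul]

theorem bb_adl (x x' y : R) : bb Dg B (dad Dg B x x') y = bb Dg B x y + bb Dg B x' y := by
  unfold dad
  rw [bb_mull, bb_vl Dg B (epa_vv_pi Dg _), add_zero, bb_mull]

theorem bb_adr (x y y' : R) : bb Dg B x (dad Dg B y y') = bb Dg B x y + bb Dg B x y' := by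
  unfold dad
  rw [bb_mulr, bb_vr Dg B _ (epa_vv_pi Dg _), add_zero, bb_mulr]

theorem dad_assoc (x y z : R) :
    dad Dg B (dad Dg B x y) z = dad Dg B x (dad Dg B y z) := by
  have h1 : dad Dg B (dad Dg B x y) z = dad Dg B x y * z *
      epa_vv Dg (bb Dg B x z + bb Dg B y z) := by
    rw [← bb_adl]
    rfl
  have h2 : dad Dg B x (dad Dg B y z) = x * dad Dg B y z *
      epa_vv Dg (bb Dg B x y + bb Dg B x z) := by
    rw [← bb_adr]
    rfl
  rw [h1, h2]
  unfold dad
  rw [mul_assoc (x * y) _ z, epa_vv_comm, ← mul_assoc, mul_assoc (x * y * z), ← epa_vv_add,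
    ← mul_assoc x (y * z), mul_assoc (x * (y * z)), ← epa_vv_add, ← mul_assoc x y z]
  congr 2
  abel

theorem zmod2_add_self {n : ℕ} (v : Fin n → ZMod 2) : v + v = 0 := by
  funext k
  exact CharTwo.add_self_eq_zero (v k)

/-- the retraction of `R` onto `V` -/
theorem vr2 (hB : ∀ u u', B u u' + B u' u = Dg.kV u u')
    (hq : ∀ r, r * r = epa_vv Dg (bb Dg B r r)) :
    ∃ vr : R → Fin l → ZMod 2, (∀ v, Dg.π v = 1 → ∀ k, vr v k = Dg.cv k v) ∧
      ∀ r r' k, vr (r * r') k = vr r k + vr r' k +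
        B (Multiplicative.toAdd (Dg.π r)) (Multiplicative.toAdd (Dg.π r')) k := by
  have hcomm : ∀ x y, dad Dg B x y = dad Dg B y x := by
    intro x y
    unfold dad
    rw [epa_comm Dg x y, epa_vv_comm, mul_assoc, ← epa_vv_add]
    congr 2
    have h1 : epa_kk Dg x y = bb Dg B x y + bb Dg B y x := (hB _ _).symm
    rw [h1, add_comm (bb Dg B x y), add_assoc, zmod2_add_self, add_zero]
  have hself : ∀ x, dad Dg B x x = 1 := by
    intro x
    unfold dad
    rw [hq, ← epa_vv_add, zmod2_add_self, epa_vv_zero]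
  letI iA : AddCommGroup R :=
    { add := dad Dg B
      zero := 1
      neg := fun x => x
      add_assoc := dad_assoc Dg B
      zero_add := by
        intro x
        show dad Dg B 1 x = x
        unfold dad
        rw [one_mul, bb_vl Dg B (map_one _), epa_vv_zero, mul_one]
      add_zero := by
        intro x
        show dad Dg B x 1 = x
        unfold dad
        rw [mul_one, bb_vr Dg B _ (map_one _), epa_vv_zero, mul_one]
      neg_add_cancel := hself
      add_comm := hcomm
      nsmul := @nsmulRec R ⟨1⟩ ⟨dad Dg B⟩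
      zsmul := @zsmulRec R ⟨1⟩ ⟨dad Dg B⟩ ⟨fun x => x⟩ (@nsmulRec R ⟨1⟩ ⟨dad Dg B⟩) }
  have hadd : ∀ x y : R, x + y = dad Dg B x y := fun _ _ => rfl
  have hneg : ∀ x : R, -x = x := fun _ => rfl
  have hz : (0 : R) = 1 := rfl
  have hmul : ∀ x y : R, x * y = x + y + epa_vv Dg (bb Dg B x y) := by
    intro x y
    rw [hadd, hadd]
    have h1 : dad Dg B (dad Dg B x y) (epa_vv Dg (bb Dg B x y)) =
        dad Dg B x y * epa_vv Dg (bb Dg B x y) := by
      rw [dad, bb_vr Dg B _ (epa_vv_pi Dg _), epa_vv_zero, mul_one]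
    rw [h1, dad, mul_assoc, ← epa_vv_add, zmod2_add_self, epa_vv_zero, mul_one]
  letI iM : Module (ZMod 2) R := AddCommGroup.zmodModule (n := 2) fun x => by
    rw [two_nsmul, hadd, hself, hz]
  let V0 : AddSubgroup R :=
    { carrier := {x | Dg.π x = 1}
      zero_mem' := map_one _
      add_mem' := by
        intro x y hx hy
        show Dg.π (x + y) = 1
        rw [hadd, dad_pi, show Dg.π x = 1 from hx, show Dg.π y = 1 from hy, one_mul]
      neg_mem' := by
        intro x hx
        show Dg.π (-x) = 1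
        rw [hneg]
        exact hx }
  let V : Submodule (ZMod 2) R := AddSubgroup.toZModSubmodule 2 V0
  have hV : ∀ x : R, x ∈ V ↔ Dg.π x = 1 := fun x => AddSubgroup.mem_toZModSubmodule 2
  let f0 : Fin l → V →+ ZMod 2 := fun k =>
    { toFun := fun v => Dg.cv k v.1
      map_zero' := epa_cv_one Dg k
      map_add' := by
        intro x y
        show Dg.cv k (x.1 + y.1) = _
        have hx := (hV x.1).mp x.2
        have hy := (hV y.1).mp y.2
        rw [hadd, dad, bb_vl Dg B hx, epa_vv_zero, mul_one, Dg.vadd k _ _ hx hy] }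
  have hext : ∀ k, ∃ g : R →ₗ[ZMod 2] ZMod 2, g ∘ₗ V.subtype = (f0 k).toZModLinearMap 2 :=
    fun k => LinearMap.exists_extend _
  choose g hg using hext
  have hgV : ∀ k (v : R), Dg.π v = 1 → g k v = Dg.cv k v := by
    intro k v hv
    have h1 := congrArg (fun F : V →ₗ[ZMod 2] ZMod 2 => F ⟨v, (hV v).mpr hv⟩) (hg k)
    exact h1
  refine ⟨fun r k => g k r, fun v hv k => hgV k v hv, fun r r' k => ?_⟩
  show g k (r * r') = _
  rw [hmul, map_add, map_add, hgV k _ (epa_vv_pi Dg _), epa_vv_cv]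
  rfl

end vr

section basis

variable {m l w N : ℕ} {P R : Type} [Group P] [Group R]

/-- a basis of `U` of typed vectors -/
theorem s_basis {p : ℕ} [NeZero p] (hp : p.Prime) (Dg : GP p m l w N P R) :
    ∃ b : Module.Basis (Fin m) (ZMod p) (Fin m → ZMod p), ∀ a, ∃ i, b a = Dg.s i := by
  have hpf : Fact p.Prime := ⟨hp⟩
  have key : ∀ {ι : Type} (b : Module.Basis ι (ZMod p) (Fin m → ZMod p))
      (_ : Set.range b ⊆ Set.range Dg.s),
      ∃ b' : Module.Basis (Fin m) (ZMod p) (Fin m → ZMod p), ∀ a, ∃ i, b' a = Dg.s i := by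
    intro ι b hb
    have hfin := Module.Finite.finite_basis b
    letI := Fintype.ofFinite ι
    have hc : Fintype.card ι = m := by
      rw [← Module.finrank_eq_card_basis b, Module.finrank_fin_fun]
    obtain ⟨e⟩ : Nonempty (ι ≃ Fin m) := ⟨Fintype.equivFinOfCardEq hc⟩
    refine ⟨b.reindex e, fun a => ?_⟩
    obtain ⟨i, hi⟩ := hb ⟨e.symm a, rfl⟩
    exact ⟨i, by rw [Module.Basis.reindex_apply]; exact hi.symm⟩
  exact key (Module.Basis.ofSpan (s_span Dg).ge) (Module.Basis.ofSpan_subset (s_span Dg).ge)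

variable (Dg : GP 2 m l w N P R)

theorem b_exists (b : Module.Basis (Fin m) (ZMod 2) (Fin m → ZMod 2)) :
    ∃ B : (Fin m → ZMod 2) →ₗ[ZMod 2] (Fin m → ZMod 2) →ₗ[ZMod 2] (Fin l → ZMod 2),
      ∀ x y, B x y = ∑ a, ∑ c, if c < a then
        (b.equivFun x a * b.equivFun y c) • Dg.kV (b a) (b c) else 0 := by
  refine ⟨LinearMap.mk₂ (ZMod 2) (fun x y => ∑ a, ∑ c, if c < a then
        (b.equivFun x a * b.equivFun y c) • Dg.kV (b a) (b c) else 0) ?_ ?_ ?_ ?_,
    fun x y => rfl⟩
  · intro x x' y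
    rw [← Finset.sum_add_distrib]
    refine Finset.sum_congr rfl fun a _ => ?_
    rw [← Finset.sum_add_distrib]
    refine Finset.sum_congr rfl fun c _ => ?_
    split_ifs
    · rw [map_add, Pi.add_apply, add_mul, add_smul]
    · rw [add_zero]
  · intro r x y
    rw [Finset.smul_sum]
    refine Finset.sum_congr rfl fun a _ => ?_
    rw [Finset.smul_sum]
    refine Finset.sum_congr rfl fun c _ => ?_
    split_ifs
    · rw [map_smul, Pi.smul_apply, smul_eq_mul, mul_assoc, mul_smul]
    · rw [smul_zero]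
  · intro x y y'
    rw [← Finset.sum_add_distrib]
    refine Finset.sum_congr rfl fun a _ => ?_
    rw [← Finset.sum_add_distrib]
    refine Finset.sum_congr rfl fun c _ => ?_
    split_ifs
    · rw [map_add, Pi.add_apply, mul_add, add_smul]
    · rw [add_zero]
  · intro r x y
    rw [Finset.smul_sum]
    refine Finset.sum_congr rfl fun a _ => ?_
    rw [Finset.smul_sum]
    refine Finset.sum_congr rfl fun c _ => ?_
    split_ifs
    · rw [map_smul, Pi.smul_apply, smul_eq_mul, mul_left_comm, mul_smul]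
    · rw [smul_zero]

theorem kv_basis (b : Module.Basis (Fin m) (ZMod 2) (Fin m → ZMod 2)) (u u' : Fin m → ZMod 2) :
    Dg.kV u u' = ∑ a, ∑ c, (b.equivFun u a * b.equivFun u' c) • Dg.kV (b a) (b c) := by
  conv_lhs => rw [← b.sum_equivFun u, ← b.sum_equivFun u']
  simp only [map_sum, LinearMap.sum_apply, map_smul, LinearMap.smul_apply, Finset.smul_sum,
    smul_smul]
  rw [Finset.sum_comm]
  refine Finset.sum_congr rfl fun a _ => Finset.sum_congr rfl fun c _ => ?_
  rw [mul_comm]

theorem kv_two (u u' : Fin m → ZMod 2) : Dg.kV u' u = Dg.kV u u' := by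
  rw [kv_swap Dg u' u]
  funext k
  rw [Pi.neg_apply, CharTwo.neg_eq]

theorem b_sum (b : Module.Basis (Fin m) (ZMod 2) (Fin m → ZMod 2))
    {B : (Fin m → ZMod 2) →ₗ[ZMod 2] (Fin m → ZMod 2) →ₗ[ZMod 2] (Fin l → ZMod 2)}
    (hB : ∀ x y, B x y = ∑ a, ∑ c, if c < a then
        (b.equivFun x a * b.equivFun y c) • Dg.kV (b a) (b c) else 0) (u u' : Fin m → ZMod 2) :
    B u u' + B u' u = Dg.kV u u' := by
  have h1 : B u' u = ∑ a, ∑ c, if a < c then
      (b.equivFun u a * b.equivFun u' c) • Dg.kV (b a) (b c) else 0 := by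
    rw [hB, Finset.sum_comm]
    refine Finset.sum_congr rfl fun a _ => Finset.sum_congr rfl fun c _ => ?_
    rw [kv_two Dg (b a) (b c), mul_comm]
  rw [h1, hB, kv_basis Dg b u u', ← Finset.sum_add_distrib]
  refine Finset.sum_congr rfl fun a _ => ?_
  rw [← Finset.sum_add_distrib]
  refine Finset.sum_congr rfl fun c _ => ?_
  rcases lt_trichotomy c a with h | h | h
  · rw [if_pos h, if_neg (not_lt.2 h.le), add_zero]
  · subst h
    rw [kv_self]
    simp
  · rw [if_pos h, if_neg (not_lt.2 h.le), zero_add]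

theorem sq_pi (r : R) : Dg.π (r * r) = 1 := by
  rw [map_mul]
  apply Multiplicative.toAdd.injective
  rw [toAdd_mul, toAdd_one]
  exact zmod2_add_self _

/-- the squares -/
theorem b_sq (b : Module.Basis (Fin m) (ZMod 2) (Fin m → ZMod 2)) (hb : ∀ a, ∃ i, b a = Dg.s i)
    {B : (Fin m → ZMod 2) →ₗ[ZMod 2] (Fin m → ZMod 2) →ₗ[ZMod 2] (Fin l → ZMod 2)}
    (hB : ∀ x y, B x y = ∑ a, ∑ c, if c < a then
        (b.equivFun x a * b.equivFun y c) • Dg.kV (b a) (b c) else 0) (r : R) :
    r * r = epa_vv Dg (bb Dg B r r) := by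
  obtain ⟨δ, hδ⟩ : ∃ δ : R → Fin l → ZMod 2, ∀ r k, δ r k = Dg.cv k (r * r) + bb Dg B r r k :=
    ⟨_, fun _ _ => rfl⟩
  have hmul : ∀ r r', δ (r * r') = δ r + δ r' := by
    intro r r'
    funext k
    have h1 : r * r' * (r * r') = r * r * (r⁻¹ * r' * r⁻¹⁻¹ * r'⁻¹) * (r' * r') := by group
    have h2 : Dg.π (r⁻¹ * r' * r⁻¹⁻¹ * r'⁻¹) = 1 := by
      simp only [map_mul, map_inv]
      rw [mul_comm (Dg.π r)⁻¹ (Dg.π r'), mul_inv_cancel_right, mul_inv_cancel]
    have h3 : Dg.cv k (r * r' * (r * r')) = Dg.cv k (r * r) + Dg.kV (Multiplicative.toAdd (Dg.π r))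
        (Multiplicative.toAdd (Dg.π r')) k + Dg.cv k (r' * r') := by
      rw [h1, Dg.vadd k _ _ (by rw [map_mul, sq_pi, h2, one_mul]) (sq_pi Dg r'),
        Dg.vadd k _ _ (sq_pi Dg r) h2, Dg.hk, map_inv, toAdd_inv, map_neg, LinearMap.neg_apply,
        Pi.neg_apply, CharTwo.neg_eq]
    have h4 : bb Dg B (r * r') (r * r') k = bb Dg B r r k + bb Dg B r' r' k +
        Dg.kV (Multiplicative.toAdd (Dg.π r)) (Multiplicative.toAdd (Dg.π r')) k := by
      rw [← b_sum Dg b hB, bb_mull, bb_mulr, bb_mulr]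
      simp only [Pi.add_apply, bb]
      ring
    rw [Pi.add_apply, hδ, hδ, hδ, h3, h4]
    linear_combination (Dg.kV (Multiplicative.toAdd (Dg.π r))
      (Multiplicative.toAdd (Dg.π r')) k) * two0
  have hv : ∀ v, Dg.π v = 1 → δ v = 0 := by
    intro v hv
    funext k
    rw [hδ, bb_vl Dg B hv, Dg.vadd k v v hv hv, CharTwo.add_self_eq_zero]
    simp
  have hg : ∀ i, δ (Dg.q (Dg.g i)) = bb Dg B (Dg.q (Dg.g i)) (Dg.q (Dg.g i)) := by
    intro i
    funext k
    rw [hδ, ← map_mul, ← pow_two, Dg.pow i, map_one, epa_cv_one, zero_add]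
  have hbb : ∀ a, B (b a) (b a) = 0 := by
    intro a
    rw [hB]
    refine Finset.sum_eq_zero fun c _ => Finset.sum_eq_zero fun c' _ => ?_
    split_ifs with h
    · have h1 : b.equivFun (b a) c * b.equivFun (b a) c' = 0 := by
        rw [Module.Basis.equivFun_self, Module.Basis.equivFun_self]
        by_cases h2 : a = c
        · subst h2
          rw [if_neg (ne_of_gt h), mul_zero]
        · rw [if_neg h2, zero_mul]
      rw [h1, zero_smul]
    · rfl
  have hall : ∀ x : Fin m → ZMod 2, ∀ r, Multiplicative.toAdd (Dg.π r) = x → δ r = 0 := by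
    intro x
    have hx : x ∈ Submodule.span (ZMod 2) (Set.range b) := by
      rw [b.span_eq]
      exact Submodule.mem_top
    induction hx using Submodule.span_induction with
    | mem x h =>
      obtain ⟨a, rfl⟩ := h
      intro r hr
      obtain ⟨i, hi⟩ := hb a
      have h1 : Dg.π (r * (Dg.q (Dg.g i))⁻¹) = 1 := by
        apply Multiplicative.toAdd.injective
        rw [map_mul, map_inv, toAdd_mul, toAdd_inv, toAdd_one, hr, hi]
        exact add_neg_cancel _
      have h2 : r = (r * (Dg.q (Dg.g i))⁻¹) * Dg.q (Dg.g i) := by rw [inv_mul_cancel_right]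
      rw [h2, hmul, hv _ h1, zero_add, hg]
      have h3 : bb Dg B (Dg.q (Dg.g i)) (Dg.q (Dg.g i)) = B (b a) (b a) := by
        rw [hi]
        rfl
      rw [h3, hbb]
    | zero =>
      intro r hr
      exact hv r (Multiplicative.toAdd.injective (by rw [hr, toAdd_one]))
    | add x y _ _ hx hy =>
      intro r hr
      obtain ⟨r1, hr1⟩ := Dg.πs (Multiplicative.ofAdd x)
      have h2 : r = r1 * (r1⁻¹ * r) := by rw [mul_inv_cancel_left]
      rw [h2, hmul, hx r1 (by rw [hr1, toAdd_ofAdd]), hy (r1⁻¹ * r) (by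
        rw [map_mul, map_inv, toAdd_mul, toAdd_inv, hr1, toAdd_ofAdd, hr, neg_add_cancel_left]),
        add_zero]
    | smul c x _ hx =>
      intro r hr
      by_cases hc : c = 0
      · rw [hc, zero_smul] at hr
        exact hv r (Multiplicative.toAdd.injective (by rw [hr, toAdd_one]))
      · have hc1 : c = 1 := by
          have : ∀ c : ZMod 2, c ≠ 0 → c = 1 := by decide
          exact this c hc
        rw [hc1, one_smul] at hr
        exact hx r hr
  refine epa_ext Dg (sq_pi Dg r) (epa_vv_pi Dg _) fun k => ?_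
  rw [epa_vv_cv]
  have h1 := congrFun (hall _ r rfl) k
  rw [hδ] at h1
  rw [← CharTwo.neg_eq (bb Dg B r r k)]
  exact eq_neg_of_add_eq_zero_left h1

theorem ep_two (Ψ : (Fin l → ZMod 2) →ₗ[ZMod 2] (Fin m → ZMod 2) →ₗ[ZMod 2] ZMod 2)
    (hJ : ∀ a b c, Ψ (Dg.kV a b) c + Ψ (Dg.kV b c) a + Ψ (Dg.kV c a) b = 0)
    (hA : ∀ i u, Ψ (Dg.kV (Dg.s i) u) (Dg.s i) = 0) :
    ∃ e : R → R → ZMod 2, Coc 2 e ∧ (∀ v v', Dg.π v = 1 → Dg.π v' = 1 → e v v' = 0) ∧
      ∀ v r, Dg.π v = 1 →
        iv e v r = Ψ (fun k => Dg.cv k v) (Multiplicative.toAdd (Dg.π r)) := by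
  obtain ⟨b, hb⟩ := s_basis Nat.prime_two Dg
  obtain ⟨B, hB⟩ := b_exists Dg b
  obtain ⟨vr, hv1, hv2⟩ := vr2 Dg B (b_sum Dg b hB) (b_sq Dg b hb hB)
  obtain ⟨t, ht1, ht2, ht3⟩ := cube2
    (fun i j k => Ψ (Dg.kV (b i) (b j)) (b k))
    (by
      intro i j k
      rw [kv_two Dg (b i) (b j)])
    (by
      intro i j
      obtain ⟨i', hi⟩ := hb i
      rw [hi]
      exact hA i' (b j))
    (by
      intro i j k
      exact hJ (b i) (b j) (b k))
  have ht4 : ∀ x y z, t (b.equivFun y) (b.equivFun z) + t (b.equivFun x) (b.equivFun (y + z)) -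
      t (b.equivFun (x + y)) (b.equivFun z) - t (b.equivFun x) (b.equivFun y) = Ψ (B x y) z := by
    intro x y z
    have hz : ∀ v : Fin l → ZMod 2, Ψ v z = ∑ k, b.equivFun z k * Ψ v (b k) := by
      intro v
      conv_lhs => rw [← b.sum_equivFun z]
      rw [map_sum]
      refine Finset.sum_congr rfl fun k _ => ?_
      rw [map_smul, smul_eq_mul]
    rw [map_add, map_add, ht3, hB, map_sum, LinearMap.sum_apply]
    refine Finset.sum_congr rfl fun a _ => ?_
    rw [map_sum, LinearMap.sum_apply]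
    refine Finset.sum_congr rfl fun c _ => ?_
    split_ifs with h
    · rw [map_smul, LinearMap.smul_apply, hz, smul_eq_mul, Finset.mul_sum]
      refine Finset.sum_congr rfl fun k _ => ?_
      ring
    · rw [map_zero, LinearMap.zero_apply, Finset.sum_const_zero]
  have hmul : ∀ r r', vr (r * r') = vr r + vr r' +
      B (Multiplicative.toAdd (Dg.π r)) (Multiplicative.toAdd (Dg.π r')) := by
    intro r r'
    funext k
    rw [hv2 r r' k]
    rfl
  have hvr : ∀ v, Dg.π v = 1 → vr v = fun k => Dg.cv k v := by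
    intro v hv
    funext k
    exact hv1 v hv k
  have hvr1 : vr 1 = 0 := by
    rw [hvr 1 (map_one _)]
    funext k
    exact epa_cv_one Dg k
  refine ⟨fun r r' => Ψ (vr r) (Multiplicative.toAdd (Dg.π r')) +
    t (b.equivFun (Multiplicative.toAdd (Dg.π r))) (b.equivFun (Multiplicative.toAdd (Dg.π r'))),
    ⟨?_, ?_, ?_⟩, ?_, ?_⟩
  · intro a
    rw [hvr1, map_zero, LinearMap.zero_apply, map_one, toAdd_one, map_zero, ht1, add_zero]
  · intro a
    rw [map_one, toAdd_one, map_zero, map_zero, ht2, add_zero]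
  · intro x y z
    have h := ht4 (Multiplicative.toAdd (Dg.π x)) (Multiplicative.toAdd (Dg.π y))
      (Multiplicative.toAdd (Dg.π z))
    rw [hmul x y]
    simp only [map_mul, toAdd_mul, map_add, LinearMap.add_apply] at h ⊢
    linear_combination h
  · intro v v' hv hv'
    dsimp only
    rw [hv, hv', toAdd_one, map_zero, map_zero, ht1, add_zero]
  · intro v r hv
    unfold iv
    dsimp only
    rw [hv, toAdd_one, map_zero, map_zero, ht1, ht2, hvr v hv]
    ring

end basis

/-- the cocycle -/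
theorem ep_ex {p m l w N : ℕ} {P R : Type} [Group P] [Group R] (hp : p.Prime)
    (Dg : GP p m l w N P R)
    (Ψ : (Fin l → ZMod p) →ₗ[ZMod p] (Fin m → ZMod p) →ₗ[ZMod p] ZMod p)
    (hJ : ∀ a b c, Ψ (Dg.kV a b) c + Ψ (Dg.kV b c) a + Ψ (Dg.kV c a) b = 0)
    (hA : p = 2 → ∀ i u, Ψ (Dg.kV (Dg.s i) u) (Dg.s i) = 0) :
    ∃ e : R → R → ZMod p, Coc p e ∧ (∀ v v', Dg.π v = 1 → Dg.π v' = 1 → e v v' = 0) ∧
      ∀ v r, Dg.π v = 1 →
        iv e v r = Ψ (fun k => Dg.cv k v) (Multiplicative.toAdd (Dg.π r)) := by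
  by_cases h2 : p = 2
  · subst h2
    exact ep_two Dg Ψ hJ (hA rfl)
  · exact ep_exists hp h2 Dg Ψ hJ

end H57.D2
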