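import Pool.Agent.H77.PC3.CLh
import Pool.Agent.H57.D2.CLf

/-!
# H57-D2-CLH: the file H77/PC3/CLh with the condition `G2e` instead of `p ≠ 2`
-/

set_option autoImplicit false

open scoped NumberField
open IsDedekindDomain
open scoped Classical

noncomputable section

namespace H57.D2

open H77.PC3 H63.MA H38.BB H38.BG H57.PC H57.BRA H63.BU

variable {K : Type} [Field K] [NumberField K] {Ω : Type} [Field Ω] [Algebra K Ω]
  [IsAlgClosure K Ω] {p : ℕ} {ζ : K} {D : RD0 K p ζ} {m l w N : ℕ} {P R : Type}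
  [Group P] [Group R]

theorem many3 [NeZero p] [Finite P] (hp : p.Prime) (hp2 : MOne p K)
    (hζ : IsPrimitiveRoot ζ p) (hz : Z2 p K) {L : LDs D Ω} (Fr : FR L)
    (Dg : GP p m l w N P R) (hE : G2e Dg) (ε : Pl K → Gal(Ω/K) → R) (f : Fin N → Finset (Pl K))
    (hdj : Dj f) (hS : ∀ i, ∀ v ∈ f i, v ∉ D.S0) (hq : ∀ i, qf D (f i) = 0)
    (hsp : SpR Dg.cr (fun _ => 1) f) (ρ : Gal(Ω/K) →* R)
    (hρ : ρ ∈ RH L Dg (fun _ => 1) ∅ ε f) (hc : ∀ i, ∀ v ∈ f i, cq Dg Fr ρ v = 0) :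
    ∃ Ps : Finset (Gal(Ω/K) →* P), Ps.card = ∏ i, Dg.Wn i ^ (f i).card ∧
      ∀ ψ ∈ Ps, H38.ML.FT ψ ∧ Function.Surjective ψ ∧ (∀ σ, Dg.q (ψ σ) = ρ σ) ∧
        (∀ i, ∀ v ∈ f i, IsConj (ψ (L.t v)) (Dg.g i) ∧ ∀ τ ∈ inr L v, ψ τ ^ p = 1) ∧
        ∀ v, v ∉ D.S0 → (∀ i, v ∉ f i) → ∀ τ ∈ inr L v, ψ τ = 1 := by
  have hfin : Fintype P := Fintype.ofFinite P
  have hRf : Finite R := Finite.of_surjective _ Dg.qs
  obtain ⟨ψ₀, k0, k1⟩ := lift3 hp hp2 hζ hz Fr Dg hE ε f hS hq ρ hρ hc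
  obtain ⟨r0, r1, r2, r3, r4⟩ := hρ
  obtain ⟨x, hx⟩ : ∃ x : Finset (Pl K), x = Finset.univ.biUnion f := ⟨_, rfl⟩
  have hxm : ∀ v, v ∈ x ↔ ∃ i, v ∈ f i := by
    intro v
    rw [hx, Finset.mem_biUnion]
    simp
  obtain ⟨T, hT⟩ : ∃ T : Finset ((i : Fin N) → (↥(f i) → P)), T =
    Fintype.piFinset (fun i => Fintype.piFinset
      (fun v : ↥(f i) => Finset.univ.filter fun h : P => IsConj h (Dg.g i) ∧
        Dg.q h = ρ (L.t v.1))) := ⟨_, rfl⟩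
  have hTm : ∀ e ∈ T, ∀ i (v : ↥(f i)), IsConj (e i v) (Dg.g i) ∧
      Dg.q (e i v) = ρ (L.t v.1) := by
    intro e he i v
    rw [hT, Fintype.mem_piFinset] at he
    have h3 := (Fintype.mem_piFinset.1 (he i)) v
    rw [Finset.mem_filter] at h3
    exact h3.2
  have hTc : T.card = ∏ i, Dg.Wn i ^ (f i).card := by
    rw [hT, Fintype.card_piFinset]
    refine Finset.prod_congr rfl fun i _ => ?_
    rw [Fintype.card_piFinset, ← Finset.card_univ.trans (Fintype.card_coe (f i)),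
      ← Finset.prod_const]
    refine Finset.prod_congr rfl fun v _ => ?_
    rw [← wn_conj Dg i (ρ (L.t v.1)) (r2 i v.1 v.2).1, Nat.card_eq_fintype_card,
      Fintype.card_subtype]
  have hex : ∀ e : (i : Fin N) → (↥(f i) → P), ∃ ψ : Gal(Ω/K) →* P, e ∈ T →
      H38.ML.FT ψ ∧ (∀ σ, Dg.q (ψ σ) = ρ σ) ∧
      (∀ i (v : ↥(f i)), ψ (L.t v.1) = e i v) ∧
      (∀ v ∈ x, ∀ τ ∈ inr L v, ψ τ ^ p = 1) ∧
      ∀ v, v ∉ D.S0 → v ∉ x → ∀ τ ∈ inr L v, ψ τ = 1 := by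
    intro e
    by_cases he : e ∈ T
    · obtain ⟨y, hy⟩ := fam_fun f hdj e
      obtain ⟨ψ, a1, a2, a3, a4, a5⟩ := cx_adj (gx3 Dg) hp hζ L ρ ψ₀ k0 k1 x
        (fun v hv => by
          obtain ⟨i, hi⟩ := (hxm v).1 hv
          exact hS i v hi)
        (fun v hv hvx τ hτ => r4 v hv (Finset.notMem_empty v)
          (fun i hi => hvx ((hxm v).2 ⟨i, hi⟩)) τ hτ)
        (fun v hv τ hτ z hz' => by
          obtain ⟨i, hi⟩ := (hxm v).1 hv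
          refine pow_lift3 Dg i z _ (ρ (L.t v)) (r2 i v hi).1
            (hz'.trans (tm_z hp hζ L ρ r0 v (hS i v hi) (r2 i v hi).2 τ hτ)))
        y (fun v hv => by
          obtain ⟨i, hi⟩ := (hxm v).1 hv
          rw [hy i v hi]
          exact (hTm e he i ⟨v, hi⟩).2)
      exact ⟨ψ, fun _ => ⟨a1, a2, fun i v => by
        rw [a3 v.1 ((hxm v.1).2 ⟨i, v.2⟩), hy i v.1 v.2], a4, a5⟩⟩
    · exact ⟨1, fun h => absurd h he⟩
  choose ψ hψ using hex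
  have hinj : Set.InjOn ψ T := by
    intro e he e' he' h
    funext i v
    obtain ⟨-, -, h3, -⟩ := hψ e he
    obtain ⟨-, -, h3', -⟩ := hψ e' he'
    rw [← h3 i v, ← h3' i v, h]
  refine ⟨T.image ψ, by rw [Finset.card_image_of_injOn hinj, hTc], ?_⟩
  intro ψ' hψ'
  obtain ⟨e, he, rfl⟩ := Finset.mem_image.1 hψ'
  obtain ⟨a1, a2, a3, a4, a5⟩ := hψ e he
  refine ⟨a1, ?_, a2, fun i v hv => ⟨?_, a4 v ((hxm v).2 ⟨i, hv⟩)⟩, fun v hv hvf τ hτ => ?_⟩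
  · rw [← MonoidHom.range_eq_top]
    refine gp_frat Dg _ fun y => ?_
    obtain ⟨σ, hσ⟩ := sp_surj hp L Dg ∅ ε f ρ ⟨r0, r1, r2, r3, r4⟩ hsp (Dg.π (Dg.q y))
    exact ⟨ψ e σ, ⟨σ, rfl⟩, by rw [a2, hσ]⟩
  · rw [a3 i ⟨v, hv⟩]
    exact (hTm e he i ⟨v, hv⟩).1
  · exact a5 v hv (fun hvx => by
      obtain ⟨i, hi⟩ := (hxm v).1 hvx
      exact hvf i hi) τ hτ

end H57.D2
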