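import Pool.Agent.H77.PC3.CLw
import Pool.Agent.H57.D2.CLh

/-!
# H57-D2-CLW: the file H77/PC3/CLw with the condition `G2e` instead of `p ≠ 2`
-/

set_option autoImplicit false

open scoped NumberField
open IsDedekindDomain
open scoped Classical

noncomputable section

namespace H57.D2

open H77.PC3 H63.MA H38.BB H38.BG H57.PC H57.BRA H63.BU H77.AB

section

variable {K : Type} [Field K] [NumberField K] {Ω : Type} [Field Ω] [Algebra K Ω]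
  {p : ℕ} {ζ : K} {D : RD0 K p ζ} {m l w N : ℕ} {P R : Type} [Group P] [Group R]

theorem lbd_of_lb0 [IsAlgClosure K Ω] [NeZero p] [Finite P] (hp : p.Prime)
    (hp2 : MOne p K) (hζ : IsPrimitiveRoot ζ p) (hz : Z2 p K) {L : LDs D Ω} (Fr : FR L)
    (Dg : GP p m l w N P R) (hE : G2e Dg) (h : LB0 Dg Fr) : LBd L Dg.g := by
  obtain ⟨c, Y₀, hc, hY3, hY⟩ := h
  refine ⟨c, Y₀, hc, hY3, fun X hX => ?_⟩
  have hX0 := hY X hX
  obtain ⟨A, hA⟩ : ∃ A : Finset (Fin N → Finset (Pl K)), A =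
    (Fam0 D N X).filter fun f => SpR Dg.cr (fun _ => (1 : Kˣ)) f := ⟨_, rfl⟩
  have hAm : ∀ f ∈ A, Dj f ∧ ∏ i, nr (f i) ≤ X ∧ SpR Dg.cr (fun _ => 1) f ∧
      (∀ i, qf D (f i) = 0) ∧ ∀ i, ∀ v ∈ f i, v ∉ D.S0 := by
    intro f hf
    rw [hA, Finset.mem_filter] at hf
    obtain ⟨hf, h5⟩ := hf
    unfold Fam0 at hf
    rw [Finset.mem_filter] at hf
    obtain ⟨h1, h3, h4, h6⟩ := hf
    refine ⟨h3, h4, h5, h6, fun i v hv => ?_⟩
    exact ((atupa_mem_GF.1 (Fintype.mem_piFinset.1 h1 i)).2 v hv).1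
  obtain ⟨B, hB⟩ : ∃ B : (Fin N → Finset (Pl K)) → Finset (Gal(Ω/K) →* R), B = fun f =>
    (RHf L Dg (fun _ => 1) ∅ (fun _ _ => 1) f).filter fun ρ =>
      ∀ i, ∀ v ∈ f i, cq Dg Fr ρ v = 0 := ⟨_, rfl⟩
  have hBm : ∀ f, ∀ ρ ∈ B f, ρ ∈ RH L Dg (fun _ => 1) ∅ (fun _ _ => 1) f ∧
      ∀ i, ∀ v ∈ f i, cq Dg Fr ρ v = 0 := by
    intro f ρ hρ
    rw [hB] at hρ
    exact ⟨mem_RHf (Finset.mem_filter.1 hρ).1, (Finset.mem_filter.1 hρ).2⟩
  have hex : ∀ (f : Fin N → Finset (Pl K)) (ρ : Gal(Ω/K) →* R),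
      ∃ Ps : Finset (Gal(Ω/K) →* P), f ∈ A → ρ ∈ B f →
        Ps.card = ∏ i, Dg.Wn i ^ (f i).card ∧
      ∀ ψ ∈ Ps, H38.ML.FT ψ ∧ Function.Surjective ψ ∧ (∀ σ, Dg.q (ψ σ) = ρ σ) ∧
        (∀ i, ∀ v ∈ f i, IsConj (ψ (L.t v)) (Dg.g i) ∧ ∀ τ ∈ inr L v, ψ τ ^ p = 1) ∧
        ∀ v, v ∉ D.S0 → (∀ i, v ∉ f i) → ∀ τ ∈ inr L v, ψ τ = 1 := by
    intro f ρ
    by_cases hfA : f ∈ A
    · by_cases hρB : ρ ∈ B f
      · obtain ⟨h3, h4, h5, h6, h7⟩ := hAm f hfA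
        obtain ⟨h8, h9⟩ := hBm f ρ hρB
        obtain ⟨Ps, hPs⟩ := many3 hp hp2 hζ hz Fr Dg hE (fun _ _ => 1) f h3 h7 h6 h5 ρ h8 h9
        exact ⟨Ps, fun _ _ => hPs⟩
      · exact ⟨∅, fun _ h => absurd h hρB⟩
    · exact ⟨∅, fun h => absurd h hfA⟩
  choose Ps hPs using hex
  -- the family is determined by the homomorphism
  have hfam : ∀ f ∈ A, ∀ ρ ∈ B f, ∀ ψ ∈ Ps f ρ, ∀ i v, v ∈ f i ↔
      v ∉ D.S0 ∧ IsConj (ψ (L.t v)) (Dg.g i) := by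
    intro f hf ρ hρ ψ hψ i v
    obtain ⟨a1, a2, a3, a4, a5⟩ := (hPs f ρ hf hρ).2 ψ hψ
    constructor
    · exact fun hv => ⟨(hAm f hf).2.2.2.2 i v hv, (a4 i v hv).1⟩
    · rintro ⟨hv, hcj⟩
      by_cases hvf : ∃ j, v ∈ f j
      · obtain ⟨j, hj⟩ := hvf
        have h3 : i = j := Dg.uni i j (hcj.symm.trans (a4 j v hj).1)
        rw [h3]
        exact hj
      · exfalso
        rw [a5 v hv (fun j hj => hvf ⟨j, hj⟩) _ (uinr_t L v)] at hcj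
        exact Dg.ne i (isConj_one_right.1 hcj)
  refine ⟨A.biUnion fun f => (B f).biUnion fun ρ => Ps f ρ, ?_, ?_⟩
  · have hcard : (A.biUnion fun f => (B f).biUnion fun ρ => Ps f ρ).card =
        ∑ f ∈ A, ∑ ρ ∈ B f, ∏ i, Dg.Wn i ^ (f i).card := by
      rw [Finset.card_biUnion]
      · refine Finset.sum_congr rfl fun f hf => ?_
        rw [Finset.card_biUnion]
        · exact Finset.sum_congr rfl fun ρ hρ => (hPs f ρ hf hρ).1
        · intro ρ hρ ρ' hρ' hne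
          change Disjoint _ _
          rw [Finset.disjoint_left]
          intro ψ hψ hψ'
          apply hne
          apply MonoidHom.ext
          intro σ
          rw [← ((hPs f ρ hf hρ).2 ψ hψ).2.2.1 σ, ← ((hPs f ρ' hf hρ').2 ψ hψ').2.2.1 σ]
      · intro f hf f' hf' hne
        change Disjoint _ _
        rw [Finset.disjoint_left]
        intro ψ hψ hψ'
        obtain ⟨ρ, hρ, hψ1⟩ := Finset.mem_biUnion.1 hψ
        obtain ⟨ρ', hρ', hψ2⟩ := Finset.mem_biUnion.1 hψ'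
        apply hne
        funext i
        ext v
        rw [hfam f hf ρ hρ ψ hψ1 i v, hfam f' hf' ρ' hρ' ψ hψ2 i v]
    refine hX0.trans (le_of_eq ?_)
    rw [hcard]
    unfold F0
    rw [← Finset.sum_filter, ← hA]
    push_cast
    refine Finset.sum_congr rfl fun f _ => ?_
    unfold FW
    rw [← Finset.sum_filter, hB]
  · intro ψ hψ
    obtain ⟨f, hf, h3⟩ := Finset.mem_biUnion.1 hψ
    obtain ⟨ρ, hρ, hψ1⟩ := Finset.mem_biUnion.1 h3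
    obtain ⟨b1, b2, b3, b4, b5⟩ := hAm f hf
    obtain ⟨a1, a2, a3, a4, a5⟩ := (hPs f ρ hf hρ).2 ψ hψ1
    refine ⟨a1, a2, Finset.univ.biUnion f, fun v hv => ?_, ?_, fun v hv => ?_,
      fun v hv hvf τ hτ => ?_⟩
    · obtain ⟨i, -, hi⟩ := Finset.mem_biUnion.1 hv
      exact b5 i v hi
    · rw [Finset.prod_biUnion (fun i _ j _ hij => b1 i j hij)]
      exact b2
    · obtain ⟨i, -, hi⟩ := Finset.mem_biUnion.1 hv
      refine ⟨i, ψ (L.t v), (a4 i v hi).1, fun τ hτ => ?_⟩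
      rw [tm_z hp hζ L ψ a1 v (b5 i v hi) (a4 i v hi).2 τ hτ]
      exact Subgroup.pow_mem _ (Subgroup.mem_zpowers _) _
    · exact a5 v hv (fun i hi => hvf (Finset.mem_biUnion.2 ⟨i, Finset.mem_univ _, hi⟩)) τ hτ

end

end H57.D2
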