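import Pool.Agent.H77.S0T.La
import Pool.Agent.H57.D2.CLh

/-!
# H57-D2-LA: the file H77/S0T/La with the condition `G2e` instead of `p ≠ 2`
-/

set_option autoImplicit false

open scoped NumberField
open IsDedekindDomain
open scoped Classical

noncomputable section

namespace H57.D2

open H77.S0T H63.MA H38.BB H38.BG H57.PC H57.BRA H63.BU H77.PC3 H57.CC H89.BRG

section gal

variable {K : Type} [Field K] {Ω : Type} [Field Ω] [Algebra K Ω] {p d : ℕ} {P R : Type}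
  [Group P] [Group R] (X : CX p d P R)

end gal

variable {K : Type} [Field K] [NumberField K] {Ω : Type} [Field Ω] [Algebra K Ω]
  [IsAlgClosure K Ω] {p d : ℕ} {ζ : K} {D : RD0 K p ζ} {P R : Type} [Group P] [Group R]
  (X : CX p d P R)

variable {m l w N : ℕ}

/-- a homomorphism to `R` with local lifts, equal to `q ∘ φ₁` at `S0`, lifts to `P` -/
theorem lft [NeZero p] [Finite P] (hp : p.Prime) (hp2 : MOne p K)
    (hζ : IsPrimitiveRoot ζ p) (hz : Z2 p K) {L : LDs D Ω} (Q : DP K Ω) (Fr : FR L)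
    (Dg : GP p m l w N P R) (hE : G2e Dg) (b : Fin m → Kˣ) (ε : Pl K → Gal(Ω/K) → R)
    (f : Fin N → Finset (Pl K)) (ρ : Gal(Ω/K) →* R)
    (hρ : ρ ∈ RH L Dg b ∅ ε f) (hc : ∀ i, ∀ v ∈ f i, cq Dg Fr ρ v = 0)
    (φ₁ : Gal(Ω/K) →* P) (h₁ : H38.ML.FT φ₁) (hT : Teq D.S0 Q ρ (Dg.q.comp φ₁)) :
    ∃ ψ₀ : Gal(Ω/K) →* P, H38.ML.FT ψ₀ ∧ ∀ σ, Dg.q (ψ₀ σ) = ρ σ := by
  have hRf : Finite R := Finite.of_surjective _ Dg.qs
  obtain ⟨r0, r1, r2, -, r4⟩ := hρ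
  have h0 : ∀ v, v ∉ D.S0 → (∀ i, v ∉ f i) → ∀ τ ∈ inr L v, ρ τ = 1 :=
    fun v hv hvf => r4 v hv (Finset.notMem_empty v) hvf
  obtain ⟨r, q1, q2, q3⟩ := gp_ret hp Dg hE
  refine cx_lift (gx3 Dg) ρ r0 fun k => ?_
  refine brg1q hp hp2 hζ hz Q Fr (cx_coc (gx3 Dg) k) r0 (akR D Dg.cr b f)
    ?_ (fun v hv => ?_) (fun v hv τ hτ => ?_) (fun v hv => ?_)
  · refine ⟨fun σ => - Dg.cw k (r ((gx3 Dg).s (ρ σ))), ?_, fun σ hσ τ hτ => ?_⟩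
    · exact glift_lev_comp2 ρ ρ (fun z => - Dg.cw k (r ((gx3 Dg).s z.1))) (ft_lev ρ r0)
        (ft_lev ρ r0)
    · have hV : ∀ σ : Gal(Ω/K), σ ∈ Zk p ζ (akR D Dg.cr b f) →
          Dg.π (ρ σ) = 1 := by
        intro σ hσ
        apply Multiplicative.toAdd.injective
        funext j
        rw [← r1 σ j, hσ j]
        rfl
      have hs : ∀ x, Dg.q ((gx3 Dg).s x) = x := fun x => cx_s (gx3 Dg) x
      have s1 : Dg.π (Dg.q ((gx3 Dg).s (ρ σ))) = 1 := by rw [hs, hV σ hσ]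
      have s2 : Dg.π (Dg.q ((gx3 Dg).s (ρ τ))) = 1 := by rw [hs, hV τ hτ]
      have s3 : Dg.π (Dg.q ((gx3 Dg).s (ρ σ * ρ τ))) = 1 := by
        rw [hs, map_mul, hV σ hσ, hV τ hτ, one_mul]
      have hE : Dg.q ((gx3 Dg).E (ρ σ) (ρ τ)) = 1 := cx_E (gx3 Dg) _ _
      have e1 := congrArg r (cx_Es (gx3 Dg) (ρ σ) (ρ τ))
      rw [q2 _ _ s1 s2, q2 _ _ (by rw [hE, map_one]) s3, q3 _ hE] at e1
      have e2 := congrArg (Dg.cw k) e1
      rw [Dg.wadd k _ _ (q1 _ s1) (q1 _ s2), Dg.wadd k _ _ hE (q1 _ s3)] at e2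
      have e3 : pb ((gx3 Dg).e k) ρ σ τ = Dg.cw k ((gx3 Dg).E (ρ σ) (ρ τ)) := rfl
      simp only
      rw [map_mul, e3]
      linear_combination e2
  · exact cx_kl (gx3 Dg) φ₁ h₁ ρ r0 (dec (K := K) (Q.P v)) (fun σ hσ => (hT v hv σ hσ).symm) k
  · by_cases hvf : ∃ i, v ∈ f i
    · obtain ⟨i, hi⟩ := hvf
      exact (r2 i v hi).2 τ hτ
    · rw [h0 v hv (fun i hi => hvf ⟨i, hi⟩) τ hτ, one_pow]
  · by_cases hvf : ∃ i, v ∈ f i
    · obtain ⟨i, hi⟩ := hvf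
      have hcom := Fr.com v hv R ρ r0 (r2 i v hi).2
      have h5 := cx_iv (gx3 Dg) k ((gx3 Dg).s (ρ (Fr.F v))) ((gx3 Dg).s (ρ (L.t v))) (by
        rw [cx_s, cx_s, hcom])
      rw [cx_s, cx_s] at h5
      have h6 := congrFun (hc i v hi) k
      unfold cq at h6
      have h7 := cm_eq Dg ((gx3 Dg).s (ρ (Fr.F v))) ((gx3 Dg).s (ρ (L.t v))) k
      have hs : ∀ x, Dg.q ((gx3 Dg).s x) = x := fun x => cx_s (gx3 Dg) x
      rw [hs, hs, h6] at h7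
      rw [h5]
      exact h7.symm
    · rw [h0 v hv (fun i hi => hvf ⟨i, hi⟩) _ (uinr_t L v)]
      unfold iv
      rw [(cx_coc (gx3 Dg) k).l1, (cx_coc (gx3 Dg) k).r1, sub_zero]

end H57.D2
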