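import Pool.Agent.H77.S0T.Le
import Pool.Agent.H57.D2.Lb

/-!
# H57-D2-LE: the file H77/S0T/Le with the condition `G2e` instead of `p ≠ 2`
-/

set_option autoImplicit false

open scoped NumberField
open IsDedekindDomain
open scoped Classical

noncomputable section

namespace H57.D2

open H77.S0T H63.MA H38.BB H38.BG H57.PC H57.BRA H63.BU H77.PC3 H57.CC H89.BRG

variable {K : Type} [Field K] [NumberField K] {Ω : Type} [Field Ω] [Algebra K Ω]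
  {p : ℕ} {ζ : K} {D : RD0 K p ζ} {P R : Type} [Group P] [Group R] {m l w N k : ℕ}

variable [IsAlgClosure K Ω]

/-- a functional which is nontrivial on a unit -/
theorem gph_unit [NeZero p] [Finite P] (hp : p.Prime) (hp2 : MOne p K)
    (hζ : IsPrimitiveRoot ζ p) (hz : Z2 p K) {L : LDs D Ω} (Q : DP K Ω) (Fr : FR L)
    (Dg : GP p m l w N P R) (hE : G2e Dg) (b : Fin m → Kˣ) (φ₁ : Gal(Ω/K) →* P) (h₁ : H38.ML.FT φ₁)
    (X : VP K Ω p w k P) (hX : X.Ok D Q) (hr : ∀ j, X.r j = φ₁ (X.σ j)) (y : Fin w → ZMod p)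
    (u : Kˣ) (hu : TUnit D.S0 u) (hne : ∑ j, dt (X.η j) y * kk p ζ u (X.σ j) ≠ 0)
    (f : Fin N → Finset (Pl K)) (hdj : Dj f) (hG : ∀ i, ∀ v ∈ f i, D.Gd v) :
    Gph L Q Dg b φ₁ X f = 0 := by
  have hRf : Finite R := Finite.of_surjective _ Dg.qs
  have hmem := mem_PFf hp hp2 hζ hz Q Fr Dg hE b f hdj hG φ₁ h₁
  have hWu : ∀ a, TUnit D.S0 a → cy Dg ζ Ω a y ∈ Wu (gx3 Dg) L := fun a ha =>
    ⟨cxk_ft (gx3 Dg) hp hζ _, cy_q Dg a y, fun v hv τ hτ => cy_one hp hζ L Dg a y v hv (ha v hv) τ hτ⟩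
  have h3 := sum_tw hp Dg X (PFf L Q Dg b f φ₁) (PFf L Q Dg b f φ₁) (cy Dg ζ Ω u y)
    (cy Dg ζ Ω u⁻¹ y) (cy_q Dg u y) (cy_q Dg u⁻¹ y) (cy_inv hp hζ Dg u y)
    (fun φ hφ => (hmem _).2 (pf_tw ((hmem φ).1 hφ) (hWu u hu)))
    (fun φ hφ => (hmem _).2 (pf_tw ((hmem φ).1 hφ) (hWu u⁻¹ (fun v hv => by
      rw [ord_inv, hu v hv, neg_zero]))))
    (fun φ hφ j => by
      have h4 := ((hmem φ).1 hφ).2.1
      unfold RHS at h4
      rw [Finset.mem_filter] at h4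
      obtain ⟨v, hv, hσ⟩ := hX.mem j
      rw [hr]
      exact h4.2 v hv _ hσ)
  have h5 : ∑ j, dt (X.η j) (fun c => Dg.cw c (cy Dg ζ Ω u y (X.σ j))) =
      ∑ j, dt (X.η j) y * kk p ζ u (X.σ j) := by
    refine Finset.sum_congr rfl fun j _ => ?_
    unfold dt
    rw [Finset.sum_mul]
    refine Finset.sum_congr rfl fun c _ => ?_
    have h6 := cy_c (Ω := Ω) hp hζ Dg u y (X.σ j) c
    rw [mul_assoc]
    exact congrArg (fun t => X.η j c * t) h6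
  rw [h5] at h3
  have h6 : ep p (∑ j, dt (X.η j) y * kk p ζ u (X.σ j)) ≠ 1 := fun h => hne ((ep_eq_one hp _).1 h)
  unfold Gph
  obtain ⟨S, hS⟩ : ∃ S : ℂ, S = ∑ φ ∈ PFf L Q Dg b f φ₁, phP Dg X φ := ⟨_, rfl⟩
  rw [← hS] at h3 ⊢
  have h7 : (ep p (∑ j, dt (X.η j) y * kk p ζ u (X.σ j)) - 1) * S = 0 := by
    rw [sub_mul, one_mul, ← h3, sub_self]
  rcases mul_eq_zero.1 h7 with h8 | h8
  · exact absurd (sub_eq_zero.1 h8) h6
  · exact h8

/-- the dependence on a class contained in `W` -/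
theorem gph_upd [NeZero p] [Finite P] (hp : p.Prime) (hp2 : MOne p K)
    (hζ : IsPrimitiveRoot ζ p) (hz : Z2 p K) {L : LDs D Ω} (Q : DP K Ω) (Fr : FR L)
    (Dg : GP p m l w N P R) (hE : G2e Dg) (b : Fin m → Kˣ) (φ₁ : Gal(Ω/K) →* P) (h₁ : H38.ML.FT φ₁)
    (X : VP K Ω p w k P) (hX : X.Ok D Q) (hr : ∀ j, X.r j = φ₁ (X.σ j)) (i₀ : Fin N)
    (hi : Dg.q (Dg.g i₀) = 1)
    (f : Fin N → Finset (Pl K)) (hdj : Dj f) (hG : ∀ i, ∀ v ∈ f i, D.Gd v) :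
    Gph L Q Dg b φ₁ X f = ep p (∑ v ∈ f i₀, ∑ j,
      dt (X.η j) (fun c => Dg.cw c (Dg.g i₀)) * kk p ζ (D.pi v) (X.σ j)) *
        Gph L Q Dg b φ₁ X (Function.update f i₀ ∅) ∧
      (PFf L Q Dg b (Function.update f i₀ ∅) φ₁).card = (PFf L Q Dg b f φ₁).card := by
  have hRf : Finite R := Finite.of_surjective _ Dg.qs
  have hS : ∀ i, ∀ v ∈ f i, v ∉ D.S0 := fun i v hv => (hG i v hv).1
  obtain ⟨f₀, hf₀⟩ : ∃ f₀ : Fin N → Finset (Pl K), f₀ = Function.update f i₀ ∅ := ⟨_, rfl⟩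
  have hf₀i : f₀ i₀ = ∅ := by rw [hf₀, Function.update_self]
  have hf₀n : ∀ i, i ≠ i₀ → f₀ i = f i := by
    intro i h
    rw [hf₀, Function.update_of_ne h]
  have hf₀s : ∀ i, f₀ i ⊆ f i := by
    intro i
    by_cases h : i = i₀
    · subst h
      rw [hf₀i]
      exact Finset.empty_subset _
    · rw [hf₀n i h]
  have hdj₀ : Dj f₀ := fun i j hij => Finset.disjoint_of_subset_left (hf₀s i)
    (Finset.disjoint_of_subset_right (hf₀s j) (hdj i j hij))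
  have hG₀ : ∀ i, ∀ v ∈ f₀ i, D.Gd v := fun i v hv => hG i v (hf₀s i hv)
  have hmem := mem_PFf hp hp2 hζ hz Q Fr Dg hE b f hdj hG φ₁ h₁
  have hmem₀ := mem_PFf hp hp2 hζ hz Q Fr Dg hE b f₀ hdj₀ hG₀ φ₁ h₁
  have hRH : RHS L Q Dg b f (Dg.q.comp φ₁) = RHS L Q Dg b f₀ (Dg.q.comp φ₁) := by
    unfold RHS
    congr 1
    ext ρ
    rw [mem_RHf' hp hζ, mem_RHf' hp hζ, rh_upd hp hζ L Dg b (fun _ _ => 1) f hdj hS i₀ hi, hf₀]
  obtain ⟨y, hy⟩ : ∃ y : Fin w → ZMod p, y = fun c => Dg.cw c (Dg.g i₀) := ⟨_, rfl⟩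
  obtain ⟨a, ha⟩ : ∃ a : Kˣ, a = ∏ v ∈ f i₀, D.pi v := ⟨_, rfl⟩
  have hord1 : ∀ v ∈ f i₀, ord v a = 1 := by
    intro v hv
    rw [ha, ord_prod, Finset.sum_eq_single v]
    · exact D.pi_self v (hS i₀ v hv)
    · intro u hu huv
      exact D.pi_ne u v (hS i₀ u hu) (hS i₀ v hv) huv.symm
    · intro h
      exact absurd hv h
  have hord0 : ∀ v, v ∉ D.S0 → v ∉ f i₀ → ord v a = 0 := by
    intro v hv hvf
    rw [ha, ord_prod, Finset.sum_eq_zero]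
    intro u hu
    refine D.pi_ne u v (hS i₀ u hu) hv ?_
    rintro rfl
    exact hvf hu
  have hft : ∀ a : Kˣ, H38.ML.FT (cy Dg ζ Ω a y) := fun a => cxk_ft (gx3 Dg) hp hζ _
  have hcyt : ∀ v ∈ f i₀, cy Dg ζ Ω a y (L.t v) = Dg.g i₀ := by
    intro v hv
    refine w_ext Dg _ _ (cy_q Dg a y _) hi fun c => ?_
    rw [cy_t hp hζ L Dg a y v (hS i₀ v hv), hord1 v hv, Int.cast_one, mul_one, hy]
  have hcy1 : ∀ v, v ∉ D.S0 → v ∉ f i₀ → ∀ τ ∈ inr L v, cy Dg ζ Ω a y τ = 1 :=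
    fun v hv hvf τ hτ => cy_one hp hζ L Dg a y v hv (hord0 v hv hvf) τ hτ
  have hcyi : ∀ σ, cy Dg ζ Ω a⁻¹ y σ = (cy Dg ζ Ω a y σ)⁻¹ := fun σ =>
    (inv_eq_of_mul_eq_one_right (cy_inv hp hζ Dg a y σ)).symm
  have hqc : ∀ φ (a' : Kˣ), Dg.q.comp (cxt (gx3 Dg) (cy Dg ζ Ω a' y) φ (cy_q Dg a' y)) =
      Dg.q.comp φ := by
    intro φ a'
    apply MonoidHom.ext
    intro σ
    rw [MonoidHom.comp_apply, MonoidHom.comp_apply, cxt_apply, map_mul]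
    have h3 : Dg.q (cy Dg ζ Ω a' y σ) = 1 := cy_q Dg a' y σ
    rw [h3, one_mul]
  have hnot : ∀ i, i ≠ i₀ → ∀ v ∈ f i, v ∉ f i₀ := fun i h v hv hv' =>
    Finset.disjoint_left.1 (hdj i i₀ h) hv hv'
  have hA : ∀ φ ∈ PFf L Q Dg b f₀ φ₁,
      cxt (gx3 Dg) (cy Dg ζ Ω a y) φ (cy_q Dg a y) ∈ PFf L Q Dg b f φ₁ := by
    intro φ hφ
    rw [hmem]
    obtain ⟨a0, a1, a2, a3⟩ := (hmem₀ φ).1 hφ
    refine ⟨cxt_ft (gx3 Dg) _ φ _ (hft a) a0, ?_, fun i v hv => ?_, fun v hv hvf τ hτ => ?_⟩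
    · rw [hqc, hRH]
      exact a1
    · by_cases h : i = i₀
      · subst h
        have h3 : ∀ τ ∈ inr L v, φ τ = 1 := a3 v (hS i v hv) (fun j hj => by
          by_cases h4 : j = i
          · subst h4
            rw [hf₀i] at hj
            exact absurd hj (Finset.notMem_empty v)
          · exact hnot j h4 v (hf₀s j hj) hv)
        refine ⟨hG i v hv, ?_, fun τ hτ => ?_⟩
        · rw [cxt_apply, hcyt v hv, h3 _ (uinr_t L v), mul_one]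
          exact IsConj.refl _
        · rw [cxt_apply, h3 τ hτ, mul_one]
          exact w_pow Dg _ (cy_q Dg a y τ)
      · have hvf := hnot i h v hv
        obtain ⟨g1, g2, g3⟩ := a2 i v (by rw [hf₀n i h]; exact hv)
        refine ⟨g1, ?_, fun τ hτ => ?_⟩
        · rw [cxt_apply, hcy1 v (hS i v hv) hvf _ (uinr_t L v), one_mul]
          exact g2
        · rw [cxt_apply, hcy1 v (hS i v hv) hvf τ hτ, one_mul]
          exact g3 τ hτ
    · rw [cxt_apply, hcy1 v hv (hvf i₀) τ hτ, one_mul]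
      exact a3 v hv (fun i hi' => hvf i (hf₀s i hi')) τ hτ
  have hB : ∀ φ ∈ PFf L Q Dg b f φ₁,
      cxt (gx3 Dg) (cy Dg ζ Ω a⁻¹ y) φ (cy_q Dg a⁻¹ y) ∈ PFf L Q Dg b f₀ φ₁ := by
    intro φ hφ
    rw [hmem₀]
    obtain ⟨a0, a1, a2, a3⟩ := (hmem φ).1 hφ
    refine ⟨cxt_ft (gx3 Dg) _ φ _ (hft a⁻¹) a0, ?_, fun i v hv => ?_, fun v hv hvf τ hτ => ?_⟩
    · rw [hqc, ← hRH]
      exact a1
    · by_cases h : i = i₀
      · subst h
        rw [hf₀i] at hv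
        exact absurd hv (Finset.notMem_empty v)
      · rw [hf₀n i h] at hv
        have hvf := hnot i h v hv
        obtain ⟨g1, g2, g3⟩ := a2 i v hv
        refine ⟨g1, ?_, fun τ hτ => ?_⟩
        · rw [cxt_apply, hcyi, hcy1 v (hS i v hv) hvf _ (uinr_t L v), inv_one, one_mul]
          exact g2
        · rw [cxt_apply, hcyi, hcy1 v (hS i v hv) hvf τ hτ, inv_one, one_mul]
          exact g3 τ hτ
    · by_cases hv0 : v ∈ f i₀
      · obtain ⟨g1, g2, g3⟩ := a2 i₀ v hv0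
        have h3 : φ (L.t v) = Dg.g i₀ := by
          obtain ⟨c, hc⟩ := isConj_iff.1 g2.symm
          rw [← hc]
          have h4 : Dg.g i₀ * c⁻¹ = c⁻¹ * Dg.g i₀ := Dg.wcen _ hi c⁻¹
          change c * Dg.g i₀ * c⁻¹ = _
          rw [mul_assoc, h4, mul_inv_cancel_left]
        rw [cxt_apply, hcyi, cx_inr (gx3 Dg) hp hζ L _ (cy_q Dg a y) (hft a) v hv τ hτ,
          tm_z hp hζ L φ a0 v hv g3 τ hτ, h3, hcyt v hv0, inv_mul_cancel]
      · rw [cxt_apply, hcyi, hcy1 v hv hv0 τ hτ, inv_one, one_mul]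
        refine a3 v hv (fun i hiv => ?_) τ hτ
        by_cases h : i = i₀
        · subst h
          exact hv0 hiv
        · exact hvf i (by rw [hf₀n i h]; exact hiv)
  have h3 := sum_tw hp Dg X (PFf L Q Dg b f₀ φ₁) (PFf L Q Dg b f φ₁) (cy Dg ζ Ω a y)
    (cy Dg ζ Ω a⁻¹ y) (cy_q Dg a y) (cy_q Dg a⁻¹ y) (cy_inv hp hζ Dg a y) hA hB
    (fun φ hφ j => by
      have h4 := ((hmem₀ φ).1 hφ).2.1
      unfold RHS at h4
      rw [Finset.mem_filter] at h4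
      obtain ⟨v, hv, hσ⟩ := hX.mem j
      rw [hr]
      exact h4.2 v hv _ hσ)
  have h5 : ∑ j, dt (X.η j) (fun c => Dg.cw c (cy Dg ζ Ω a y (X.σ j))) =
      ∑ v ∈ f i₀, ∑ j, dt (X.η j) y * kk p ζ (D.pi v) (X.σ j) := by
    rw [Finset.sum_comm]
    refine Finset.sum_congr rfl fun j _ => ?_
    rw [← Finset.mul_sum, ← kk_prod_arg hp hζ, ← ha]
    unfold dt
    rw [Finset.sum_mul]
    refine Finset.sum_congr rfl fun c _ => ?_
    have h6 := cy_c (Ω := Ω) hp hζ Dg a y (X.σ j) c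
    rw [mul_assoc]
    exact congrArg (fun t => X.η j c * t) h6
  refine ⟨?_, ?_⟩
  · rw [h5] at h3
    unfold Gph
    rw [← hf₀, ← hy]
    exact h3
  · rw [← hf₀]
    refine Finset.card_nbij' (fun φ => cxt (gx3 Dg) (cy Dg ζ Ω a y) φ (cy_q Dg a y))
      (fun φ => cxt (gx3 Dg) (cy Dg ζ Ω a⁻¹ y) φ (cy_q Dg a⁻¹ y)) hA hB ?_ ?_
    · intro φ _
      apply MonoidHom.ext
      intro σ
      rw [cxt_apply, cxt_apply, hcyi, inv_mul_cancel_left]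
    · intro φ _
      apply MonoidHom.ext
      intro σ
      rw [cxt_apply, cxt_apply, hcyi, mul_inv_cancel_left]

/-- a nontrivial functional -/
theorem gph_dich [NeZero p] [Finite P] (hp : p.Prime) (hp2 : MOne p K)
    (hζ : IsPrimitiveRoot ζ p) (hz : Z2 p K) {L : LDs D Ω} (Q : DP K Ω) (Fr : FR L)
    (Dg : GP p m l w N P R) (hE : G2e Dg) (hW : WTy Dg) (φ₁ : Gal(Ω/K) →* P) (h₁ : H38.ML.FT φ₁)
    (X : VP K Ω p w k P) (hX : X.Ok D Q) (hr : ∀ j, X.r j = φ₁ (X.σ j)) (ht : ¬ X.Tr ζ) :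
    (∀ (b : Fin m → Kˣ) (f : Fin N → Finset (Pl K)), Dj f → (∀ i, ∀ v ∈ f i, D.Gd v) →
      Gph L Q Dg b φ₁ X f = 0) ∨
    ∃ (i₀ : Fin N) (κ : Fin D.r → ZMod p), Dg.q (Dg.g i₀) = 1 ∧ κ ≠ 0 ∧
      ∀ (b : Fin m → Kˣ) (f : Fin N → Finset (Pl K)), Dj f → (∀ i, ∀ v ∈ f i, D.Gd v) →
        Gph L Q Dg b φ₁ X f = Gph L Q Dg b φ₁ X (Function.update f i₀ ∅) *
          ep p (dt κ (qf D (f i₀))) := by
  unfold VP.Tr at ht
  push Not at ht
  obtain ⟨y, c, hyc⟩ := ht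
  obtain ⟨κ, hκ⟩ := vs_lin hp hp2 hζ X hX
  obtain ⟨κ₀, hκ₀⟩ : ∃ κ₀ : Fin D.r → ZMod p, κ₀ = fun a => ∑ j, dt (X.η j) y * κ j a :=
    ⟨_, rfl⟩
  have hlin : ∀ v, v ∉ D.S0 → ∑ j, dt (X.η j) y * kk p ζ (D.pi v) (X.σ j) = dt κ₀ (D.q v) := by
    intro v hv
    have h3 : dt κ₀ (D.q v) = ∑ j, dt (X.η j) y * dt (κ j) (D.q v) := by
      rw [hκ₀]
      unfold dt
      simp only [Finset.sum_mul, Finset.mul_sum]
      rw [Finset.sum_comm]
      refine Finset.sum_congr rfl fun j _ => Finset.sum_congr rfl fun a _ => ?_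
      refine Finset.sum_congr rfl fun a' _ => ?_
      ring
    rw [h3]
    exact Finset.sum_congr rfl fun j _ => by rw [hκ v hv j]
  by_cases h0 : κ₀ = 0
  · left
    intro b f hdj hG
    -- the unit
    obtain ⟨F, hF⟩ : ∃ F : Finset (Pl K), F = (finite_ord c).toFinset.filter (fun v => v ∉ D.S0) :=
      ⟨_, rfl⟩
    have hFm : ∀ v, v ∈ F ↔ ord v c ≠ 0 ∧ v ∉ D.S0 := by
      intro v
      rw [hF, Finset.mem_filter, Set.Finite.mem_toFinset]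
      rfl
    obtain ⟨u, hu⟩ : ∃ u : Kˣ, u = c * ∏ v ∈ F, D.pi v ^ (-ord v c) := ⟨_, rfl⟩
    have hut : TUnit D.S0 u := by
      intro v' hv'
      rw [hu, ord_mul, ord_prod]
      by_cases hvF : v' ∈ F
      · rw [Finset.sum_eq_single v']
        · rw [ord_zpow, D.pi_self v' hv', mul_one, add_neg_cancel]
        · intro v hv hvv
          rw [ord_zpow, D.pi_ne v v' ((hFm v).1 hv).2 hv' hvv.symm, mul_zero]
        · intro h
          exact absurd hvF h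
      · have h3 : ord v' c = 0 := by
          by_contra h
          exact hvF ((hFm v').2 ⟨h, hv'⟩)
        rw [h3, zero_add, Finset.sum_eq_zero]
        intro v hv
        have hvv : v' ≠ v := by
          rintro rfl
          exact hvF hv
        rw [ord_zpow, D.pi_ne v v' ((hFm v).1 hv).2 hv' hvv, mul_zero]
    refine gph_unit hp hp2 hζ hz Q Fr Dg hE b φ₁ h₁ X hX hr y u hut ?_ f hdj hG
    have h3 : ∀ j, kk p ζ u (X.σ j) = kk p ζ c (X.σ j) +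
        ∑ v ∈ F, ((-ord v c : ℤ) : ZMod p) * kk p ζ (D.pi v) (X.σ j) := by
      intro j
      rw [hu, kk_mul_arg hp hζ, kk_prod_arg hp hζ]
      congr 1
      exact Finset.sum_congr rfl fun v _ => kk_zpow_arg hp hζ _ _ _
    have h4 : ∑ j, dt (X.η j) y * kk p ζ u (X.σ j) = ∑ j, dt (X.η j) y * kk p ζ c (X.σ j) := by
      simp only [h3, mul_add, Finset.sum_add_distrib]
      have h5 : ∑ j, dt (X.η j) y *
          ∑ v ∈ F, ((-ord v c : ℤ) : ZMod p) * kk p ζ (D.pi v) (X.σ j) = 0 := by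
        simp only [Finset.mul_sum]
        rw [Finset.sum_comm]
        refine Finset.sum_eq_zero fun v hv => ?_
        have h6 : ∀ j, dt (X.η j) y * (((-ord v c : ℤ) : ZMod p) * kk p ζ (D.pi v) (X.σ j)) =
            ((-ord v c : ℤ) : ZMod p) * (dt (X.η j) y * kk p ζ (D.pi v) (X.σ j)) :=
          fun j => by ring
        simp only [h6]
        rw [← Finset.mul_sum, hlin v ((hFm v).1 hv).2, h0]
        unfold dt
        simp
      rw [h5, add_zero]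
    rw [h4]
    exact hyc
  · right
    have hy0 : y ≠ 0 := by
      rintro rfl
      apply hyc
      refine Finset.sum_eq_zero fun j _ => ?_
      unfold dt
      simp
    obtain ⟨i₀, hi, hy⟩ := hW y hy0
    refine ⟨i₀, κ₀, hi, h0, fun b f hdj hG => ?_⟩
    rw [(gph_upd hp hp2 hζ hz Q Fr Dg hE b φ₁ h₁ X hX hr i₀ hi f hdj hG).1, mul_comm]
    congr 1
    congr 1
    have h3 : (fun c => Dg.cw c (Dg.g i₀)) = y := funext hy
    rw [h3]
    have h4 : ∀ v ∈ f i₀, ∑ j, dt (X.η j) y * kk p ζ (D.pi v) (X.σ j) = dt κ₀ (D.q v) :=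
      fun v hv => hlin v (hG i₀ v hv).1
    rw [Finset.sum_congr rfl h4]
    unfold dt qf
    rw [Finset.sum_comm]
    refine Finset.sum_congr rfl fun a _ => ?_
    rw [Finset.sum_apply, Finset.mul_sum]

end H57.D2
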