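import Pool.Agent.H57.LOW.Lod
import Pool.Agent.H57.D2.Coc

/-!
# H57-D2-LOD: the file H57/LOW/Lod with the condition `G2e` instead of `p ≠ 2`
-/

set_option autoImplicit false

open scoped NumberField
open IsDedekindDomain
open scoped Classical

noncomputable section

namespace H57.D2

open H57.LOW H57.PC H57.BRA H63.MA H38.BB H38.BG

variable {K : Type} [Field K] [NumberField K] {p : ℕ} {ζ : K} {Ω : Type}
  [Field Ω] [Algebra K Ω] [IsAlgClosure K Ω] {m l w N : ℕ} {P R : Type} [Group P] [Group R]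

theorem lo_phase [NeZero p] [Finite P] (hp : p.Prime) (hζ : IsPrimitiveRoot ζ p)
    (hz : Z2 p K) {D : RD0 K p ζ} {L : LDs D Ω} (Dg : GP p m l w N P R) (hE : G2e Dg) (Fr : FR L)
    (ψ : Fin N → Fin l → ZMod p) (hψ : InJ0 Dg ψ) :
    ∃ θ : Fin N → Fin m → ZMod p, (∀ i, dt (θ i) (Dg.s i) = 0) ∧ (ψ = 0 → θ = 0) ∧
      ∀ f : Fin N → Finset (Pl K), Dj f → (∀ i, ∀ v ∈ f i, D.Gd v) → (∀ i, qf D (f i) = 0) →
      ∀ ρ ∈ RH L Dg (fun _ => 1) ∅ (fun _ _ => 1) f,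
      (∀ i, ∀ v ∈ f i, cq Dg Fr ρ v ∈ Dg.Bi i) →
      ∑ i, ∑ v ∈ f i, xi Dg (ψ i) i (cq Dg Fr ρ v) =
        ∑ i, ∑ v ∈ f i, dt (θ i) (fun k => D.LL v (akR D Dg.cr (fun _ => 1) f k)) := by
  have hR : Finite R := Finite.of_surjective Dg.q Dg.qs
  by_cases h0 : ψ = 0
  · refine ⟨0, fun i => by simp [dt], fun _ => rfl, ?_⟩
    intro f _ _ _ ρ _ _
    refine Finset.sum_congr rfl fun i _ => Finset.sum_congr rfl fun v _ => ?_
    rw [h0]
    unfold xi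
    split_ifs <;> simp [dt]
  obtain ⟨Ψ, hΨ, hJ⟩ := psi_lin hp Dg ψ hψ
  obtain ⟨e, he, hev, hiv⟩ := ep_ex hp Dg Ψ hJ (g2e_A hE hψ hΨ)
  choose θ hθ0 hθ using fun i => lob_theta hp Dg hψ hΨ he hiv i
  refine ⟨θ, hθ0, fun h => absurd h h0, ?_⟩
  intro f hdj hg hq ρ hρ hcq
  have hloc : ∀ i, ∀ v ∈ f i, xi Dg (ψ i) i (cq Dg Fr ρ v) =
      iv e (ρ (Fr.F v)) (ρ (L.t v)) +
        dt (θ i) (fun k => D.LL v (akR D Dg.cr (fun _ => 1) f k)) := by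
    intro i v hv
    obtain ⟨h1, h2, h3⟩ := rh_F Dg Fr hg hρ hv
    have h4 := lob_loc hp Dg hψ hΨ he hiv i (hθ i) h1 h2 (hcq i v hv)
    rw [h3] at h4
    exact h4
  have hS : ∀ i, ∀ v ∈ f i, v ∉ D.S0 := fun i v hv => (hg i v hv).1
  obtain ⟨hr1, hr2, hr3, hr4, hr5⟩ := hρ
  have hk : Kl (pb e ρ) (Zk p ζ fun k => akR D Dg.cr (fun _ => 1) f k) := by
    have hπ : ∀ σ ∈ Zk p ζ (fun k => akR D Dg.cr (fun _ => 1) f k), Dg.π (ρ σ) = 1 := by
      intro σ hσ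
      apply Multiplicative.toAdd.injective
      rw [toAdd_one]
      funext k
      rw [← hr2 σ k]
      exact hσ k
    refine ⟨fun _ => 0, ⟨⊥, inferInstance, fun _ _ _ => rfl⟩, ?_⟩
    intro σ hσ τ hτ
    change (0 : ZMod p) = 0 + 0 + e (ρ σ) (ρ τ)
    rw [hev _ _ (hπ σ hσ) (hπ τ hτ), add_zero, add_zero]
  have hiv0 : ∑ v ∈ Finset.univ.biUnion f, iv e (ρ (Fr.F v)) (ρ (L.t v)) = 0 := by
    refine br2 hp (mone_z2 hp hz) hζ hz Fr he hr1 _ (fun k => ak_ps hp D Dg.cr f hg hq k) hk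
      ?_ _ ?_ ?_ ?_
    · intro v hv τ hτ
      by_cases h : ∃ i, v ∈ f i
      · obtain ⟨i, hi⟩ := h
        exact (hr3 i v hi).2 τ hτ
      · rw [hr5 v hv (Finset.notMem_empty v) (fun i hi => h ⟨i, hi⟩) τ hτ, one_pow]
    · intro v hv
      obtain ⟨i, -, hi⟩ := Finset.mem_biUnion.1 hv
      exact hS i v hi
    · intro v hv hvT
      refine hr5 v hv (Finset.notMem_empty v)
        (fun i hi => hvT (Finset.mem_biUnion.2 ⟨i, Finset.mem_univ i, hi⟩)) _ ?_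
      rw [inr, dif_pos hv, LDs.t, dif_pos hv]
      exact (L.ld v hv).ht
    · intro v hv hnp
      obtain ⟨i, -, hi⟩ := Finset.mem_biUnion.1 hv
      exact absurd (hg i v hi).2 hnp
  rw [Finset.sum_biUnion (by
    intro i _ j _ hij
    exact hdj i j hij)] at hiv0
  rw [Finset.sum_congr rfl fun i _ => Finset.sum_congr rfl fun v hv => hloc i v hv]
  simp only [Finset.sum_add_distrib]
  rw [hiv0, zero_add]

end H57.D2
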