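import Pool.Agent.H57.LOW.Loe
import Pool.Agent.H57.D2.Lod

/-!
# H57-D2-LOE: the file H57/LOW/Loe with the condition `G2e` instead of `p ≠ 2`
-/

set_option autoImplicit false

open scoped NumberField
open IsDedekindDomain
open scoped Classical

noncomputable section

namespace H57.D2

open H57.LOW H57.PC H57.BRA H63.MA H38.BB H38.BG

variable {K : Type} [Field K] [NumberField K] {p : ℕ} {ζ : K} {Ω : Type}
  [Field Ω] [Algebra K Ω] [IsAlgClosure K Ω] {m l w N : ℕ} {P R : Type} [Group P] [Group R]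

theorem awf_eq [NeZero p] [Finite P] (hp : p.Prime) (hζ : IsPrimitiveRoot ζ p)
    (hz : Z2 p K) {D : RD0 K p ζ} {L : LDs D Ω} (Dg : GP p m l w N P R) (hE : G2e Dg) (Fr : FR L) {h : ℕ}
    (hR : RCard L Dg h) (ψ : Fin N → Fin l → ZMod p) (hψ : InJ0 Dg ψ) :
    ∃ θ : Fin N → Fin m → ZMod p, (∀ i, dt (θ i) (Dg.s i) = 0) ∧ (ψ = 0 → θ = 0) ∧
      ∀ Y : ℝ, ∀ f ∈ Fam0 D N Y, AWf Dg Fr (fun _ => 1) ∅ (fun _ _ => 1) ψ f =
        h * ((wtR Dg.cr f (fun v k => D.LL v (akR D Dg.cr (fun _ => 1) f k)) : ℝ) : ℂ) *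
          ep p (∑ i, ∑ v ∈ f i, dt (θ i) (fun k => D.LL v (akR D Dg.cr (fun _ => 1) f k))) := by
  have : Finite R := Finite.of_surjective _ Dg.qs
  obtain ⟨θ, hθ1, hθ2, hθ3⟩ := lo_phase hp hζ hz (D := D) (L := L) Dg hE Fr ψ hψ
  refine ⟨θ, hθ1, hθ2, fun Y f hf => ?_⟩
  unfold Fam0 at hf
  rw [Finset.mem_filter, Fintype.mem_piFinset] at hf
  obtain ⟨hf1, hDj, -, hq⟩ := hf
  have hg : ∀ i, ∀ v ∈ f i, D.Gd v := fun i => (atupa_mem_GF.1 (hf1 i)).2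
  obtain ⟨F, hF⟩ : ∃ F : Pl K → Fin m → ZMod p,
      F = fun v k => D.LL v (akR D Dg.cr (fun _ => 1) f k) := ⟨_, rfl⟩
  have hrF : ∀ ρ ∈ RHf L Dg (fun _ => (1 : Kˣ)) ∅ (fun _ _ => (1 : R)) f, ∀ i, ∀ v ∈ f i,
      (cq Dg Fr ρ v ∈ Dg.Bi i ↔ F v ∈ Dg.C i) := by
    intro ρ hρ i v hv
    obtain ⟨h1, h2, h3⟩ := rh_F Dg Fr hg (loe_mem hρ) hv
    rw [hF]
    change _ ↔ (fun k => D.LL v (akR D Dg.cr (fun _ => 1) f k)) ∈ Dg.C i
    rw [← h3]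
    exact lob_mem hp Dg i h1 h2
  have hFv : ∀ v, (fun k => D.LL v (akR D Dg.cr (fun _ => 1) f k)) = F v := fun v => by rw [hF]
  have hFv' : (fun v k => D.LL v (akR D Dg.cr (fun _ => 1) f k)) = F := by rw [hF]
  rw [hFv', loe_wt hp]
  by_cases hC : ∀ i, ∀ v ∈ f i, F v ∈ Dg.C i
  · rw [if_pos hC]
    have hkV : ∀ i, ∀ v ∈ f i,
        Dg.kV (fun k => D.LL v (akR D Dg.cr (fun _ => 1) f k)) (Dg.s i) = 0 := by
      intro i v hv
      rw [hFv]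
      exact lob_kv Dg i (hC i v hv)
    have hcard := (hR.2 f hDj hg hq).1 hkV
    have hterm : ∀ ρ ∈ RHf L Dg (fun _ => (1 : Kˣ)) ∅ (fun _ _ => (1 : R)) f,
        (if ∀ i, ∀ v ∈ f i, cq Dg Fr ρ v ∈ Dg.Bi i then
          ((∏ i, ((Dg.Wn i : ℝ) / Nat.card (Dg.Bi i)) ^ (f i).card : ℝ) : ℂ) *
            ep p (∑ i, ∑ v ∈ f i, xi Dg (ψ i) i (cq Dg Fr ρ v)) else 0) =
        ((∏ i, ((Dg.Wn i : ℝ) / Nat.card (Dg.Bi i)) ^ (f i).card : ℝ) : ℂ) *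
          ep p (∑ i, ∑ v ∈ f i, dt (θ i) (F v)) := by
      intro ρ hρ
      have h1 : ∀ i, ∀ v ∈ f i, cq Dg Fr ρ v ∈ Dg.Bi i :=
        fun i v hv => (hrF ρ hρ i v hv).2 (hC i v hv)
      rw [if_pos h1, hθ3 f hDj hg hq ρ (loe_mem hρ) h1]
      simp only [hFv]
    unfold AWf
    rw [Finset.sum_congr rfl hterm, Finset.sum_const, hcard, nsmul_eq_mul, ← mul_assoc]
    simp only [hFv]
    congr 1
    have hB : ∀ i, (Nat.card (Dg.Bi i) : ℝ) ≠ 0 := by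
      intro i
      have : Nat.card (Dg.Bi i) ≠ 0 := Nat.card_pos.ne'
      exact_mod_cast this
    have hw : ∀ i, (Nat.card {r : R // IsConj r (Dg.q (Dg.g i))} : ℝ) *
        ((Dg.Wn i : ℝ) / Nat.card (Dg.Bi i)) = (Nat.card (ann0 (Dg.C i)) : ℝ) := by
      intro i
      have h1 := wn_card hp Dg i
      have h2 : (Nat.card {r : R // IsConj r (Dg.q (Dg.g i))} : ℝ) * (Dg.Wn i : ℝ) =
          (Nat.card (Dg.Bi i) : ℝ) * (Nat.card (ann0 (Dg.C i)) : ℝ) := by exact_mod_cast h1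
      rw [← mul_div_assoc, h2, mul_div_cancel_left₀ _ (hB i)]
    have hreal : ((h * ∏ i, Nat.card {r : R // IsConj r (Dg.q (Dg.g i))} ^ (f i).card : ℕ) : ℝ) *
        (∏ i, ((Dg.Wn i : ℝ) / Nat.card (Dg.Bi i)) ^ (f i).card) =
        (h : ℝ) * ∏ i, (Nat.card (ann0 (Dg.C i)) : ℝ) ^ (f i).card := by
      rw [Nat.cast_mul, Nat.cast_prod, mul_assoc, ← Finset.prod_mul_distrib]
      congr 1
      refine Finset.prod_congr rfl fun i _ => ?_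
      rw [Nat.cast_pow, ← mul_pow, hw]
    exact_mod_cast congrArg (fun x : ℝ => (x : ℂ)) hreal
  · rw [if_neg hC]
    unfold AWf
    rw [Complex.ofReal_zero, mul_zero, zero_mul]
    refine Finset.sum_eq_zero fun ρ hρ => ?_
    rw [if_neg]
    intro h1
    exact hC fun i v hv => (hrF ρ hρ i v hv).1 (h1 i v hv)

end H57.D2
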