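import Pool.Agent.H57.LOW.Loh
import Pool.Agent.H57.D2.Log

/-!
# H57-D2-LOH: the file H57/LOW/Loh with the condition `G2e` instead of `p ≠ 2`
-/

set_option autoImplicit false

open scoped NumberField
open IsDedekindDomain
open scoped Classical

noncomputable section

namespace H57.D2

open H57.LOW H57.PC H57.BRA H63.MA H38.BB H38.BG H51.CUB

variable {K : Type} [Field K] [NumberField K] {p : ℕ} {ζ : K} {Ω : Type}
  [Field Ω] [Algebra K Ω] {m l w N : ℕ} {P R : Type} [Group P] [Group R]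

/-- one family of characters -/
theorem loh_one [NeZero p] [Finite P] [IsAlgClosure K Ω] (hp : p.Prime)
    (hζ : IsPrimitiveRoot ζ p) (hz : Z2 p K) {D : RD K p ζ} {L : LDs D.toRD0 Ω}
    (Dg : GP p m l w N P R) (hE : G2e Dg) (Fr : FR L) (hN : 1 ≤ N) {h : ℕ} (hR : RCard L Dg h)
    (ψ : Fin N → Fin l → ZMod p) (hψ : InJ0 Dg ψ) :
    ∃ (n : ℕ) (C X₀ : ℝ), (ψ = 0 → 1 ≤ n) ∧ 0 < C ∧ 3 ≤ X₀ ∧ ∀ Y t : ℝ, X₀ ≤ Y →
      h * (n * ((Fam0 D.toRD0 N Y).card : ℝ)) -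
          h * (C * Y * Real.log Y ^ (N - 1) * Real.log Y ^ (-(1 / 2) : ℝ)) -
          h * (∑ f ∈ (Fam0 D.toRD0 N Y).filter
              (fun f => SpR Dg.cr (fun _ => (1 : Kˣ)) f ∧ ¬ Big t f),
            wtR Dg.cr f (fun v k => D.LL v (akR D.toRD0 Dg.cr (fun _ => 1) f k))) ≤
        (∑ f ∈ (Fam0 D.toRD0 N Y).filter (fun f => Big t f),
          AWf Dg Fr (fun _ => 1) ∅ (fun _ _ => 1) ψ f).re := by
  obtain ⟨θ, hθ, hθ0, hA⟩ := awf_eq hp hζ hz Dg hE Fr hR ψ hψ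
  obtain ⟨n, C, X₀, hn, hC, hX, hT⟩ := twsw hp (mone_z2 hp hz) hζ D Dg.cr hN
    (fun δ hδ => log_dt_zero Dg fun i => hδ i) θ hθ
  refine ⟨n, C, X₀, fun h0 => hn (hθ0 h0), hC, hX, fun Y t hY => ?_⟩
  have hT1 := hT Y hY
  set Fa := Fam0 D.toRD0 N Y with hFa
  set W : (Fin N → Finset (Pl K)) → ℝ := fun f =>
    wtR Dg.cr f (fun v k => D.LL v (akR D.toRD0 Dg.cr (fun _ => 1) f k)) with hW
  set A : (Fin N → Finset (Pl K)) → ℂ := fun f =>
    AWf Dg Fr (fun _ => 1) ∅ (fun _ _ => 1) ψ f with hAd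
  set e : (Fin N → Finset (Pl K)) → ℂ := fun f =>
    ep p (∑ i, ∑ v ∈ f i, dt (θ i) (fun k => D.LL v (akR D.toRD0 Dg.cr (fun _ => 1) f k)))
    with he
  have hA1 : ∀ f ∈ Fa, A f = h * (((W f : ℝ) : ℂ) * e f) := by
    intro f hf
    have h1 := hA Y f hf
    simp only [hAd, hW, he]
    rw [h1]
    ring
  have hW0 : ∀ f, 0 ≤ W f := fun f => lb_wt_nonneg _ _ _
  -- the sum over the spanning families
  have hS : ∑ f ∈ Fa.filter (fun f => SpR Dg.cr (fun _ => (1 : Kˣ)) f), A f =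
      h * ∑ f ∈ Fa, if SpR Dg.cr (fun _ => (1 : Kˣ)) f then ((W f : ℝ) : ℂ) * e f else 0 := by
    rw [Finset.sum_filter, Finset.mul_sum]
    refine Finset.sum_congr rfl fun f hf => ?_
    rw [mul_ite, mul_zero, hA1 f hf]
  have hsplit : ∑ f ∈ Fa.filter (fun f => SpR Dg.cr (fun _ => (1 : Kˣ)) f), A f =
      ∑ f ∈ Fa.filter (fun f => Big t f), A f +
      ∑ f ∈ Fa.filter (fun f => SpR Dg.cr (fun _ => (1 : Kˣ)) f ∧ ¬ Big t f), A f := by
    rw [← Finset.sum_filter_add_sum_filter_not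
      (Fa.filter (fun f => SpR Dg.cr (fun _ => (1 : Kˣ)) f)) (fun f => Big t f) A]
    congr 1
    · rw [Finset.filter_filter]
      refine Finset.sum_congr ?_ fun _ _ => rfl
      ext f
      simp only [Finset.mem_filter]
      constructor
      · rintro ⟨h1, _, h3⟩
        exact ⟨h1, h3⟩
      · rintro ⟨h1, h3⟩
        exact ⟨h1, log_big Dg _ h3, h3⟩
    · rw [Finset.filter_filter]
  have hlow : ‖∑ f ∈ Fa.filter
      (fun f => SpR Dg.cr (fun _ => (1 : Kˣ)) f ∧ ¬ Big t f), A f‖ ≤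
      h * ∑ f ∈ Fa.filter (fun f => SpR Dg.cr (fun _ => (1 : Kˣ)) f ∧ ¬ Big t f), W f := by
    refine (norm_sum_le _ _).trans ?_
    rw [Finset.mul_sum]
    refine Finset.sum_le_sum fun f hf => ?_
    rw [hA1 f (Finset.mem_filter.1 hf).1, norm_mul, norm_mul, Complex.norm_natCast,
      Complex.norm_real, Real.norm_of_nonneg (hW0 f)]
    simp only [he]
    rw [ep_norm, mul_one]
  set Z : ℂ := ∑ f ∈ Fa, if SpR Dg.cr (fun _ => (1 : Kˣ)) f then ((W f : ℝ) : ℂ) * e f else 0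
    with hZ
  have hZre : n * (Fa.card : ℝ) - C * Y * Real.log Y ^ (N - 1) * Real.log Y ^ (-(1 / 2) : ℝ) ≤
      Z.re := by
    have h1 : |(Z - n * (Fa.card : ℂ)).re| ≤ ‖Z - n * (Fa.card : ℂ)‖ := Complex.abs_re_le_norm _
    have h2 := h1.trans hT1
    have h3 : (Z - n * (Fa.card : ℂ)).re = Z.re - n * (Fa.card : ℝ) := by
      rw [Complex.sub_re]
      congr 1
      have : ((n : ℂ) * (Fa.card : ℂ)) = (((n : ℝ) * (Fa.card : ℝ) : ℝ) : ℂ) := by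
        push_cast
        rfl
      rw [this, Complex.ofReal_re]
    rw [h3, abs_le] at h2
    linarith [h2.1]
  have hB : (∑ f ∈ Fa.filter (fun f => Big t f), A f).re = h * Z.re -
      (∑ f ∈ Fa.filter (fun f => SpR Dg.cr (fun _ => (1 : Kˣ)) f ∧ ¬ Big t f), A f).re := by
    have h1 := congrArg Complex.re hsplit
    rw [hS, Complex.add_re] at h1
    have h2 : ((h : ℂ) * Z).re = h * Z.re := by
      rw [Complex.mul_re, Complex.natCast_re, Complex.natCast_im, zero_mul, sub_zero]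
    rw [h2] at h1
    linarith
  rw [hB]
  have h1 := (Complex.abs_re_le_norm (∑ f ∈ Fa.filter
    (fun f => SpR Dg.cr (fun _ => (1 : Kˣ)) f ∧ ¬ Big t f), A f)).trans hlow
  rw [abs_le] at h1
  have hh : (0 : ℝ) ≤ h := Nat.cast_nonneg h
  have h2 := mul_le_mul_of_nonneg_left hZre hh
  have h3 := h1.2
  linarith

theorem lb0_ofs [NeZero p] [Finite P] [IsAlgClosure K Ω] (hp : p.Prime)
    (hζ : IsPrimitiveRoot ζ p) (hz : Z2 p K) {D : RD K p ζ} {L : LDs D.toRD0 Ω}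
    (Dg : GP p m l w N P R) (hE : G2e Dg) (Fr : FR L) (hN : 1 ≤ N) {h : ℕ} (hR : RCard L Dg h) (T : ℝ → ℝ)
    (hT : ∀ x y, 3 ≤ x → x ≤ y → T x ≤ T y)
    (h1 : MIdS Dg Fr T) (h2 : MLow D.toRD0 Dg.cr T) : LB0 Dg Fr := by
  have hZ : InJ0 Dg (0 : Fin N → Fin l → ZMod p) := by
    refine ⟨fun i v _ => by simp [dt], fun i j k => by simp [dt]⟩
  have h0J : (0 : Fin N → Fin l → ZMod p) ∈ J0 Dg :=
    Finset.mem_filter.2 ⟨Finset.mem_univ _, hZ⟩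
  have h3 : ∀ ψ : Fin N → Fin l → ZMod p, ∃ (n : ℕ) (C X₀ : ℝ), InJ0 Dg ψ →
      ((ψ = 0 → 1 ≤ n) ∧ 0 < C ∧ 3 ≤ X₀ ∧ ∀ Y t : ℝ, X₀ ≤ Y →
      h * (n * ((Fam0 D.toRD0 N Y).card : ℝ)) -
          h * (C * Y * Real.log Y ^ (N - 1) * Real.log Y ^ (-(1 / 2) : ℝ)) -
          h * (∑ f ∈ (Fam0 D.toRD0 N Y).filter
              (fun f => SpR Dg.cr (fun _ => (1 : Kˣ)) f ∧ ¬ Big t f),
            wtR Dg.cr f (fun v k => D.LL v (akR D.toRD0 Dg.cr (fun _ => 1) f k))) ≤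
        (∑ f ∈ (Fam0 D.toRD0 N Y).filter (fun f => Big t f),
          AWf Dg Fr (fun _ => 1) ∅ (fun _ _ => 1) ψ f).re) := by
    intro ψ
    by_cases hψ : InJ0 Dg ψ
    · obtain ⟨n, C, X₀, H⟩ := loh_one hp hζ hz Dg hE Fr hN hR ψ hψ
      exact ⟨n, C, X₀, fun _ => H⟩
    · exact ⟨0, 0, 0, fun h' => absurd h' hψ⟩
  choose n C X hP using h3
  have hPJ : ∀ ψ ∈ J0 Dg, InJ0 Dg ψ := fun ψ hψ => (Finset.mem_filter.1 hψ).2
  obtain ⟨c0, X0, hc0, hX0, hfam⟩ := fam0_lower hp (mone_z2 hp hz) hζ D hN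
  set j : ℝ := ((J0 Dg).card : ℝ) with hj
  have hj0 : 0 ≤ j := Nat.cast_nonneg _
  obtain ⟨P2, hP2⟩ : ∃ P2 : ℝ, P2 = 2 ^ N := ⟨_, rfl⟩
  have hP2p : 0 < P2 := by rw [hP2]; positivity
  have hP21 : 1 ≤ P2 := by rw [hP2]; exact one_le_pow₀ (by norm_num)
  set ε : ℝ := c0 / (4 * P2 * (j + 1)) with hε
  have hε0 : 0 < ε := by positivity
  obtain ⟨X1, hX1, hM1⟩ := h1 ε hε0
  obtain ⟨X2, hX2, hM2⟩ := h2 ε hε0
  set Ct : ℝ := ∑ ψ ∈ J0 Dg, C ψ with hCt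
  have ht : Filter.Tendsto (fun Y : ℝ => Ct * P2 * Real.log Y ^ (-(1 / 2) : ℝ)) Filter.atTop
      (nhds (Ct * P2 * 0)) :=
    ((tendsto_rpow_neg_atTop (by norm_num : (0 : ℝ) < 1 / 2)).comp
      Real.tendsto_log_atTop).const_mul (Ct * P2)
  rw [mul_zero] at ht
  have hev := ht.eventually (gt_mem_nhds (by positivity : (0 : ℝ) < c0 / 4))
  obtain ⟨X3, hX3⟩ := Filter.eventually_atTop.1 hev
  set Xs : ℝ := ∑ ψ ∈ J0 Dg, X ψ with hXs
  have hXψ : ∀ ψ ∈ J0 Dg, X ψ ≤ Xs := by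
    intro ψ hψ
    exact Finset.single_le_sum (f := X)
      (fun χ hχ => le_trans (by norm_num) (hP χ (hPJ χ hχ)).2.2.1) hψ
  obtain ⟨XM, hXM⟩ : ∃ XM : ℝ, XM = max (max X0 X1) (max X2 (max X3 Xs)) := ⟨_, rfl⟩
  have hXM3 : 3 ≤ XM := by
    rw [hXM]
    exact hX0.trans ((le_max_left _ _).trans (le_max_left _ _))
  refine ⟨c0 / 2 * (1 / 4 * (1 / 2) ^ (N - 1)), max 16 (4 * XM), by positivity, ?_,
    fun Y' hY' => ?_⟩
  · exact le_trans (by norm_num) (le_max_left _ _)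
  have hY16 : 16 ≤ Y' := (le_max_left _ _).trans hY'
  have hYM : 4 * XM ≤ Y' := (le_max_right _ _).trans hY'
  obtain ⟨n₀, hn₀⟩ : ∃ n₀ : ℕ, n₀ = ⌊Y' / 2⌋₊ := ⟨_, rfl⟩
  have hnle : (n₀ : ℝ) ≤ Y' / 2 := by
    rw [hn₀]
    exact Nat.floor_le (by linarith)
  have hnlt : Y' / 2 < (n₀ : ℝ) + 1 := by
    rw [hn₀]
    exact Nat.lt_floor_add_one _
  have hn4 : Y' / 4 ≤ (n₀ : ℝ) := by linarith
  obtain ⟨Y, hYn⟩ : ∃ Y : ℝ, Y = (n₀ : ℝ) := ⟨_, rfl⟩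
  have hYX : XM ≤ Y := by rw [hYn]; linarith
  have hY4 : 4 ≤ Y := by rw [hYn]; linarith
  rw [hXM] at hYX
  have hY0 : X0 ≤ Y := ((le_max_left _ _).trans (le_max_left _ _)).trans hYX
  have hY1 : X1 ≤ Y := ((le_max_right _ _).trans (le_max_left _ _)).trans hYX
  have hY2 : X2 ≤ Y := ((le_max_left _ _).trans (le_max_right _ _)).trans hYX
  have hY3 : X3 ≤ Y :=
    ((le_max_left _ _).trans ((le_max_right _ _).trans (le_max_right _ _))).trans hYX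
  have hYs : Xs ≤ Y :=
    ((le_max_right _ _).trans ((le_max_right _ _).trans (le_max_right _ _))).trans hYX
  have hY3' : 3 ≤ Y := by linarith
  have hn1 : 1 ≤ n₀ := by
    have : (1 : ℝ) ≤ (n₀ : ℝ) := by rw [← hYn]; linarith
    exact_mod_cast this
  have hlog : 0 < Real.log Y := Real.log_pos (by linarith)
  set M : ℝ := Y * Real.log Y ^ (N - 1) with hM
  have hM0 : 0 ≤ M := mul_nonneg (by linarith) (pow_nonneg hlog.le _)
  set Fa := (Fam0 D.toRD0 N (2 * Y)).filter (fun f => Big (T Y) f) with hFa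
  obtain ⟨wf, hwf⟩ : ∃ wf : (Fin N → Finset (Pl K)) → ℝ,
    ∀ f, wf f = wl ((∏ i, nr (f i)) / Y) := ⟨_, fun _ => rfl⟩
  -- the lower bound by the families with large primes
  have hF : ∑ f ∈ Fa, wf f * FW Dg Fr (fun _ => 1) ∅ (fun _ _ => 1) f ≤ F0 Dg Fr Y' := by
    have hsub : Fa ⊆ (Fam0 D.toRD0 N Y').filter (fun f => SpR Dg.cr (fun _ => (1 : Kˣ)) f) := by
      intro f hf
      rw [hFa, Finset.mem_filter] at hf
      rw [Finset.mem_filter]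
      refine ⟨loh_sub D.toRD0 ?_ hf.1, log_big Dg _ hf.2⟩
      rw [hYn]
      linarith
    have hF0 : F0 Dg Fr Y' =
        ∑ f ∈ (Fam0 D.toRD0 N Y').filter (fun f => SpR Dg.cr (fun _ => (1 : Kˣ)) f),
          FW Dg Fr (fun _ => 1) ∅ (fun _ _ => 1) f := by
      unfold F0
      rw [Finset.sum_filter]
    rw [hF0]
    calc ∑ f ∈ Fa, wf f * FW Dg Fr (fun _ => 1) ∅ (fun _ _ => 1) f
        ≤ ∑ f ∈ Fa, FW Dg Fr (fun _ => 1) ∅ (fun _ _ => 1) f := by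
          refine Finset.sum_le_sum fun f _ => ?_
          rw [hwf]
          exact mul_le_of_le_one_left (log_fw_nonneg Dg Fr _ _ _ _) (loh_wl1 _)
      _ ≤ _ := Finset.sum_le_sum_of_subset_of_nonneg hsub
          fun f _ _ => log_fw_nonneg Dg Fr _ _ _ _
  have hmain := hM1 Y hY1
  set G : ℂ := ∑ f ∈ (Fam0 D.toRD0 N (2 * Y)).filter (fun f => Big (T Y) f),
      ((wl ((∏ i, nr (f i)) / Y) : ℝ) : ℂ) *
        (((FW Dg Fr (fun _ => 1) ∅ (fun _ _ => 1) f : ℝ) : ℂ) -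
          ∑ ψ ∈ J0 Dg, AWf Dg Fr (fun _ => 1) ∅ (fun _ _ => 1) ψ f) with hG
  obtain ⟨Aw, hAw⟩ : ∃ Aw : (Fin N → Fin l → ZMod p) → ℂ, ∀ ψ, Aw ψ =
      ∑ f ∈ Fa, ((wf f : ℝ) : ℂ) * AWf Dg Fr (fun _ => 1) ∅ (fun _ _ => 1) ψ f :=
    ⟨_, fun _ => rfl⟩
  have hGe : (∑ f ∈ Fa, wf f * FW Dg Fr (fun _ => 1) ∅ (fun _ _ => 1) f : ℝ) = G.re +
      ∑ ψ ∈ J0 Dg, (Aw ψ).re := by
    have e1 : G = ∑ f ∈ Fa, (((wf f * FW Dg Fr (fun _ => 1) ∅ (fun _ _ => 1) f : ℝ) : ℂ)) -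
        ∑ ψ ∈ J0 Dg, Aw ψ := by
      have e2 : ∑ ψ ∈ J0 Dg, Aw ψ = ∑ f ∈ Fa, ((wf f : ℝ) : ℂ) *
          ∑ ψ ∈ J0 Dg, AWf Dg Fr (fun _ => 1) ∅ (fun _ _ => 1) ψ f := by
        rw [Finset.sum_congr rfl fun ψ _ => hAw ψ, Finset.sum_comm]
        refine Finset.sum_congr rfl fun f _ => ?_
        rw [Finset.mul_sum]
      rw [e2, hG, ← Finset.sum_sub_distrib]
      refine Finset.sum_congr rfl fun f _ => ?_
      rw [← hwf f]
      push_cast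
      ring
    rw [e1, Complex.sub_re, ← Complex.ofReal_sum, Complex.ofReal_re, Complex.re_sum]
    ring
  have hGre : -(ε * M) ≤ G.re := by
    have h4 := (Complex.abs_re_le_norm G).trans hmain
    rw [abs_le] at h4
    have h5 : ε * Y * Real.log Y ^ (N - 1) = ε * M := by rw [hM]; ring
    rw [h5] at h4
    exact h4.1
  have hh : (1 : ℝ) ≤ h := by exact_mod_cast hR.1
  have hh0 : (0 : ℝ) ≤ h := by linarith
  obtain ⟨c1, hc1⟩ : ∃ c1 : ℝ, c1 = ((Fam0 D.toRD0 N Y).card : ℝ) := ⟨_, rfl⟩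
  obtain ⟨r, hr⟩ : ∃ r : ℝ, r = Real.log Y ^ (-(1 / 2) : ℝ) := ⟨_, rfl⟩
  have hr0 : 0 ≤ r := by rw [hr]; exact Real.rpow_nonneg hlog.le _
  -- one scale
  have hscale : ∀ ψ ∈ J0 Dg, ∀ k ∈ Finset.Ico n₀ (2 * n₀),
      h * ((n ψ : ℝ) * c1) - h * (C ψ * (P2 * M * r)) - h * (ε * (P2 * M)) ≤
      (∑ f ∈ (Fam0 D.toRD0 N (k : ℝ)).filter (fun f => Big (T Y) f),
        AWf Dg Fr (fun _ => 1) ∅ (fun _ _ => 1) ψ f).re := by
    intro ψ hψ k hk
    rw [Finset.mem_Ico] at hk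
    have hk1 : Y ≤ (k : ℝ) := by rw [hYn]; exact_mod_cast hk.1
    have hk2 : (k : ℝ) ≤ 2 * Y := by rw [hYn]; exact_mod_cast hk.2.le
    have hk3 : 3 ≤ (k : ℝ) := by linarith
    have hlk0 : 0 < Real.log (k : ℝ) := Real.log_pos (by linarith)
    have hlk1 : Real.log Y ≤ Real.log (k : ℝ) := Real.log_le_log (by linarith) hk1
    have hlk2 : Real.log (k : ℝ) ≤ 2 * Real.log Y := by
      have e1 : Real.log (k : ℝ) ≤ Real.log (Y * Y) := by
        apply Real.log_le_log (by linarith)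
        nlinarith
      rw [Real.log_mul (by linarith) (by linarith)] at e1
      linarith
    have hMk : (k : ℝ) * Real.log (k : ℝ) ^ (N - 1) ≤ P2 * M := by
      have e1 : Real.log (k : ℝ) ^ (N - 1) ≤ (2 * Real.log Y) ^ (N - 1) :=
        pow_le_pow_left₀ hlk0.le hlk2 _
      have e2 : P2 * M = (2 * Y) * (2 * Real.log Y) ^ (N - 1) := by
        rw [hP2, hM, mul_pow]
        obtain ⟨N', rfl⟩ : ∃ N', N = N' + 1 := ⟨N - 1, by omega⟩
        rw [Nat.add_sub_cancel, pow_succ]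
        ring
      rw [e2]
      exact mul_le_mul hk2 e1 (pow_nonneg hlk0.le _) (by linarith)
    have hrk : Real.log (k : ℝ) ^ (-(1 / 2) : ℝ) ≤ r := by
      rw [hr]
      exact Real.rpow_le_rpow_of_nonpos hlog hlk1 (by norm_num)
    have hrk0 : 0 ≤ Real.log (k : ℝ) ^ (-(1 / 2) : ℝ) := Real.rpow_nonneg hlk0.le _
    have hC0 : 0 < C ψ := (hP ψ (hPJ ψ hψ)).2.1
    have h4 := (hP ψ (hPJ ψ hψ)).2.2.2 (k : ℝ) (T Y) (((hXψ ψ hψ).trans hYs).trans hk1)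
    refine le_trans ?_ h4
    have g1 : h * ((n ψ : ℝ) * c1) ≤ h * ((n ψ : ℝ) * ((Fam0 D.toRD0 N (k : ℝ)).card : ℝ)) := by
      apply mul_le_mul_of_nonneg_left _ hh0
      apply mul_le_mul_of_nonneg_left _ (Nat.cast_nonneg _)
      rw [hc1]
      exact_mod_cast Finset.card_le_card (loh_sub D.toRD0 hk1)
    have g2 : h * (C ψ * (k : ℝ) * Real.log (k : ℝ) ^ (N - 1) *
        Real.log (k : ℝ) ^ (-(1 / 2) : ℝ)) ≤ h * (C ψ * (P2 * M * r)) := by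
      apply mul_le_mul_of_nonneg_left _ hh0
      have e1 : C ψ * (k : ℝ) * Real.log (k : ℝ) ^ (N - 1) * Real.log (k : ℝ) ^ (-(1 / 2) : ℝ) =
          C ψ * ((k : ℝ) * Real.log (k : ℝ) ^ (N - 1) * Real.log (k : ℝ) ^ (-(1 / 2) : ℝ)) := by
        ring
      rw [e1]
      apply mul_le_mul_of_nonneg_left _ hC0.le
      exact mul_le_mul hMk hrk hrk0 (by positivity)
    have g3 : h * (∑ f ∈ (Fam0 D.toRD0 N (k : ℝ)).filter
              (fun f => SpR Dg.cr (fun _ => (1 : Kˣ)) f ∧ ¬ Big (T Y) f),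
            wtR Dg.cr f (fun v k => D.LL v (akR D.toRD0 Dg.cr (fun _ => 1) f k))) ≤
        h * (ε * (P2 * M)) := by
      apply mul_le_mul_of_nonneg_left _ hh0
      have e1 : ∑ f ∈ (Fam0 D.toRD0 N (k : ℝ)).filter
              (fun f => SpR Dg.cr (fun _ => (1 : Kˣ)) f ∧ ¬ Big (T Y) f),
            wtR Dg.cr f (fun v k => D.LL v (akR D.toRD0 Dg.cr (fun _ => 1) f k)) ≤
          ∑ f ∈ (Fam0 D.toRD0 N (k : ℝ)).filter
              (fun f => SpR Dg.cr (fun _ => (1 : Kˣ)) f ∧ ¬ Big (T (k : ℝ)) f),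
            wtR Dg.cr f (fun v k => D.LL v (akR D.toRD0 Dg.cr (fun _ => 1) f k)) := by
        apply Finset.sum_le_sum_of_subset_of_nonneg
        · intro f hf
          rw [Finset.mem_filter] at hf ⊢
          refine ⟨hf.1, hf.2.1, fun hb => hf.2.2 fun i => ?_⟩
          obtain ⟨v, hv1, hv2⟩ := hb i
          exact ⟨v, hv1, lt_of_le_of_lt (hT Y (k : ℝ) hY3' hk1) hv2⟩
        · intro f _ _
          exact lb_wt_nonneg _ _ _
      refine e1.trans ((hM2 (k : ℝ) (hY2.trans hk1)).trans ?_)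
      rw [mul_assoc]
      exact mul_le_mul_of_nonneg_left hMk hε0.le
    linarith
  have hψs : ∀ ψ ∈ J0 Dg, h * ((n ψ : ℝ) * c1) - h * (C ψ * (P2 * M * r)) -
      h * (ε * (P2 * M)) ≤ (Aw ψ).re := by
    intro ψ hψ
    have e1 : Aw ψ = ((1 / (n₀ : ℝ) : ℝ) : ℂ) * ∑ k ∈ Finset.Ico n₀ (2 * n₀),
        ∑ f ∈ (Fam0 D.toRD0 N (k : ℝ)).filter (fun f => Big (T Y) f),
          AWf Dg Fr (fun _ => 1) ∅ (fun _ _ => 1) ψ f := by
      rw [← loh_avg D.toRD0 n₀ hn1 (T Y), hAw, hFa, ← hYn]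
      refine Finset.sum_congr rfl fun f _ => ?_
      rw [hwf]
    rw [e1, Complex.re_ofReal_mul, Complex.re_sum]
    have e2 := Finset.sum_le_sum (hscale ψ hψ)
    rw [Finset.sum_const, Nat.card_Ico, nsmul_eq_mul] at e2
    have e3 : ((2 * n₀ - n₀ : ℕ) : ℝ) = (n₀ : ℝ) := by
      congr 1
      omega
    rw [e3] at e2
    have hnp : (0 : ℝ) < (n₀ : ℝ) := by rw [← hYn]; linarith
    have e4 := mul_le_mul_of_nonneg_left e2 (by positivity : (0 : ℝ) ≤ 1 / (n₀ : ℝ))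
    refine le_trans (le_of_eq ?_) e4
    field_simp
  have hsum := Finset.sum_le_sum hψs
  have hn0 : c1 ≤ ∑ ψ ∈ J0 Dg, (n ψ : ℝ) * c1 := by
    have hc10 : 0 ≤ c1 := by rw [hc1]; exact Nat.cast_nonneg _
    have h4 : (1 : ℝ) ≤ n 0 := by exact_mod_cast (hP 0 hZ).1 rfl
    have h5 : (n 0 : ℝ) * c1 ≤ ∑ ψ ∈ J0 Dg, (n ψ : ℝ) * c1 :=
      Finset.single_le_sum (f := fun ψ => (n ψ : ℝ) * c1)
        (fun ψ _ => mul_nonneg (Nat.cast_nonneg _) hc10) h0J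
    have h6 : c1 ≤ n 0 * c1 := le_mul_of_one_le_left hc10 h4
    exact h6.trans h5
  have hS1 : ∑ ψ ∈ J0 Dg, (h * ((n ψ : ℝ) * c1) - h * (C ψ * (P2 * M * r)) -
      h * (ε * (P2 * M))) =
      h * (∑ ψ ∈ J0 Dg, (n ψ : ℝ) * c1) - h * (Ct * (P2 * M * r)) - j * (h * (ε * (P2 * M))) := by
    rw [Finset.sum_sub_distrib, Finset.sum_sub_distrib, Finset.sum_const, nsmul_eq_mul,
      ← Finset.mul_sum, ← Finset.mul_sum, hCt, Finset.sum_mul]
  rw [hS1] at hsum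
  have hcard : c0 * M ≤ c1 := by
    have h4 := hfam Y hY0
    have h5 : c0 * Y * Real.log Y ^ (N - 1) = c0 * M := by rw [hM]; ring
    rw [h5, ← hc1] at h4
    exact h4
  have hC4 : Ct * P2 * r ≤ c0 / 4 := by
    rw [hr]
    exact (hX3 Y hY3).le
  have hCM : Ct * (P2 * M * r) ≤ c0 / 4 * M := by
    have h4 := mul_le_mul_of_nonneg_right hC4 hM0
    calc Ct * (P2 * M * r) = Ct * P2 * r * M := by ring
      _ ≤ c0 / 4 * M := h4
  have hεj : (j + 1) * (ε * P2) = c0 / 4 := by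
    rw [hε]
    field_simp
  -- combine
  have hfin : h * (c0 * M) - h * (c0 / 4 * M) - h * (c0 / 4 * M) ≤
      ∑ f ∈ Fa, wf f * FW Dg Fr (fun _ => 1) ∅ (fun _ _ => 1) f := by
    rw [hGe]
    have h4 : h * (c0 * M) ≤ h * (∑ ψ ∈ J0 Dg, (n ψ : ℝ) * c1) :=
      mul_le_mul_of_nonneg_left (hcard.trans hn0) hh0
    have h5 : h * (Ct * (P2 * M * r)) ≤ h * (c0 / 4 * M) :=
      mul_le_mul_of_nonneg_left hCM hh0
    have h6 : ε * M ≤ h * (ε * (P2 * M)) := by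
      have e1 : ε * M ≤ ε * (P2 * M) :=
        mul_le_mul_of_nonneg_left (le_mul_of_one_le_left hM0 hP21) hε0.le
      exact e1.trans (le_mul_of_one_le_left (by positivity) hh)
    have h7 : j * (h * (ε * (P2 * M))) + h * (ε * (P2 * M)) = h * (c0 / 4 * M) := by
      rw [← hεj]
      ring
    linarith
  have hfin2 : c0 / 2 * M ≤ h * (c0 * M) - h * (c0 / 4 * M) - h * (c0 / 4 * M) := by
    have h4 : h * (c0 * M) - h * (c0 / 4 * M) - h * (c0 / 4 * M) = h * (c0 / 2 * M) := by ring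
    rw [h4]
    exact le_mul_of_one_le_left (by positivity) hh
  have hMY : 1 / 4 * (1 / 2) ^ (N - 1) * (Y' * Real.log Y' ^ (N - 1)) ≤ M := by
    have hlY' : 0 ≤ Real.log Y' := Real.log_nonneg (by linarith)
    have e1 : 1 / 2 * Real.log Y' ≤ Real.log Y := by
      have e2 : Real.log Y' ≤ Real.log (Y * Y) := by
        apply Real.log_le_log (by linarith)
        have e3 : Y' / 4 ≤ Y := by rw [hYn]; exact hn4
        nlinarith
      rw [Real.log_mul (by linarith) (by linarith)] at e2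
      linarith
    have e4 : (1 / 2 * Real.log Y') ^ (N - 1) ≤ Real.log Y ^ (N - 1) :=
      pow_le_pow_left₀ (by positivity) e1 _
    have e5 : Y' / 4 ≤ Y := by rw [hYn]; exact hn4
    rw [hM]
    calc 1 / 4 * (1 / 2) ^ (N - 1) * (Y' * Real.log Y' ^ (N - 1)) =
        Y' / 4 * (1 / 2 * Real.log Y') ^ (N - 1) := by rw [mul_pow]; ring
      _ ≤ Y * Real.log Y ^ (N - 1) := mul_le_mul e5 e4 (by positivity) (by linarith)
  calc c0 / 2 * (1 / 4 * (1 / 2) ^ (N - 1)) * Y' * Real.log Y' ^ (N - 1) =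
      c0 / 2 * (1 / 4 * (1 / 2) ^ (N - 1) * (Y' * Real.log Y' ^ (N - 1))) := by ring
    _ ≤ c0 / 2 * M := mul_le_mul_of_nonneg_left hMY (by positivity)
    _ ≤ F0 Dg Fr Y' := hfin2.trans (hfin.trans hF)

end H57.D2
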