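import Pool.Agent.H57.D2.TwG
import Pool.Agent.H57.CC.Tch

/-!
# H57-D2-TCH: the file H57/CC/Tch with the condition `G2e` instead of `p ≠ 2`
-/

set_option autoImplicit false

open scoped NumberField
open IsDedekindDomain Filter Topology
open scoped Classical

noncomputable section

namespace H57.D2

open H57.CC H57.PC H57.LOW H63.MA H38.BB H38.BG H51.CUB H77.PT H77.PC3 H57.MP H57.BRA H89.BRG

variable {K : Type} [Field K] [NumberField K] {p : ℕ} {ζ : K} {Ω : Type} [Field Ω]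
  [Algebra K Ω] [IsAlgClosure K Ω] {m l w N k : ℕ} {P R : Type} [Group P] [Group R]

theorem tmo_rh [NeZero p] {D : RD0 K p ζ} {L : LDs D Ω} {Dg : GP p m l w N P R}
    {b : Fin m → Kˣ} {f : Fin N → Finset (Pl K)} {ρ : Gal(Ω/K) →* R}
    (hρ : ρ ∈ RH L Dg b ∅ (fun _ _ => 1) f) : Tmo L ρ := by
  obtain ⟨-, -, r2, -, r4⟩ := hρ
  intro v hv τ hτ
  by_cases h : ∃ i, v ∈ f i
  · obtain ⟨i, hi⟩ := h
    exact (r2 i v hi).2 τ hτ
  · rw [r4 v hv (Finset.notMem_empty v) (fun i hi => h ⟨i, hi⟩) τ hτ, one_pow]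

/-- the phase of a family of characters in `J0` is a phase of level one and of the virtual primes -/
theorem tch [NeZero p] [Finite P] [Finite R] (hp : p.Prime)
    (hζ : IsPrimitiveRoot ζ p) (hz : Z2 p K) (D : RD K p ζ) {L : LDs D.toRD0 Ω} (Q : DP K Ω)
    (Fr : FR L) (Dg : GP p m l w N P R) (hE : G2e Dg) (χ : Fin N → Fin l → ZMod p) (hχ : InJ0 Dg χ)
    (X : VP K Ω p l k R) (hX : X.Ok D.toRD0 Q) (ρ₁ : Gal(Ω/K) →* R) (h₁ : H38.ML.FT ρ₁) (ht₁ : Tmo L ρ₁)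
    (hr : ∀ j, X.r j = ρ₁ (X.σ j)) :
    ∃ (c : ℂ) (η₀ : Fin k → Fin l → ZMod p) (θ : Fin N → Fin m → ZMod p), ‖c‖ = 1 ∧
      (∀ i, dt (θ i) (Dg.s i) = 0) ∧
      ∀ (η : Fin k → Fin l → ZMod p) (b : Fin m → Kˣ), BS2 D.toRD0 b ∅ →
        ∀ f : Fin N → Finset (Pl K), Dj f → (∀ i, ∀ v ∈ f i, D.Gd v) →
          ∀ ρ ∈ RHf L Dg b ∅ (fun _ _ => 1) f, (∀ i, ∀ v ∈ f i, cq Dg Fr ρ v ∈ Dg.Bi i) →
            (X.wi η).ph Dg ρ * ep p (∑ i, ∑ v ∈ f i, xi Dg (χ i) i (cq Dg Fr ρ v)) =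
              c * (X.wi (η + η₀)).ph Dg ρ * ep p (thp D.toRD0 Dg.cr b θ f) := by
  have hp2 := mone_z2 hp hz
  obtain ⟨Ψ, hΨ, hJ⟩ := psi_lin hp Dg χ hχ
  obtain ⟨e, he, he0, hiv⟩ := ep_ex hp Dg Ψ hJ (g2e_A hE hχ hΨ)
  obtain ⟨lam, hlam, hone⟩ := exists_rec_one K hp hp2 hζ
  have hloc := fun i => lob_theta hp Dg hχ hΨ he hiv i
  choose θ hθ1 hθ3 using hloc
  obtain ⟨τ, η₀, hτ⟩ := twg hp hζ hz Q Fr Dg Ψ he he0 hiv hlam X hX ρ₁ h₁ ht₁
  refine ⟨ep p τ, η₀, θ, ep_norm p τ, hθ1, fun η b _ f hdj hGd ρ hρ hm => ?_⟩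
  obtain ⟨r0, r1, r2, -, r4⟩ := (mem_RHf' hp hζ).1 hρ
  have htm : Tmo L ρ := tmo_rh ((mem_RHf' hp hζ).1 hρ)
  by_cases hπ : ∀ j, Dg.π (ρ (X.σ j)) = Dg.π (X.r j)
  · have hvS : ∀ i, ∀ v ∈ f i, v ∉ D.toRD0.S0 := fun i v hv => (hGd i v hv).1
    -- the local evaluation
    have hl : ∀ i, ∀ v ∈ f i, xi Dg (χ i) i (cq Dg Fr ρ v) =
        iv e (ρ (Fr.F v)) (ρ (L.t v)) +
          dt (θ i) (fun k => D.toRD0.LL v (akR D.toRD0 Dg.cr b f k)) := by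
      intro i v hv
      have hc : ρ (Fr.F v) * ρ (L.t v) = ρ (L.t v) * ρ (Fr.F v) :=
        Fr.com v (hvS i v hv) R ρ r0 (htm v (hvS i v hv))
      have h3 := lob_loc hp Dg hχ hΨ he hiv i (hθ3 i) hc (r2 i v hv).1 (hm i v hv)
      have h4 : Multiplicative.toAdd (Dg.π (ρ (Fr.F v))) =
          fun k => D.toRD0.LL v (akR D.toRD0 Dg.cr b f k) := by
        funext k
        rw [← r1, Fr.kf v (hvS i v hv)]
      rw [h4] at h3
      exact h3
    have hsum : ∑ i, ∑ v ∈ f i, xi Dg (χ i) i (cq Dg Fr ρ v) =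
        (∑ i, ∑ v ∈ f i, iv e (ρ (Fr.F v)) (ρ (L.t v))) + thp D.toRD0 Dg.cr b θ f := by
      unfold thp
      rw [← Finset.sum_add_distrib]
      refine Finset.sum_congr rfl fun i _ => ?_
      rw [← Finset.sum_add_distrib]
      exact Finset.sum_congr rfl fun v hv => hl i v hv
    -- the global evaluation
    have hdl : ∑ i, ∑ v ∈ f i, iv e (ρ (Fr.F v)) (ρ (L.t v)) =
        τ + ∑ j, dt (η₀ j) (fun c => Dg.cv c (ρ (X.σ j) * (X.r j)⁻¹)) := by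
      have h3 := hτ ρ r0 htm fun j => by rw [hπ j, hr j]
      have h4 := dl_sum lam Fr he ρ (Finset.univ.biUnion f) (by
        intro v hv
        obtain ⟨i, -, hi⟩ := Finset.mem_biUnion.1 hv
        exact hvS i v hi) (by
        intro v hv hvT
        refine r4 v hv (Finset.notMem_empty v) (fun i hi =>
          hvT (Finset.mem_biUnion.2 ⟨i, Finset.mem_univ _, hi⟩)) _ ?_
        rw [inr, dif_pos hv, LDs.t, dif_pos hv]
        exact (L.ld v hv).ht)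
      rw [h4, Finset.sum_biUnion (fun i _ j _ hij => hdj i j hij)] at h3
      simp only [hr]
      rw [← h3]
      refine Finset.sum_congr rfl fun i _ => Finset.sum_congr rfl fun v hv => ?_
      rw [hone v (fun h => hvS i v hv (D.toRD0.above v h)) (hGd i v hv).2, one_mul]
    have hph : (X.wi (η + η₀)).ph Dg ρ = (X.wi η).ph Dg ρ *
        ep p (∑ j, dt (η₀ j) (fun c => Dg.cv c (ρ (X.σ j) * (X.r j)⁻¹))) := by
      unfold VP.ph VP.wi
      rw [if_pos hπ, if_pos hπ, ← ep_add hp, ← Finset.sum_add_distrib]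
      refine congrArg _ (Finset.sum_congr rfl fun j _ => ?_)
      exact tl_dtadd _ _ _
    rw [hsum, hdl, hph, ep_add hp, ep_add hp]
    ring
  · have h3 : ∀ η : Fin k → Fin l → ZMod p, (X.wi η).ph Dg ρ = 0 := by
      intro η
      unfold VP.ph VP.wi
      rw [if_neg hπ]
    rw [h3, h3, zero_mul, mul_zero, zero_mul]

end H57.D2
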