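import Pool.Agent.H57.CC.Zl
import Pool.Agent.H57.D2.M7
import Pool.Agent.H57.D2.Twv

/-!
# H57-D2-ZL: the file H57/CC/Zl with the condition `G2e` instead of `p ≠ 2`
-/

set_option autoImplicit false

open scoped NumberField
open IsDedekindDomain Filter Topology
open scoped Classical

noncomputable section

namespace H57.D2

open H57.CC H57.CV H57.PC H57.LOW H63.MA H38.BB H38.BG H51.CUB H77.PT H77.PC3 H57.MP H57.BRA

variable {K : Type} [Field K] [NumberField K] {p : ℕ} {ζ : K} {Ω : Type} [Field Ω]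
  [Algebra K Ω] [IsAlgClosure K Ω] {m l w N k : ℕ} {P R : Type} [Group P] [Group R]

/-- the smooth sums have a limit -/
theorem zl [NeZero p] [Finite P] [Finite R] (hp : p.Prime)
    (hζ : IsPrimitiveRoot ζ p) (hz : Z2 p K) (D : RD K p ζ) (L : LDs D.toRD0 Ω) (Q : DP K Ω)
    (Fr : FR L) (Dg : GP p m l w N P R) (hE : G2e Dg) (hN : 1 ≤ N) (X : VP K Ω p l k R)
    (hX : X.Ok D.toRD0 Q) (ρ₁ : Gal(Ω/K) →* R) (h₁ : H38.ML.FT ρ₁) (ht₁ : Tmo L ρ₁)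
    (hr : ∀ j, X.r j = ρ₁ (X.σ j)) (b : Fin m → Kˣ) (hb : BS2 D.toRD0 b ∅) :
    ∃ L₀ : ℂ, Tendsto (fun Y : ℝ => ZX Dg Fr b X (fun _ _ => 0) (fA Dg) (fun _ => True) Y /
      ((Y * Real.log Y ^ (N - 1) : ℝ) : ℂ)) atTop (𝓝 L₀) := by
  have hp2 : MOne p K := mone_z2 hp hz
  have hev : ∀ᶠ Y : ℝ in atTop, Real.exp (Real.log (Real.log Y) ^ 5) ≤ thr Y 1 := by
    filter_upwards [eventually_ge_atTop (Real.exp (Real.exp 1))] with Y hY
    exact (mu_x hY).1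
  -- the pattern of `χ`
  have hχ : ∀ χ ∈ J0 Dg, Lm N fun Y => PCX Dg Fr b X (fun _ _ => 0) (fB Dg χ) Y := by
    intro χ hJ
    have hJ' : InJ0 Dg χ := (Finset.mem_filter.1 hJ).2
    obtain ⟨c, η₀, θ, hc, hθ, h⟩ := twv hp hζ hz D (L := L) Q Fr Dg hE χ hJ' X hX ρ₁ h₁ ht₁ hr
    have hX' : (X.wi (X.η + η₀)).Ok D.toRD0 Q := ⟨hX.mem, hX.det⟩
    have h0 : ∀ Y : ℝ, PCX Dg Fr b X (fun _ _ => 0) (fB Dg χ) Y =
        c * PCX Dg Fr b (X.wi (X.η + η₀)) θ (fB Dg 0) Y := fun Y => h X.η b hb Y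
    have h3 : Lm N fun Y => PCX Dg Fr b (X.wi (X.η + η₀)) θ (fun a => fC Dg 0 a.1) Y := by
      by_cases ht : (X.wi (X.η + η₀)).Tr ζ
      · obtain ⟨L₁, hL₁⟩ := m7 hp hζ hz D L Q Fr Dg hE hN (X.wi (X.η + η₀)) hX' ht ρ₁ h₁ hr b hb
          θ hθ
        refine lm_congr ⟨L₁, hL₁⟩ ?_
        filter_upwards [hev] with Y hY
        exact (mgx Dg Fr b (X.wi (X.η + η₀)) θ (fC Dg 0) Y hY).symm
      · exact lm_neg (px_x hp hp2 hζ hz D L Fr Dg (X.wi (X.η + η₀)) hX' ht b hb θ)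
    have h4 := lm_diff h3 (px_b hp hp2 hζ hz D L Fr Dg (X.wi (X.η + η₀)) hX' b hb θ)
    simp only [h0]
    exact lm_mul c h4
  have h5 : Lm N fun Y => PCX Dg Fr b X (fun _ _ => 0) (fun a => fA Dg a.1) Y :=
    lm_diff (lm_sum (J0 Dg) hχ) (px_a hp hp2 hζ hz D L Fr Dg X hX b hb _)
  have h6 : Lm N fun Y => ZX Dg Fr b X (fun _ _ => 0) (fA Dg) (Big (thr Y 1)) Y := by
    refine lm_congr h5 ?_
    filter_upwards [hev] with Y hY
    exact mgx Dg Fr b X (fun _ _ => 0) (fA Dg) Y hY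
  exact lm_diff h6 (suz hp hp2 hζ hz D L Fr Dg X b hb)

end H57.D2
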