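import Pool.Agent.H57.CC.Cm
import Pool.Agent.H57.D2.Zl
import Pool.Agent.H57.D2.M1

/-!
# H57-D2-CM: the file H57/CC/Cm with the condition `G2e` instead of `p ≠ 2`
-/

set_option autoImplicit false

open scoped NumberField
open IsDedekindDomain Filter Topology
open scoped Classical

noncomputable section

namespace H57.D2

open H57.CC H57.CV H57.PC H57.LOW H63.MA H38.BB H38.BG H51.CUB H77.PT H77.PC3 H57.MP H57.BRA

variable {K : Type} [Field K] [NumberField K] {p : ℕ} {ζ : K} {Ω : Type} [Field Ω]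
  [Algebra K Ω] [IsAlgClosure K Ω] {m l w N k : ℕ} {P R : Type} [Group P] [Group R]

theorem cm_b [NeZero p] [Finite P] [Finite R] (hp : p.Prime)
    (hζ : IsPrimitiveRoot ζ p) (hz : Z2 p K) (D : RD K p ζ) (L : LDs D.toRD0 Ω) (Q : DP K Ω)
    (Fr : FR L) (Dg : GP p m l w N P R) (hE : G2e Dg) (hN : 1 ≤ N)
    (ρ₁ : Gal(Ω/K) →* R) (h₁ : H38.ML.FT ρ₁) (ht₁ : Tmo L ρ₁) (b : Fin m → Kˣ) (hb : BS2 D.toRD0 b ∅) :
    Lm N fun Y => (((∑ f ∈ Fintype.piFinset (fun _ : Fin N => GF D.toRD0 Y),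
      if Fa D.toRD0 Dg.cr b Y f then FWT Q Dg Fr b ρ₁ f else 0 : ℝ)) : ℂ) := by
  have hp2 : MOne p K := mone_z2 hp hz
  obtain ⟨k, σ, hk⟩ := vs_ex hp hp2 hζ D.toRD0 L Q R l
  let X : VP K Ω p l k R := ⟨σ, fun j => ρ₁ (σ j), 0⟩
  have hX : ∀ η, (X.wi η).Ok D.toRD0 Q := fun η => hk _ _
  have hz1 : ∀ η : Fin k → Fin l → ZMod p, Lm N fun Y =>
      ZX Dg Fr b (X.wi η) (fun _ _ => 0) (fA Dg) (fun _ => True) Y := fun η =>
    zl hp hζ hz D L Q Fr Dg hE hN (X.wi η) (hX η) ρ₁ h₁ ht₁ (fun j => rfl) b hb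
  have hs : Lm N fun Y => (((∑ f ∈ (Fintype.piFinset (fun _ : Fin N =>
      GF D.toRD0 (2 * Y))).filter (Fa D.toRD0 Dg.cr b (2 * Y)),
      FWT Q Dg Fr b ρ₁ f * wl ((∏ i, nr (f i)) / Y) : ℝ)) : ℂ) := by
    refine lm_congr (lm_mul ((p : ℂ) ^ (l * k))⁻¹ (lm_sum Finset.univ fun η _ => hz1 η))
      (Filter.Eventually.of_forall fun Y => ?_)
    unfold ZX
    rw [Finset.sum_filter, Complex.ofReal_sum, Finset.sum_comm, Finset.mul_sum]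
    refine Finset.sum_congr rfl fun f _ => ?_
    by_cases hF : Fa D.toRD0 Dg.cr b (2 * Y) f
    · have h0 : thp D.toRD0 Dg.cr b (fun (_ : Fin N) (_ : Fin m) => (0 : ZMod p)) f = 0 := by
        unfold thp dt
        simp
      rw [if_pos hF]
      simp only [if_pos (show Fa D.toRD0 Dg.cr b (2 * Y) f ∧ True from ⟨hF, trivial⟩), h0,
        ep_zero, mul_one]
      rw [Complex.ofReal_mul, cm_fwt hp hp2 hζ L Fr Dg X (hk _ _) b ρ₁ h₁ (fun j => rfl) f,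
        ← Finset.mul_sum]
      ring
    · rw [if_neg hF]
      simp only [if_neg (show ¬ (Fa D.toRD0 Dg.cr b (2 * Y) f ∧ True) from fun h' => hF h'.1)]
      rw [Finset.sum_const_zero, mul_zero, Complex.ofReal_zero]
  obtain ⟨L₀, hL₀⟩ := cm_re hs
  have ht := tau (n := fun f : Fin N → Finset (Pl K) => ∏ i, nr (f i))
    (c := fun f => FWT Q Dg Fr b ρ₁ f)
    (ok := fun f => Dj f ∧ SpR Dg.cr b f ∧ ∀ i, ∀ v ∈ f i, D.toRD0.Gd v) ?_ ?_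
    (fun Y => (Fintype.piFinset (fun _ : Fin N => GF D.toRD0 Y)).filter (Fa D.toRD0 Dg.cr b Y))
    ?_ N L₀ hL₀
  · have h5 := cm_im ht
    refine lm_congr h5 (Filter.Eventually.of_forall fun Y => ?_)
    rw [Finset.sum_filter]
  · intro f
    unfold FWT
    refine Finset.sum_nonneg fun ρ _ => ?_
    split_ifs
    · positivity
    · exact le_refl _
  · intro f
    exact atupa_prod_one f Finset.univ
  · intro Y f
    rw [Finset.mem_filter, Fintype.mem_piFinset]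
    unfold Fa
    constructor
    · rintro ⟨h1, h3, h4, h5⟩
      exact ⟨⟨h3, h5, fun i => (aexp_mem_GF.1 (h1 i)).2⟩, h4⟩
    · rintro ⟨⟨h3, h5, h6⟩, h4⟩
      exact ⟨fun i => aexp_mem_GF.2 ⟨(atupa_le_prod f i).trans h4, h6 i⟩, h3, h4, h5⟩

/-- the asymptotic number of surjective homomorphisms to `P` of given local type -/
theorem cm_t [NeZero p] [Finite P] [Finite R] (hp : p.Prime)
    (hζ : IsPrimitiveRoot ζ p) (hz : Z2 p K) (D : RD K p ζ) (L : LDs D.toRD0 Ω) (Q : DP K Ω)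
    (Fr : FR L) (Dg : GP p m l w N P R) (hE : G2e Dg) (hN : 1 ≤ N) (hW : WTy Dg)
    (φ₁ : Gal(Ω/K) →* P) (h₁ : H38.ML.FT φ₁)
    (ht₁ : Tmo L (Dg.q.comp φ₁)) :
    ∃ L₀ : ℝ, Tendsto (fun Y : ℝ => ((SY3 L Q Dg φ₁ Y).ncard : ℝ) /
      (Y * Real.log Y ^ (N - 1))) atTop (𝓝 L₀) := by
  obtain ⟨Ub, hUb, hdec⟩ := sy3_dec hp hζ D L Q Fr Dg hE
  obtain ⟨h₂, hh₂, hm⟩ := m1 hp hζ hz D L Q Fr Dg hE hN hW φ₁ h₁
  have hft : H38.ML.FT (Dg.q.comp φ₁) := H38.ML.ft_comp Dg.q φ₁ h₁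
  refine cm_re (G := fun Y => ((SY3 L Q Dg φ₁ Y).ncard : ℝ)) ?_
  have h5 : ∀ b ∈ Ub, Lm N fun Y =>
      (((∑ f ∈ Fintype.piFinset (fun _ : Fin N => GF D.toRD0 Y),
        if Fa D.toRD0 Dg.cr b Y f then ((FPT L Q Dg b f φ₁).ncard : ℝ) else 0 : ℝ)) : ℂ) := by
    intro b hb
    have h6 := lm_mul ((h₂ : ℝ) : ℂ)
      (cm_b hp hζ hz D L Q Fr Dg hE hN (Dg.q.comp φ₁) hft ht₁ b (hUb b hb))
    refine lm_diff h6 ?_
    have h7 := hm b (hUb b hb)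
    have e7 : ∀ Y : ℝ, ((((∑ f ∈ Fintype.piFinset (fun _ : Fin N => GF D.toRD0 Y),
        if Fa D.toRD0 Dg.cr b Y f then ((FPT L Q Dg b f φ₁).ncard : ℝ) else 0 : ℝ)) : ℂ) -
        ((h₂ : ℝ) : ℂ) * (((∑ f ∈ Fintype.piFinset (fun _ : Fin N => GF D.toRD0 Y),
        if Fa D.toRD0 Dg.cr b Y f then FWT Q Dg Fr b (Dg.q.comp φ₁) f else 0 : ℝ)) : ℂ)) =
        (((∑ f ∈ Fintype.piFinset (fun _ : Fin N => GF D.toRD0 Y),
        if Fa D.toRD0 Dg.cr b Y f then ((FPT L Q Dg b f φ₁).ncard : ℝ) -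
          h₂ * FWT Q Dg Fr b (Dg.q.comp φ₁) f else 0 : ℝ)) : ℂ) := by
      intro Y
      rw [← Complex.ofReal_mul, ← Complex.ofReal_sub, Finset.mul_sum, ← Finset.sum_sub_distrib]
      congr 1
      refine Finset.sum_congr rfl fun f _ => ?_
      by_cases hF : Fa D.toRD0 Dg.cr b Y f
      · rw [if_pos hF, if_pos hF, if_pos hF]
      · rw [if_neg hF, if_neg hF, if_neg hF, mul_zero, sub_zero]
    simp only [e7]
    exact h7
  refine lm_congr (lm_sum Ub h5) (Filter.Eventually.of_forall fun Y => ?_)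
  rw [(hdec φ₁ Y).2]
  push_cast
  refine Finset.sum_congr rfl fun b _ => Finset.sum_congr rfl fun f _ => ?_
  by_cases hF : Fa D.toRD0 Dg.cr b Y f
  · simp only [if_pos hF]
  · simp only [if_neg hF]

theorem sy3_typed [NeZero p] {D : RD0 K p ζ} {L : LDs D Ω} {Q : DP K Ω}
    {Dg : GP p m l w N P R} {φ₁ φ₂ : Gal(Ω/K) →* P} {Y : ℝ} (h : φ₂ ∈ SY3 L Q Dg φ₁ Y) :
    Tmo L (Dg.q.comp φ₂) ∧ ∀ Y', SY3 L Q Dg φ₁ Y' = SY3 L Q Dg φ₂ Y' := by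
  obtain ⟨h1, h2, h3, h4, h5⟩ := h
  have ht : ∀ φ : Gal(Ω/K) →* P, Teq D.S0 Q φ φ₁ ↔ Teq D.S0 Q φ φ₂ := fun φ =>
    ⟨fun h v hv σ hσ => (h v hv σ hσ).trans (h3 v hv σ hσ).symm,
      fun h v hv σ hσ => (h v hv σ hσ).trans (h3 v hv σ hσ)⟩
  refine ⟨fun v hv τ hτ => ?_, fun Y' => ?_⟩
  · rw [MonoidHom.comp_apply, ← map_pow]
    rcases h4 v hv with h6 | ⟨i, h6⟩
    · rw [h6 τ hτ, one_pow, map_one]
    · rw [h6.2.2 τ hτ, map_one]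
  · ext φ
    unfold SY3
    simp only [Set.mem_setOf_eq, ht φ]

/-- the asymptotic number of surjective homomorphisms to `P` of given local type -/
theorem cm [NeZero p] [Finite P] [Finite R] (hp : p.Prime)
    (hζ : IsPrimitiveRoot ζ p) (hz : Z2 p K) (D : RD K p ζ) (L : LDs D.toRD0 Ω) (Q : DP K Ω)
    (Fr : FR L) (Dg : GP p m l w N P R) (hE : G2e Dg) (hN : 1 ≤ N) (hW : WTy Dg)
    (φ₁ : Gal(Ω/K) →* P) (_h₁ : H38.ML.FT φ₁) :
    ∃ L₀ : ℝ, Tendsto (fun Y : ℝ => ((SY3 L Q Dg φ₁ Y).ncard : ℝ) /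
      (Y * Real.log Y ^ (N - 1))) atTop (𝓝 L₀) := by
  by_cases h : ∃ Y φ₂, φ₂ ∈ SY3 L Q Dg φ₁ Y
  · obtain ⟨Y, φ₂, hφ⟩ := h
    obtain ⟨h1, h2⟩ := sy3_typed hφ
    simp only [h2]
    exact cm_t hp hζ hz D L Q Fr Dg hE hN hW φ₂ hφ.1 h1
  · refine ⟨0, ?_⟩
    have h1 : ∀ Y, SY3 L Q Dg φ₁ Y = ∅ := fun Y =>
      Set.eq_empty_iff_forall_notMem.2 fun φ hφ => h ⟨Y, φ, hφ⟩
    simp only [h1, Set.ncard_empty, Nat.cast_zero, zero_div]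
    exact tendsto_const_nhds

end H57.D2
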