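import Pool.Agent.H57.MP.Md
import Pool.Agent.H57.D2.Loh

/-!
# H57-D2-MD: the file H57/MP/Md with the condition `G2e` instead of `p ≠ 2`
-/

set_option autoImplicit false

open scoped NumberField
open IsDedekindDomain
open scoped Classical

noncomputable section

namespace H57.D2

open H57.MP H57.PC H57.LOW H57.BRA H63.MA H38.BB H38.BG H51.CUB H77.PT

variable {K : Type} [Field K] [NumberField K] {p : ℕ} {ζ : K} {D : RD0 K p ζ} {Ω : Type}
  [Field Ω] [Algebra K Ω] {m l w N : ℕ} {P R : Type} [Group P] [Group R]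

private theorem md_mem {J : Type} [Fintype J] {X : ℝ} {h : J → Finset (Pl K)}
    (hh : h ∈ Fintype.piFinset (fun _ : J => GF D X)) : ∀ a, h a ∈ GF D X :=
  Fintype.mem_piFinset.1 hh

private theorem md_ep_sum [NeZero p] {I : Type*} (s : Finset I) (f : I → ZMod p) :
    ep p (∑ i ∈ s, f i) = ∏ i ∈ s, ep p (f i) := by
  have hadd : ∀ a b : ZMod p, ep p (a + b) = ep p a * ep p b := by
    intro a b
    rw [rayc_std, rayc_std, rayc_std, AddChar.map_add_eq_mul]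
  induction s using Finset.induction_on with
  | empty => rw [Finset.sum_empty, Finset.prod_empty, ep_zero]
  | insert a s ha ih => rw [Finset.sum_insert ha, Finset.prod_insert ha, hadd, ih]

private theorem md_xi_zero (Dg : GP p m l w N P R) {i : Fin N} {ψ : Fin l → ZMod p}
    (hψ : ∀ v, Dg.β v (Dg.s i) = 0 → dt ψ v = 0) : xi Dg ψ i 0 = 0 := by
  have hex : ∃ v, Dg.β v (Dg.s i) = 0 := ⟨0, by rw [map_zero, LinearMap.zero_apply]⟩
  unfold H57.PC.xi
  rw [dif_pos hex]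
  exact hψ _ hex.choose_spec

private theorem md_xi0 (Dg : GP p m l w N P R) (i : Fin N) (x : Fin w → ZMod p) :
    xi Dg 0 i x = 0 := by
  unfold H57.PC.xi
  split_ifs
  · simp [dt]
  · rfl

private theorem md_fC [NeZero p] (Dg : GP p m l w N P R) (χ : Fin N → Fin l → ZMod p) (i : Fin N)
    (x : Fin w → ZMod p) :
    fC Dg χ i x = fC Dg 0 i x * ep p (xi Dg (χ i) i x) ∧ (fC Dg 0 i x ≠ 0 → x ∈ Dg.Bi i) := by
  unfold fC
  by_cases hx : x ∈ Dg.Bi i
  · rw [if_pos hx, if_pos hx, Pi.zero_apply, md_xi0, ep_zero, mul_one]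
    exact ⟨rfl, fun _ => hx⟩
  · rw [if_neg hx, if_neg hx, zero_mul]
    exact ⟨rfl, fun h => absurd rfl h⟩

private theorem md_sum_clw' {J : Type} [Fintype J] {U : WY N J} {h : J → Finset (Pl K)}
    (hdj : Dj h) (g : Fin N → Pl K → ZMod p) :
    (∑ i, ∑ v ∈ clw U h i, g i v) = ∑ a, ∑ v ∈ h a, g (U.cls a) v := by
  unfold clw
  have h1 : ∀ i, (∑ v ∈ (Finset.univ.filter fun a => U.cls a = i).biUnion h, g i v) =
      ∑ a ∈ Finset.univ.filter (fun a => U.cls a = i), ∑ v ∈ h a, g (U.cls a) v := by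
    intro i
    rw [Finset.sum_biUnion (fun a _ a' _ hne => hdj a a' hne)]
    refine Finset.sum_congr rfl fun a ha => ?_
    rw [(Finset.mem_filter.1 ha).2]
  rw [Finset.sum_congr rfl fun i _ => h1 i]
  exact Finset.sum_fiberwise _ _ _

private theorem md_sum_clw {Y : ℝ} {h : Fin N × Fin 3 → Finset (Pl K)}
    (hdj : Dj h) (g : Fin N → Pl K → ZMod p) :
    (∑ i, ∑ v ∈ clw (UM N Y) h i, g i v) = ∑ a, ∑ v ∈ h a, g a.1 v :=
  md_sum_clw' (U := UM N Y) hdj g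

private theorem md_dt_ak [NeZero p] (hp : p.Prime) (hζ : IsPrimitiveRoot ζ p) (c : CR p m N)
    (f : Fin N → Finset (Pl K)) {v : Pl K} (hv : v ∉ D.S0) (θ : Fin m → ZMod p) :
    dt θ (fun k => D.LL v (akR D c (fun _ => 1) f k)) =
      ∑ j, dt θ (c.x j) * ∑ v' ∈ f j, D.LL v (D.pi v') := by
  have h1 : ∀ k, D.LL v (akR D c (fun _ => 1) f k) =
      ∑ j, c.x j k * ∑ v' ∈ f j, D.LL v (D.pi v') := by
    intro k
    unfold akR
    rw [one_mul, aexp_LL_prod hp hζ D hv]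
    refine Finset.sum_congr rfl fun j _ => ?_
    rw [aexp_LL_prod hp hζ D hv, Finset.mul_sum]
    refine Finset.sum_congr rfl fun v' _ => ?_
    exact aexp_LL_pow hp hζ D hv _ _
  unfold dt
  simp only [h1]
  have h2 : ∀ k, θ k * ∑ j, c.x j k * ∑ v' ∈ f j, D.LL v (D.pi v') =
      ∑ j, θ k * c.x j k * ∑ v' ∈ f j, D.LL v (D.pi v') := by
    intro k
    rw [Finset.mul_sum]
    refine Finset.sum_congr rfl fun j _ => ?_
    rw [mul_assoc]
  rw [Finset.sum_congr rfl fun k _ => h2 k, Finset.sum_comm]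
  refine Finset.sum_congr rfl fun j _ => ?_
  rw [Finset.sum_mul]

theorem tw_k [NeZero p] [Finite P] [IsAlgClosure K Ω] (hp : p.Prime)
    (hζ : IsPrimitiveRoot ζ p) (hz : Z2 p K) {L : LDs D Ω} (Dg : GP p m l w N P R) (hE : G2e Dg) (Fr : FR L)
    (χ : Fin N → Fin l → ZMod p) (hχ : χ ∈ J0 Dg) :
    ∃ lam : Fin N → Fin N → ZMod p, ∀ φ : Fin N × Fin 3 → (Fin w → ZMod p) → ℂ,
      (∀ a x, φ a x ≠ 0 → x ∈ Dg.Bi a.1) → ∀ (ω : Finset (Fin N × Fin 3) → ℂ) (Y : ℝ),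
        (∑ κ : Fin N → Fin D.r → ZMod p,
          PCU Dg Fr (UM N Y) (fun a x => φ a x * ep p (xi Dg (χ a.1) a.1 x)) (fun _ => 1) ∅
            (fun _ _ => 1) (fun a => uk D κ a.1) (fun _ _ => 0) ω Y) =
        ∑ κ : Fin N → Fin D.r → ZMod p,
          PCU Dg Fr (UM N Y) φ (fun _ => 1) ∅ (fun _ _ => 1) (fun a => uk D κ a.1)
            (fun a a' => lam a.1 a'.1) ω Y := by
  have hχ' : InJ0 Dg χ := by
    unfold J0 at hχ
    exact (Finset.mem_filter.1 hχ).2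
  obtain ⟨θ, -, -, hθ⟩ := lo_phase hp hζ hz (L := L) Dg hE Fr χ hχ'
  refine ⟨fun i j => dt (θ i) (Dg.s j), ?_⟩
  intro φ hφ ω Y
  unfold PCU
  rw [Finset.sum_comm]
  conv_rhs => rw [Finset.sum_comm]
  refine Finset.sum_congr rfl fun h hh => ?_
  by_cases hc : Wc D (UM N Y) ∅ Y h ∧ SpR Dg.cr (fun _ => (1 : Kˣ)) (clw (UM N Y) h)
  swap
  · simp only [if_neg hc]
  simp only [if_pos hc]
  have hdj : Dj h := hc.1.1
  have hgd : ∀ a, ∀ v ∈ h a, D.Gd v := fun a =>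
    (aexp_mem_GF.1 (md_mem hh a)).2
  obtain ⟨f, hf⟩ : ∃ f, f = clw (UM N Y) h := ⟨_, rfl⟩
  have hsum : ∀ g : Fin N → Pl K → ZMod p, (∑ i, ∑ v ∈ f i, g i v) =
      ∑ a, ∑ v ∈ h a, g a.1 v := fun g => by
    rw [hf]
    exact md_sum_clw hdj g
  have hmem : ∀ i v, v ∈ f i ↔ ∃ a, a.1 = i ∧ v ∈ h a := by
    intro i v
    rw [hf]
    unfold clw
    simp only [Finset.mem_biUnion, Finset.mem_filter, Finset.mem_univ, true_and]
    rfl
  have hfdj : Dj f := by
    intro i j hij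
    rw [Finset.disjoint_left]
    intro v hv hv'
    obtain ⟨a, ha, hva⟩ := (hmem i v).1 hv
    obtain ⟨a', ha', hva'⟩ := (hmem j v).1 hv'
    have hne : a ≠ a' := by
      rintro rfl
      exact hij (ha.symm.trans ha')
    exact Finset.disjoint_left.1 (hdj a a' hne) hva hva'
  have hfgd : ∀ i, ∀ v ∈ f i, D.Gd v := by
    intro i v hv
    obtain ⟨a, _, hva⟩ := (hmem i v).1 hv
    exact hgd a v hva
  -- the two phases
  set T : ZMod p := ∑ a, ∑ v ∈ h a, ∑ a' : Fin N × Fin 3,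
    dt (θ a.1) (Dg.s a'.1) * ∑ v' ∈ h a', D.LL v (D.pi v') with hT
  have hU0 : ∀ κ : Fin N → Fin D.r → ZMod p,
      UU D (fun a : Fin N × Fin 3 => uk D κ a.1) (fun _ _ => 0) h =
        ∑ i, ∑ v ∈ f i, uk D κ i v := by
    intro κ
    rw [hsum]
    unfold UU
    refine Finset.sum_congr rfl fun i _ => Finset.sum_congr rfl fun v _ => ?_
    simp only [zero_mul, Finset.sum_const_zero, add_zero]
  have hU1 : ∀ κ : Fin N → Fin D.r → ZMod p,
      UU D (fun a : Fin N × Fin 3 => uk D κ a.1) (fun a a' => dt (θ a.1) (Dg.s a'.1)) h =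
        (∑ i, ∑ v ∈ f i, uk D κ i v) + T := by
    intro κ
    rw [hsum, hT, ← Finset.sum_add_distrib]
    unfold UU
    refine Finset.sum_congr rfl fun a _ => ?_
    rw [← Finset.sum_add_distrib]
  simp only [hU0, hU1, ep_add hp]
  rw [← Finset.mul_sum, ← Finset.mul_sum, ← Finset.sum_mul, kd_sum hp D f]
  by_cases hq : ∀ i, qf D (f i) = 0
  swap
  · rw [if_neg hq, zero_mul, mul_zero, mul_zero]
  rw [if_pos hq, ← hf]
  have hkey : (∑ ρ ∈ RHf L Dg (fun _ => 1) ∅ (fun _ _ => 1) f,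
      ∏ a, ∏ v ∈ h a, φ a (cq Dg Fr ρ v) * ep p (xi Dg (χ a.1) a.1 (cq Dg Fr ρ v))) =
      (∑ ρ ∈ RHf L Dg (fun _ => 1) ∅ (fun _ _ => 1) f,
        ∏ a, ∏ v ∈ h a, φ a (cq Dg Fr ρ v)) * ep p T := by
    rw [Finset.sum_mul]
    refine Finset.sum_congr rfl fun ρ hρ => ?_
    have hρ' : ρ ∈ RH L Dg (fun _ => 1) ∅ (fun _ _ => 1) f := by
      unfold RHf at hρ
      split_ifs at hρ with hfin
      · exact hfin.mem_toFinset.1 hρ
      · exact absurd hρ (Finset.notMem_empty ρ)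
    by_cases hB : ∀ a, ∀ v ∈ h a, cq Dg Fr ρ v ∈ Dg.Bi a.1
    · have h1 : (∏ a, ∏ v ∈ h a, φ a (cq Dg Fr ρ v) * ep p (xi Dg (χ a.1) a.1 (cq Dg Fr ρ v))) =
          (∏ a, ∏ v ∈ h a, φ a (cq Dg Fr ρ v)) *
            ep p (∑ a, ∑ v ∈ h a, xi Dg (χ a.1) a.1 (cq Dg Fr ρ v)) := by
        rw [aexp_ep_sum hp, ← Finset.prod_mul_distrib]
        refine Finset.prod_congr rfl fun a _ => ?_
        rw [aexp_ep_sum hp, ← Finset.prod_mul_distrib]
      rw [h1]
      congr 2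
      have h2 := hθ f hfdj hfgd hq ρ hρ' (by
        intro i v hv
        obtain ⟨a, ha, hva⟩ := (hmem i v).1 hv
        rw [← ha]
        exact hB a v hva)
      rw [hsum (fun i v => xi Dg (χ i) i (cq Dg Fr ρ v)),
        hsum (fun i v => dt (θ i) (fun k => D.LL v (akR D Dg.cr (fun _ => 1) f k)))] at h2
      rw [h2, hT]
      refine Finset.sum_congr rfl fun a _ => Finset.sum_congr rfl fun v hv => ?_
      rw [md_dt_ak hp hζ Dg.cr f (hgd a v hv).1 (θ a.1)]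
      have h3 := md_sum_clw' (U := UM N Y) hdj
        (fun j v' => dt (θ a.1) (Dg.cr.x j) * D.LL v (D.pi v'))
      rw [← hf] at h3
      have h4 : (∑ j, dt (θ a.1) (Dg.cr.x j) * ∑ v' ∈ f j, D.LL v (D.pi v')) =
          ∑ j, ∑ v' ∈ f j, dt (θ a.1) (Dg.cr.x j) * D.LL v (D.pi v') :=
        Finset.sum_congr rfl fun j _ => Finset.mul_sum _ _ _
      rw [h4, h3]
      refine Finset.sum_congr rfl fun a' _ => ?_
      rw [Finset.mul_sum]
      rfl
    · push Not at hB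
      obtain ⟨a, v, hv, hnB⟩ := hB
      have h0 : φ a (cq Dg Fr ρ v) = 0 := by
        by_contra hne
        exact hnB (hφ a _ hne)
      rw [Finset.prod_eq_zero (Finset.mem_univ a) (Finset.prod_eq_zero hv (by rw [h0, zero_mul])),
        Finset.prod_eq_zero (Finset.mem_univ a) (Finset.prod_eq_zero hv h0), zero_mul]
  rw [hkey]
  ring

end H57.D2
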