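import Pool.Agent.H57.D2.CLw
import Pool.Agent.H57.D2.Me
import Pool.Agent.H57.MP.Fin

/-!
# H57-D2-LOW: the lower bound (the files H57/MP/{Mf, Mh, Fin}, H77/PC3/{CLw, CLo}) with the condition `G2e`
-/

set_option autoImplicit false

open scoped NumberField
open IsDedekindDomain
open scoped Classical

noncomputable section

namespace H57.D2

section all

open H57.MP H57.PC H57.LOW H57.LS H57.BRA H63.MA H38.BB H38.BG H51.CUB H77.PT H77.PC3

/-- the lower bounds for the sums `F0` -/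
def LB0All (p : ℕ) [NeZero p] : Prop :=
  ∀ (K : Type) [Field K] [NumberField K] (Ω : Type) [Field Ω] [Algebra K Ω] [IsAlgClosure K Ω]
    (ζ : K) (_ : IsPrimitiveRoot ζ p) (_ : MOne p K) (_ : Z2 p K) (D : RD K p ζ)
    (L : LDs D.toRD0 Ω) (Fr : FR L) (m l w N : ℕ) (P R : Type) [Group P] [Finite P] [Group R]
    (Dg : GP p m l w N P R), G2e Dg → 1 ≤ N → LB0 Dg Fr

/-- the lower bounds for the homomorphisms to `P` -/
def LBdAll (p : ℕ) [NeZero p] : Prop :=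
  ∀ (K : Type) [Field K] [NumberField K] (Ω : Type) [Field Ω] [Algebra K Ω] [IsAlgClosure K Ω]
    (ζ : K) (_ : IsPrimitiveRoot ζ p) (_ : MOne p K) (_ : Z2 p K) (D : RD K p ζ)
    (L : LDs D.toRD0 Ω) (_ : FR L) (m l w N : ℕ) (P R : Type) [Group P] [Finite P] [Group R]
    (Dg : GP p m l w N P R), G2e Dg → 1 ≤ N → LBd L Dg.g

theorem lb0All (p : ℕ) [NeZero p] (hp : p.Prime) : LB0All p := by
  intro K _ _ Ω _ _ _ ζ hζ hp2 hz D L Fr m l w N P R _ _ _ Dg hE hN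
  haveI : Finite R := Finite.of_surjective Dg.q Dg.qs
  exact lb0_ofs hp hζ hz Dg hE Fr hN (rcard hp hp2 hζ hz Fr Dg) (fun Y => thr Y 1)
    (fun x y hx hxy => thr_mono hx hxy) (mids hp hp2 hζ hz D L Fr Dg hE)
    (by
      have h := mlow (m := m) (N := N) hp hp2 hζ D Dg.cr hN 8 (by norm_num)
      exact h)

theorem lbdAll (p : ℕ) [NeZero p] (hp : p.Prime) : LBdAll p := by
  intro K _ _ Ω _ _ _ ζ hζ hp2 hz D L Fr m l w N P R _ _ _ Dg hE hN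
  exact lbd_of_lb0 hp hp2 hζ hz Fr Dg hE (lb0All p hp K Ω ζ hζ hp2 hz D L Fr m l w N P R Dg hE hN)

/-- the condition for the Sylow subgroup -/
theorem g2e_syl {G : Type} [Group G] {p : ℕ} [NeZero p] (hp : p.Prime) (S : Sylow p G)
    {m l w N : ℕ} {R : Type} [Group R] (Dg : GP p m l w N S R)
    (hE : p = 2 → ∀ x ∈ ⁅(S : Subgroup G), (S : Subgroup G)⁆, x ^ 2 = 1) : G2e Dg := by
  by_cases h2 : p = 2
  · intro x hx
    have h1 : x ∈ G2 S := (gp_G2 Dg x).1 hx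
    have h3 : ((x : S) : G) ∈ ⁅(S : Subgroup G), (S : Subgroup G)⁆ := by
      have h4 : Subgroup.map (S : Subgroup G).subtype ⁅(⊤ : Subgroup S), (⊤ : Subgroup S)⁆ =
          ⁅(S : Subgroup G), (S : Subgroup G)⁆ := by
        rw [Subgroup.map_commutator, ← MonoidHom.range_eq_map, Subgroup.range_subtype]
      rw [← h4]
      exact ⟨x, h1, rfl⟩
    have h5 := hE h2 _ h3
    have h6 : ((x : S) : G) ^ p = ((x : S) : G) ^ 2 := congrArg (fun k => ((x : S) : G) ^ k) h2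
    exact Subtype.ext (h6.trans h5)
  · exact g2e_odd hp h2 Dg

end all

section gal

open H38.ML H77.PC3 H63.MA H38.BB H38.BG H77.AB H57.PC H57.BRA H77.GN H77.UX

theorem cml {n : ℕ} (hn : 2 ≤ n) (G : Subgroup (Equiv.Perm (Fin n)))
    (hG : MulAction.IsPretransitive G (Fin n)) (hnil : Group.IsNilpotent G) {p : ℕ} [NeZero p]
    (hp : p.Prime) (hLB : LBdAll p)
    (hI : ∀ h : G, h ≠ 1 → ind (h : Equiv.Perm (Fin n)) = indG G → h ^ p = 1)
    (S : Sylow p G)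
    (hS : Subgroup.closure {h : G | h ≠ 1 ∧ ind (h : Equiv.Perm (Fin n)) = indG G} =
      (S : Subgroup G))
    (h4 : ⁅⁅⁅(S : Subgroup G), (S : Subgroup G)⁆, (S : Subgroup G)⁆, (S : Subgroup G)⁆ = ⊥)
    (hE : p = 2 → ∀ x ∈ ⁅(S : Subgroup G), (S : Subgroup G)⁆, x ^ 2 = 1) :
    ∃ K₀ : IntermediateField ℚ QBar, NumberField K₀ ∧
      ∀ K : IntermediateField ℚ QBar, K₀ ≤ K → ∀ _ : NumberField K,
        ∃ c B₀ : ℝ, 0 < c ∧ ∀ B : ℝ, B₀ ≤ B →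
          ((⌈c * B ^ (1 / (indG G : ℝ)) *
              Real.log B ^ (Spec.betaAll K QBar G - 1)⌉₊ : ℕ) : ℕ∞) ≤
            Spec.nK K QBar G B := by
  obtain ⟨ha, ⟨g₀, hg₀, hg₀'⟩, hmin, hcj, hJ⟩ := pidx_pos hn G hG
  obtain ⟨N, g, hgΛ, uni, hI'⟩ := ncl G {h : G | h ≠ 1 ∧ ind (h : Equiv.Perm (Fin n)) = indG G}
    (fun h hh => hh.1) (by
      rintro h ⟨h1, h2⟩ k hk
      refine ⟨?_, ?_⟩
      · intro hk1
        rw [hk1] at hk
        exact h1 (isConj_one_left.1 hk)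
      · obtain ⟨x, rfl⟩ := isConj_iff.1 hk
        exact hcj h x h1 h2)
  have hN : 1 ≤ N := by
    obtain ⟨i, -⟩ := (hI' g₀).1 ⟨hg₀, hg₀'⟩
    have := i.2
    omega
  have hcardpos : 0 < Nat.card G := Nat.card_pos
  have hpd : p ∣ Nat.card G := by
    have h2 := hI g₀ hg₀ hg₀'
    have h3 : orderOf g₀ = p := orderOf_eq_prime h2 hg₀ (hp := ⟨hp⟩)
    rw [← h3]
    exact orderOf_dvd_natCard g₀
  have hSn := nil_normal hnil hp S
  have hfp : Fact p.Prime := ⟨hp⟩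
  have hset : {h : G | h ≠ 1 ∧ ind (h : Equiv.Perm (Fin n)) = indG G} =
      {x | ∃ i, IsConj x (g i)} := by
    ext x
    exact hI' x
  obtain ⟨m, l, w, Q, hQ⟩ := exists_gq hp hnil hpd S g
    (fun i => hI _ (hgΛ i).1 (hgΛ i).2) (fun i => (hgΛ i).1) uni (by rw [← hset]; exact hS) h4
  have hco : Nat.Coprime (Nat.card S) (Nat.card (G ⧸ (S : Subgroup G))) := by
    have h5 := S.not_dvd_index
    rw [Subgroup.index] at h5
    obtain ⟨k, hk⟩ := IsPGroup.iff_card.mp S.isPGroup'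
    rw [hk]
    exact Nat.Coprime.pow_left k ((Nat.Prime.coprime_iff_not_dvd hp).2 h5)
  obtain ⟨K₀, hK₀, hK⟩ := akn2 G p
  refine ⟨K₀, hK₀, fun K hKK hKf => ?_⟩
  obtain ⟨⟨φ₀, hs, hφ₀⟩, ⟨z, hz⟩, ⟨i, hi⟩, hz2⟩ := hK K hKK hKf
  have hp2 : H63.MA.MOne p K := by
    by_cases h2 : p = 2
    · exact ⟨i, by rw [h2]; exact hi⟩
    · exact H63.MA.mone_odd hp h2 K
  obtain ⟨r, hr⟩ := hpd
  have hζ : IsPrimitiveRoot (z ^ r) p := hz.pow hcardpos (by rw [hr]; ring)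
  obtain ⟨D, hD, hun⟩ := ard (Ω := QBar) hp hp2 hζ φ₀ hφ₀ (Nat.card G) hcardpos
  obtain ⟨L⟩ := exists_LDs QBar hp hζ D.toRD0
  obtain ⟨Fr⟩ := H77.PC3.exists_FR hp hζ L
  rw [lbet G K z hz g uni hI']
  refine cfl hn G hG ha K D.toRD0 L g
    (fun h i hi => by
      have h1 : h ∈ {h : G | h ≠ 1 ∧ ind (h : Equiv.Perm (Fin n)) = indG G} := (hI' h).2 ⟨i, hi⟩
      exact h1.2) ?_
  have h6 := clo L Q hco (Q.ph.comp φ₀) (ft_comp _ _ hφ₀) (Q.phs.comp hs)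
    (fun v hv τ hτ => by
      rw [MonoidHom.comp_apply, hun L v hv τ hτ, map_one])
    (hLB K QBar (z ^ r) hζ hp2 hz2 D L Fr m l w N S (S ⧸ G3 S) Q.Dg
      (g2e_syl hp S Q.Dg hE) hN)
  rw [hQ] at h6
  exact h6

end gal

section fin

open H57.MP H38.ML.Spec H77.PC3

/-- the lower bound of the right order -/
theorem fin3 (n : ℕ) (hn : 2 ≤ n) (G : Subgroup (Equiv.Perm (Fin n)))
    (hG : MulAction.IsPretransitive G (Fin n)) (hnil : Group.IsNilpotent G) (p : ℕ)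
    (hp : p.Prime) (S : Sylow p G)
    (hS : Subgroup.closure {h : G | h ≠ 1 ∧ ind (h : Equiv.Perm (Fin n)) = indG G} =
      (S : Subgroup G))
    (h4 : ⁅⁅⁅(S : Subgroup G), (S : Subgroup G)⁆, (S : Subgroup G)⁆, (S : Subgroup G)⁆ = ⊥)
    (hE : p = 2 → ∀ x ∈ ⁅(S : Subgroup G), (S : Subgroup G)⁆, x ^ 2 = 1) :
    ∃ K₀ : IntermediateField ℚ (AlgebraicClosure ℚ), NumberField K₀ ∧
      ∀ K : IntermediateField ℚ (AlgebraicClosure ℚ), K₀ ≤ K → ∀ _ : NumberField K,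
        ∃ c : ℝ, 0 < c ∧ ∃ B₀ : ℝ, ∀ B : ℝ, B₀ ≤ B →
          ((⌈c * B ^ (1 / (indG G : ℝ)) *
              Real.log B ^ (betaAll K (AlgebraicClosure ℚ) G - 1)⌉₊ : ℕ) : ℕ∞) ≤
            nK K (AlgebraicClosure ℚ) G B := by
  haveI : NeZero p := ⟨hp.ne_zero⟩
  haveI : Fact p.Prime := ⟨hp⟩
  have hI : ∀ h : G, h ≠ 1 → ind (h : Equiv.Perm (Fin n)) = indG G → h ^ p = 1 := by
    intro h h0 hh
    have hmem : h ∈ (S : Subgroup G) := by
      rw [← hS]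
      exact Subgroup.subset_closure ⟨h0, hh⟩
    obtain ⟨k, hk⟩ := S.isPGroup' ⟨h, hmem⟩
    refine ord_min G hp h hh k ?_
    have := congrArg Subtype.val hk
    simpa using this
  obtain ⟨K₀, hK₀, h⟩ := cml hn G hG hnil hp (lbdAll p hp) hI S hS h4 hE
  refine ⟨K₀, hK₀, fun K hK hKf => ?_⟩
  obtain ⟨c, B₀, hc, hB⟩ := h K hK hKf
  exact ⟨c, hc, B₀, hB⟩

end fin

end H57.D2
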