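import Pool.Agent.H57.D2.Cm
import Pool.Agent.H57.D2.Low
import Pool.Agent.H77.FLD.Fin

/-!
# H57-D2-FLD: the files H77/FLD/{Gsy, Esp, Fin} with the condition `G2e` instead of `p ≠ 2`
-/

set_option autoImplicit false

open scoped NumberField
open IsDedekindDomain Filter Topology H38.ML
open scoped Classical

noncomputable section

namespace H57.D2

section gsy

open H77.FLD H63.MA H38.BB H38.BG H57.PC H57.BRA H63.BU H77.PC3 H57.CC H38.AS H77.S0T H77.AB H77.GN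

variable {K : Type} [Field K] [NumberField K] {Ω : Type} [Field Ω] [Algebra K Ω]
  [IsAlgClosure K Ω] {p m l w N : ℕ} {ζ : K} {G P H R : Type} [Group G] [Group P] [Group H]
  [Group R]

/-- the asymptotic formula for `SYG` -/
theorem gsl [NeZero p] [Finite G] (hp : p.Prime) (hζ : IsPrimitiveRoot ζ p)
    (hz2 : Z2 p K) (Q : GQ p m l w N G P H R) (hG2 : G2e Q.Dg) (hP : IsPGroup p P)
    (D : RD K p ζ) (L : LDs D.toRD0 Ω) (Q' : DP K Ω) (hN : 1 ≤ N) (hW : WTy Q.Dg)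
    (φ₁ : Gal(Ω/K) →* G) (h₁ : H38.ML.FT φ₁) :
    ∃ L₀ : ℝ, Tendsto (fun Y : ℝ => ((SYG L Q' Q.cl φ₁ Y).ncard : ℝ) /
      (Y * Real.log Y ^ (N - 1))) atTop (𝓝 L₀) := by
  haveI : Finite P := Finite.of_surjective _ Q.prs
  haveI : Finite R := Finite.of_surjective _ Q.Dg.qs
  obtain ⟨Fr⟩ := H77.PC3.exists_FR hp hζ L
  obtain ⟨l, hl⟩ := cm hp hζ hz2 D L Q' Fr Q.Dg hG2 hN hW (Q.pr.comp φ₁) (ft_comp _ _ h₁)
  refine ⟨l * ((HS L Q' (Q.ph.comp φ₁)).ncard : ℝ),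
    (hl.mul_const ((HS L Q' (Q.ph.comp φ₁)).ncard : ℝ)).congr fun Y => ?_⟩
  rw [(gsy hp Q hP L Q' φ₁ Y).1]
  push_cast
  ring

end gsy

section esp

open H77.FLD H63.MA H38.BB H38.BG H57.PC H57.BRA H63.BU H77.PC3 H57.CC H38.AS H77.S0T H77.AB H77.GN

theorem esp3 {n : ℕ} (hn : 2 ≤ n) (G : Subgroup (Equiv.Perm (Fin n)))
    (hG : MulAction.IsPretransitive G (Fin n)) (hnil : Group.IsNilpotent G)
    {p : ℕ} [NeZero p] (hp : p.Prime) (K : IntermediateField ℚ QBar)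
    [NumberField K] {ζ : K} (hζ : IsPrimitiveRoot ζ p) (hz2 : Z2 p K) {m l w N : ℕ}
    {P H R : Type} [Group P] [Group H] [Group R]
    (Q : GQ p m l w N G P H R) (hG2 : G2e Q.Dg) (hP : IsPGroup p P) (hN : 1 ≤ N) (hW : WTy Q.Dg)
    (hI : ∀ (h : G) (i : Fin N), IsConj h (Q.cl.g i) →
      ind (h : Equiv.Perm (Fin n)) = indG G)
    (ha : 0 < indG G) (z : K) (hz : IsPrimitiveRoot z (Nat.card G)) (D : RD K p ζ)
    (hD : ∀ v : Pl K, ((n.factorial : ℕ) : 𝓞 K) ∈ v.asIdeal → v ∈ D.S0)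
    (L : LDs D.toRD0 QBar) (Q' : DP K QBar) (hLQ : LQ L Q') (i₀ : Fin n)
    (E : Finset (Pl K)) :
    (∀ B, (NE3 G K L Q.cl i₀ E B).Finite) ∧ ∃ c : ℝ, Tendsto (fun B : ℝ =>
      ((NE3 G K L Q.cl i₀ E B).ncard : ℝ) / (B ^ (1 / (indG G : ℝ)) * Real.log B ^ (N - 1)))
        atTop (𝓝 c) := by
  have hp2 : MOne p K := mone_z2 hp hz2
  have haR : (0 : ℝ) < (indG G : ℝ) := by exact_mod_cast ha
  by_cases hE : ∃ v ∈ E, v ∈ D.S0
  · -- no homomorphisms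
    obtain ⟨v, hvE, hvS⟩ := hE
    have hemp : ∀ B, NE3 G K L Q.cl i₀ E B = ∅ := by
      intro B
      rw [Set.eq_empty_iff_forall_notMem]
      rintro φ ⟨-, -, -, h⟩
      exact ((h v).1 hvE).1.1 hvS
    refine ⟨fun B => by rw [hemp]; exact Set.finite_empty, 0, ?_⟩
    refine tendsto_const_nhds.congr fun B => ?_
    rw [hemp, Set.ncard_empty, Nat.cast_zero, zero_div]
  push Not at hE
  obtain ⟨D', hD'⟩ := exists_RD_of K hp hp2 hζ (D.S0 ∪ E)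
  have hDD : ∀ v ∈ D.S0, v ∈ D'.S0 := fun v hv => hD' v (Finset.mem_union_left _ hv)
  have hED : ∀ v ∈ E, v ∈ D'.S0 := fun v hv => hD' v (Finset.mem_union_right _ hv)
  have hD2 : ∀ v : Pl K, ((n.factorial : ℕ) : 𝓞 K) ∈ v.asIdeal → v ∈ D'.S0 := fun v hv =>
    hDD v (hD v hv)
  have hS2 : ∀ v : Pl K, ((Nat.card G : ℕ) : 𝓞 K) ∈ v.asIdeal → v ∈ D'.S0 := fun v hv => by
    apply hD2 v
    obtain ⟨k, hk⟩ := esp_dvd G
    rw [hk]
    push_cast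
    exact Ideal.mul_mem_right _ _ hv
  obtain ⟨L', hL'⟩ := lds_of hp hζ D'.toRD0 Q'
  obtain ⟨d, hd1, hd2⟩ := dfo hn G hG K D'.toRD0 hD2 L' Q' i₀
  obtain ⟨R₀, hR1, hR2⟩ := gty hp hp2 hζ hnil Q hP D'.toRD0 L' Q' z hz hS2
  obtain ⟨hr, hs, ht⟩ := cfin_teq G K (S := D'.S0) Q'
  obtain ⟨R, hRR, hR3, hR4⟩ := cfin_reps (fun φ φ' : Gal(QBar/K) →* G => Teq D'.S0 Q' φ φ')
    hr hs ht R₀
  -- typed homomorphisms
  have hdok : ∀ φ : Gal(QBar/K) →* G, FT φ → (∀ v, Rm L' φ v → ∃ i, TyC Q.cl L' φ i v) →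
      ∀ v, Rm L' φ v → n - orbs (((inr L' v).map φ).map G.subtype) = H38.ML.indG G := by
    intro φ hft hty v hv
    obtain ⟨i, hi⟩ := hty v hv
    exact esc_exp G hp hζ Q.cl hI L' φ hft v i hi
  -- the constants
  have hex : ∀ φ₁ : Gal(QBar/K) →* G, ∃ e : ℕ, 0 < e ∧ ∀ φ, FT φ → Function.Surjective φ →
      (∀ v, Rm L' φ v → ∃ i, TyC Q.cl L' φ i v) → Teq D'.S0 Q' φ φ₁ → d φ = e := by
    intro φ₁
    by_cases h : ∃ φ₂ : Gal(QBar/K) →* G, FT φ₂ ∧ Function.Surjective φ₂ ∧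
        (∀ v, Rm L' φ₂ v → ∃ i, TyC Q.cl L' φ₂ i v) ∧ Teq D'.S0 Q' φ₂ φ₁
    · obtain ⟨φ₂, h1, h2, h0, h3⟩ := h
      exact ⟨d φ₂, (hd1 φ₂ h2 h1 (hdok φ₂ h1 h0)).1, fun φ h4 h5 _ h6 => hd2 φ φ₂ h5 h4 h2 h1
        (ht _ _ _ h6 (hs _ _ h3))⟩
    · push Not at h
      exact ⟨1, one_pos, fun φ h4 h5 h0 h6 => absurd h6 (h φ h4 h5 h0)⟩
  choose e he0 he using hex
  -- the condition on the discriminant
  have hdisc : ∀ φ₁ φ : Gal(QBar/K) →* G, FT φ → Function.Surjective φ →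
      (∀ v, Rm L' φ v → ∃ i, TyC Q.cl L' φ i v) → Teq D'.S0 Q' φ φ₁ →
      ∀ B : ℝ, 0 ≤ B → ((H38.ML.relDisc K (fieldOf i₀ φ) : ℝ) ≤ B ↔
        φ ∈ SYG L' Q' Q.cl φ₁ ((B / (e φ₁ : ℝ)) ^ (1 / (H38.ML.indG G : ℝ)))) := by
    intro φ₁ φ h1 h2 hty h3 B hB
    have hfin : {v : Pl K | Rm L' φ v}.Finite := H63.BU.uinr_fin L' φ h1
    have hT : ∀ v, v ∈ hfin.toFinset ↔ Rm L' φ v := by
      intro v
      rw [Set.Finite.mem_toFinset]
      rfl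
    have h4 := (hd1 φ h2 h1 (hdok φ h1 hty)).2 hfin.toFinset hT
    have hepos : (0 : ℝ) < (e φ₁ : ℝ) := by exact_mod_cast he0 φ₁
    have h5 : (H38.ML.relDisc K (fieldOf i₀ φ) : ℝ) =
        (e φ₁ : ℝ) * (∏ v ∈ hfin.toFinset, (nm v : ℝ)) ^ H38.ML.indG G := by
      rw [h4, he φ₁ φ h1 h2 hty h3]
      push_cast
      rfl
    have hP0 : (0 : ℝ) ≤ ∏ v ∈ hfin.toFinset, (nm v : ℝ) :=
      Finset.prod_nonneg fun v _ => Nat.cast_nonneg _
    have h6 : (H38.ML.relDisc K (fieldOf i₀ φ) : ℝ) ≤ B ↔ ∏ v ∈ hfin.toFinset, (nm v : ℝ) ≤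
        (B / (e φ₁ : ℝ)) ^ (1 / (H38.ML.indG G : ℝ)) := by
      rw [h5, mul_comm, ← le_div_iff₀ hepos, one_div, ← Real.rpow_natCast]
      rw [Real.le_rpow_inv_iff_of_pos hP0 (div_nonneg hB hepos.le) haR]
    rw [h6]
    constructor
    · intro h7
      refine ⟨h1, h2, h3, fun v hv => ?_, fun T hT' => ?_⟩
      · by_cases h : ∀ τ ∈ inr L' v, φ τ = 1
        · exact Or.inl h
        · push Not at h
          exact Or.inr (hty v ⟨hv, h⟩)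
      · have hsub : T ⊆ hfin.toFinset := by
          intro v hv
          rw [hT]
          obtain ⟨h8, h9⟩ := hT' v hv
          push Not at h9
          exact ⟨h8, h9⟩
        refine le_trans ?_ h7
        rw [← Finset.prod_sdiff hsub]
        exact le_mul_of_one_le_left (Finset.prod_nonneg fun v _ => Nat.cast_nonneg _)
          (one_le_nr _)
    · rintro ⟨-, -, -, -, h7⟩
      refine h7 hfin.toFinset fun v hv => ?_
      rw [hT] at hv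
      obtain ⟨h8, τ, hτ, h9⟩ := hv
      exact ⟨h8, fun h => h9 (h τ hτ)⟩
  -- the classes with the right behaviour at `S0'`
  obtain ⟨RE, hRE⟩ : ∃ RE : Finset (Gal(QBar/K) →* G),
    RE = R.filter fun φ₁ => ∀ v ∈ D'.S0, (v ∈ E ↔ NeC Q.cl L φ₁ v) := ⟨_, rfl⟩
  have htyd : ∀ φ₁ φ : Gal(QBar/K) →* G, ∀ Y, φ ∈ SYG L' Q' Q.cl φ₁ Y →
      ∀ v, Rm L' φ v → ∃ i, TyC Q.cl L' φ i v := by
    rintro φ₁ φ Y ⟨-, -, -, h4, -⟩ v ⟨hv, τ, hτ, h9⟩
    rcases h4 v hv with h | h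
    · exact absurd (h τ hτ) h9
    · exact h
  have hcover : ∀ B : ℝ, 0 ≤ B → NE3 G K L Q.cl i₀ E B = ⋃ φ₁ ∈ RE,
      SYG L' Q' Q.cl φ₁ ((B / (e φ₁ : ℝ)) ^ (1 / (H38.ML.indG G : ℝ))) := by
    intro B hB
    ext φ
    simp only [Set.mem_iUnion, exists_prop]
    constructor
    · rintro ⟨h1, h2, h3, h4⟩
      obtain ⟨h5, h6⟩ := (esc_iff hp hζ hDD L L' Q' hLQ hL' Q.cl φ h1 E hED).1 h4
      obtain ⟨φ₂, h7, h8⟩ := hR2 φ h1 h5
      obtain ⟨φ₁, h9, h10⟩ := hR3 φ₂ h7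
      have h11 := ht _ _ _ h8 h10
      refine ⟨φ₁, ?_, (hdisc φ₁ φ h1 h2 h5 h11 B hB).1 h3⟩
      rw [hRE, Finset.mem_filter]
      refine ⟨h9, fun v hv => ?_⟩
      rw [h6 v hv, esc_teq L Q' hLQ Q.cl D'.S0 φ φ₁ h11 v hv]
    · rintro ⟨φ₁, h6, h7⟩
      rw [hRE] at h6
      obtain ⟨h8, h9⟩ := Finset.mem_filter.1 h6
      have hty := htyd φ₁ φ _ h7
      refine ⟨h7.1, h7.2.1, (hdisc φ₁ φ h7.1 h7.2.1 hty h7.2.2.1 B hB).2 h7, ?_⟩
      rw [esc_iff hp hζ hDD L L' Q' hLQ hL' Q.cl φ h7.1 E hED]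
      refine ⟨hty, fun v hv => ?_⟩
      rw [h9 v hv, esc_teq L Q' hLQ Q.cl D'.S0 φ φ₁ h7.2.2.1 v hv]
  have hfinX : ∀ φ₁ X, (SYG L' Q' Q.cl φ₁ X : Set (Gal(QBar/K) →* G)).Finite := fun φ₁ X =>
    gsf hp hζ hnil Q hP D'.toRD0 L' Q' z hz hS2 φ₁ X
  have hREm : ∀ φ₁ ∈ RE, φ₁ ∈ R := fun φ₁ h => by
    rw [hRE] at h
    exact (Finset.mem_filter.1 h).1
  refine ⟨fun B => ?_, ?_⟩
  · have h1 : NE3 G K L Q.cl i₀ E B ⊆ NE3 G K L Q.cl i₀ E (max B 0) := fun φ hφ =>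
      ⟨hφ.1, hφ.2.1, hφ.2.2.1.trans (le_max_left _ _), hφ.2.2.2⟩
    refine Set.Finite.subset ?_ h1
    rw [hcover _ (le_max_right _ _)]
    exact Set.Finite.biUnion (Finset.finite_toSet _) fun φ₁ _ => hfinX _ _
  · have hl : ∀ φ₁ : Gal(QBar/K) →* G, ∃ l : ℝ, φ₁ ∈ R → Tendsto (fun X : ℝ =>
        ((SYG L' Q' Q.cl φ₁ X).ncard : ℝ) / (X * Real.log X ^ (N - 1))) atTop (𝓝 l) := by
      intro φ₁
      by_cases h : φ₁ ∈ R
      · obtain ⟨l, hl⟩ := gsl hp hζ hz2 Q hG2 hP D' L' Q' hN hW φ₁ (hR1 φ₁ (hRR h))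
        exact ⟨l, fun _ => hl⟩
      · exact ⟨0, fun h' => absurd h' h⟩
    choose l hl using hl
    refine ⟨∑ φ₁ ∈ RE, l φ₁ * ((e φ₁ : ℝ) ^ (-(1 / (H38.ML.indG G : ℝ))) *
      (1 / (H38.ML.indG G : ℝ)) ^ (N - 1)), ?_⟩
    have hsum := tendsto_finsetSum RE fun φ₁ hφ₁ =>
      cfin_lim (fun X => ((SYG L' Q' Q.cl φ₁ X).ncard : ℝ)) (l φ₁) (N - 1)
        (hl φ₁ (hREm φ₁ hφ₁))
        (H38.ML.indG G : ℝ) haR (e φ₁ : ℝ) (by exact_mod_cast he0 φ₁)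
    refine hsum.congr' ?_
    filter_upwards [eventually_ge_atTop 0] with B hB
    rw [← Finset.sum_div]
    congr 1
    rw [hcover B hB]
    have h1 : (⋃ φ₁ ∈ RE, SYG L' Q' Q.cl φ₁ ((B / (e φ₁ : ℝ)) ^ (1 / (H38.ML.indG G : ℝ))) :
        Set (Gal(QBar/K) →* G)) = ((RE.biUnion fun φ₁ =>
          (hfinX φ₁ ((B / (e φ₁ : ℝ)) ^ (1 / (H38.ML.indG G : ℝ)))).toFinset :
            Finset (Gal(QBar/K) →* G)) : Set (Gal(QBar/K) →* G)) := by
      rw [Finset.coe_biUnion]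
      refine Set.iUnion₂_congr fun φ₁ _ => ?_
      rw [Set.Finite.coe_toFinset]
    rw [h1, Set.ncard_coe_finset, Finset.card_biUnion]
    · push_cast
      refine Finset.sum_congr rfl fun φ₁ _ => ?_
      rw [Set.ncard_eq_toFinset_card _ (hfinX φ₁ _)]
    · intro φ₁ h1 φ₂ h2 hne
      refine Finset.disjoint_left.2 fun φ hφ hφ' => ?_
      rw [Set.Finite.mem_toFinset] at hφ hφ'
      exact hne (hR4 φ₁ (hREm φ₁ h1) φ₂ (hREm φ₂ h2)
        (ht _ _ _ (hs _ _ hφ.2.2.1) hφ'.2.2.1))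

end esp

section main

open H77.FLD H63.MA H38.BB H38.BG H57.PC H57.BRA H63.BU H77.PC3 H57.CC H38.AS H77.S0T H77.AB H77.GN

variable {n : ℕ} (G : Subgroup (Equiv.Perm (Fin n))) (K : IntermediateField ℚ QBar)
  [NumberField K]

theorem fin_lim3 (hn : 2 ≤ n) (hG : MulAction.IsPretransitive G (Fin n))
    (hnil : Group.IsNilpotent G) {p : ℕ} [NeZero p] (hp : p.Prime) {ζ : K}
    (hζ : IsPrimitiveRoot ζ p) (hz2 : Z2 p K) {m l w N : ℕ} {P H R : Type} [Group P]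
    [Group H] [Group R] (Q : GQ p m l w N G P H R) (hG2 : G2e Q.Dg) (hP : IsPGroup p P) (hN : 1 ≤ N)
    (hW : WTy Q.Dg)
    (hI : ∀ h : G, (h ≠ 1 ∧ ind (h : Equiv.Perm (Fin n)) = indG G) ↔
      ∃ i, IsConj h (Q.cl.g i))
    (z : K) (hz : IsPrimitiveRoot z (Nat.card G)) (i₀ : Fin n) :
    (∀ B, (CfinS G K i₀ B).Finite) ∧ ∃ c : ℝ, Tendsto (fun B : ℝ =>
      ((CfinS G K i₀ B).ncard : ℝ) / (B ^ (1 / (indG G : ℝ)) * Real.log B ^ (N - 1)))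
        atTop (𝓝 c) := by
  haveI : Finite P := Finite.of_surjective _ Q.prs
  have hp2 : MOne p K := mone_z2 hp hz2
  obtain ⟨ha, -, hmin, -, hJ⟩ := pidx_pos hn G hG
  have hfac : {v : Pl K | ((n.factorial : ℕ) : 𝓞 K) ∈ v.asIdeal}.Finite :=
    finite_above (K := K) (Nat.factorial_ne_zero n)
  obtain ⟨D, hD0⟩ := H38.BB.exists_RD_of K hp hp2 hζ hfac.toFinset
  have hD : ∀ v : Pl K, ((n.factorial : ℕ) : 𝓞 K) ∈ v.asIdeal → v ∈ D.S0 := fun v hv =>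
    hD0 v (by
      rw [Set.Finite.mem_toFinset]
      exact hv)
  have hS : ∀ v : Pl K, ((Nat.card G : ℕ) : 𝓞 K) ∈ v.asIdeal → v ∈ D.S0 := fun v hv => by
    apply hD v
    obtain ⟨k, hk⟩ := esp_dvd G
    rw [hk]
    push_cast
    exact Ideal.mul_mem_right _ _ hv
  obtain ⟨Q'⟩ := exists_DP K QBar
  obtain ⟨L, hLQ⟩ := lds_of hp hζ D.toRD0 Q'
  obtain ⟨Fr⟩ := H77.PC3.exists_FR hp hζ L
  have hFS : FBd Q.Dg Fr :=
    H57.MP.fbdAll p hp K QBar ζ hζ hp2 hz2 D L Fr m l w N P R Q.Dg hN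
  -- the sets are finite
  have hfin : ∀ B, (CfinS G K i₀ B).Finite := by
    obtain ⟨C, B₀, hC, hup⟩ := cgu hp hζ D.toRD0 L hnil Q Fr hFS z hz hS (indG G) ha
      (fun H => n - orbs (H.map G.subtype))
      (fun H hH => by
        have := hJ H hH
        omega)
      (fun g hg h => by
        refine (hI g).1 ⟨hg, le_antisymm ?_ (hmin g hg)⟩
        have h1 : (Subgroup.zpowers g).map G.subtype =
            Subgroup.zpowers (g : Equiv.Perm (Fin n)) := by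
          rw [MonoidHom.map_zpowers]
          rfl
        rw [h1] at h
        exact h)
    have h1 : ∀ B, B₀ ≤ B → (CfinS G K i₀ B).Finite := by
      intro B hB
      by_contra hinf
      obtain ⟨F, hF1, hF2⟩ := Set.Infinite.exists_subset_card_eq hinf
        (⌊C * B ^ (1 / (indG G : ℝ)) * Real.log B ^ (N - 1)⌋₊ + 1)
      have h2 := hup B hB F (by
        intro φ hφ
        obtain ⟨h3, h4, h5⟩ := hF1 hφ
        exact ⟨h3, h4, fun T hT => (dsm_lo hn G hG K D.toRD0 L i₀ φ h4 h3 T hT).trans h5⟩)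
      rw [hF2] at h2
      push_cast at h2
      have h3 := Nat.lt_floor_add_one (C * B ^ (1 / (indG G : ℝ)) * Real.log B ^ (N - 1))
      linarith
    intro B
    refine (h1 (max B B₀) (le_max_right _ _)).subset fun φ hφ =>
      ⟨hφ.1, hφ.2.1, hφ.2.2.trans (le_max_left _ _)⟩
  refine ⟨hfin, ?_⟩
  obtain ⟨wt, hw1, hw2, hw3⟩ := edm3 G K hn hG hnil hp hζ Q hI z hz D.toRD0 hS L Fr hFS i₀
  have hE := fun E => esp3 hn G hG hnil hp K hζ hz2 Q hG2 hP hN hW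
    (fun h i hi => ((hI h).2 ⟨i, hi⟩).2) ha z hz D hD L Q' hLQ i₀ E
  choose hEf c hEc using hE
  -- the sum over `E`
  have hsum : ∀ B : ℝ, ((CfinS G K i₀ B).ncard : ℝ) =
      ∑' E : Finset (Pl K), ((NE3 G K L Q.cl i₀ E B).ncard : ℝ) := by
    intro B
    have hex : ∀ φ : Gal(QBar/K) →* G, ∃ E : Finset (Pl K), FT φ →
        ∀ v, v ∈ E ↔ NeC Q.cl L φ v := by
      intro φ
      by_cases h : FT φ
      · have h5 : {v : Pl K | NeC Q.cl L φ v}.Finite :=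
          (H63.BU.uinr_fin L φ h).subset fun v hv => hv.1
        refine ⟨h5.toFinset, fun _ v => ?_⟩
        rw [Set.Finite.mem_toFinset]
        rfl
      · exact ⟨∅, fun h' => absurd h' h⟩
    choose Ef hEf2 using hex
    have hNE : ∀ E, NE3 G K L Q.cl i₀ E B = {φ ∈ CfinS G K i₀ B | Ef φ = E} := by
      intro E
      ext φ
      constructor
      · rintro ⟨h1, h2, h3, h4⟩
        refine ⟨⟨h1, h2, h3⟩, ?_⟩
        ext v
        rw [hEf2 φ h1 v, h4 v]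
      · rintro ⟨⟨h1, h2, h3⟩, h4⟩
        refine ⟨h1, h2, h3, fun v => ?_⟩
        rw [← h4]
        exact hEf2 φ h1 v
    rw [tsum_eq_sum (s := (hfin B).toFinset.image Ef)]
    · rw [Set.ncard_eq_toFinset_card _ (hfin B), Finset.card_eq_sum_card_image Ef]
      push_cast
      refine Finset.sum_congr rfl fun E _ => ?_
      congr 1
      rw [hNE E, ← Set.ncard_coe_finset]
      congr 1
      ext φ
      simp
    · intro E hE'
      rw [hNE E]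
      have : {φ ∈ CfinS G K i₀ B | Ef φ = E} = ∅ := by
        rw [Set.eq_empty_iff_forall_notMem]
        rintro φ ⟨h1, h2⟩
        apply hE'
        rw [Finset.mem_image]
        exact ⟨φ, (hfin B).mem_toFinset.2 h1, h2⟩
      rw [this, Set.ncard_empty, Nat.cast_zero]
  refine ⟨∑' E, c E, ?_⟩
  have hdom := tendsto_tsum_of_dominated_convergence (𝓕 := (atTop : Filter ℝ))
    (f := fun B E => ((NE3 G K L Q.cl i₀ E B).ncard : ℝ) /
      (B ^ (1 / (indG G : ℝ)) * Real.log B ^ (N - 1))) (g := c) (bound := wt) hw1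
    (fun E => hEc E) (by
      filter_upwards [eventually_ge_atTop (3 : ℝ)] with B hB E
      have hlog : 0 < Real.log B := Real.log_pos (by linarith)
      have hP : 0 < B ^ (1 / (indG G : ℝ)) * Real.log B ^ (N - 1) :=
        mul_pos (Real.rpow_pos_of_pos (by linarith) _) (pow_pos hlog _)
      rw [Real.norm_of_nonneg (div_nonneg (Nat.cast_nonneg _) hP.le), div_le_iff₀ hP]
      exact hw3 B E hB (hEf E B))
  refine hdom.congr fun B => ?_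
  rw [hsum B, tsum_div_const]

end main

section asy

open H77.FLD H63.MA H38.BB H38.BG H57.PC H57.BRA H63.BU H77.PC3 H57.CC H38.AS H77.S0T H77.AB H77.GN

/-- the asymptotic formula for Sylow subgroups of class at most three; for `p = 2` the commutator subgroup has exponent `2` -/
theorem fin_asy (n : ℕ) (hn : 2 ≤ n) (G : Subgroup (Equiv.Perm (Fin n)))
    (hG : MulAction.IsPretransitive G (Fin n)) (hnil : Group.IsNilpotent G) (p : ℕ)
    (hp : p.Prime) (S : Sylow p G)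
    (hS : Subgroup.closure {h : G | h ≠ 1 ∧
      Spec.ind (h : Equiv.Perm (Fin n)) = Spec.indG G} = (S : Subgroup G))
    (h4 : ⁅⁅⁅(S : Subgroup G), (S : Subgroup G)⁆, (S : Subgroup G)⁆, (S : Subgroup G)⁆ = ⊥)
    (hE : p = 2 → ∀ x ∈ ⁅(S : Subgroup G), (S : Subgroup G)⁆, x ^ 2 = 1) :
    ∃ K₀ : IntermediateField ℚ (AlgebraicClosure ℚ), NumberField K₀ ∧
      ∀ K : IntermediateField ℚ (AlgebraicClosure ℚ), K₀ ≤ K → ∀ _ : NumberField K,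
        ∃ C : ℝ, 0 < C ∧ ∃ k : ℝ → ℕ,
          (∀ B : ℝ, Spec.nK K (AlgebraicClosure ℚ) G B = (k B : ℕ∞)) ∧
          Tendsto (fun B : ℝ => (k B : ℝ) / (B ^ (1 / (Spec.indG G : ℝ)) *
            Real.log B ^ (Spec.betaAll K (AlgebraicClosure ℚ) G - 1))) atTop (𝓝 C) := by
  haveI : NeZero p := ⟨hp.ne_zero⟩
  haveI : Fact p.Prime := ⟨hp⟩
  have hI : ∀ h : G, h ≠ 1 → ind (h : Equiv.Perm (Fin n)) = indG G → h ^ p = 1 := by
    intro h h0 hh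
    have hmem : h ∈ (S : Subgroup G) := by
      rw [← hS]
      exact Subgroup.subset_closure ⟨h0, hh⟩
    obtain ⟨k, hk⟩ := S.isPGroup' ⟨h, hmem⟩
    refine H57.MP.ord_min G hp h hh k ?_
    have := congrArg Subtype.val hk
    simpa using this
  obtain ⟨K₁, hK₁, hlow⟩ := fin3 n hn G hG hnil p hp S hS h4 hE
  obtain ⟨ha, ⟨g₀, hg₀, hg₀'⟩, hmin, hcj, hJ⟩ := pidx_pos hn G hG
  have hmn := all_min hn G hG hnil hp hI S hS
  obtain ⟨N, g, hgΛ, uni, hI'⟩ := ncl G {h : G | h ≠ 1 ∧ ind (h : Equiv.Perm (Fin n)) = indG G}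
    (fun h hh => hh.1) (by
      rintro h ⟨h1, h2⟩ k hk
      refine ⟨?_, ?_⟩
      · intro hk1
        rw [hk1] at hk
        exact h1 (isConj_one_left.1 hk)
      · obtain ⟨x, rfl⟩ := isConj_iff.1 hk
        exact hcj h x h1 h2)
  have hN : 1 ≤ N := by
    obtain ⟨i, -⟩ := (hI' g₀).1 ⟨hg₀, hg₀'⟩
    have := i.2
    omega
  have hcardpos : 0 < Nat.card G := Nat.card_pos
  have hpd : p ∣ Nat.card G := by
    have h2 := hI g₀ hg₀ hg₀'
    have h3 : orderOf g₀ = p := orderOf_eq_prime h2 hg₀ (hp := ⟨hp⟩)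
    rw [← h3]
    exact orderOf_dvd_natCard g₀
  have hSn := H77.UX.nil_normal hnil hp S
  have hset : {h : G | h ≠ 1 ∧ ind (h : Equiv.Perm (Fin n)) = indG G} =
      {x | ∃ i, IsConj x (g i)} := by
    ext x
    exact hI' x
  obtain ⟨m, l, w, Q, hQ⟩ := exists_gq hp hnil hpd S g
    (fun i => hI _ (hgΛ i).1 (hgΛ i).2) (fun i => (hgΛ i).1) uni (by rw [← hset]; exact hS) h4
  have hIQ : ∀ h : G, (h ≠ 1 ∧ ind (h : Equiv.Perm (Fin n)) = indG G) ↔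
      ∃ i, IsConj h (Q.cl.g i) := by
    intro h
    rw [hQ]
    exact hI' h
  have hP : IsPGroup p S := S.isPGroup'
  have hW : WTy Q.Dg := wty_of hp Q hP fun h h1 h2 => (hIQ h).1 ⟨h1, hmn h h1 h2⟩
  obtain ⟨K₂, hK₂, hK⟩ := akn2 G p
  obtain ⟨c₀, hc₀, hnk⟩ := nk2 G hG
  have i₀ : Fin n := ⟨0, by omega⟩
  haveI := hK₁.to_finiteDimensional
  haveI := hK₂.to_finiteDimensional
  refine ⟨K₁ ⊔ K₂, NumberField.of_module_finite ℚ
    (K₁ ⊔ K₂ : IntermediateField ℚ (AlgebraicClosure ℚ)), fun K hKK hKf => ?_⟩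
  obtain ⟨-, ⟨z, hz⟩, -, hz2⟩ := hK K (le_sup_right.trans hKK) hKf
  obtain ⟨c₁, hc₁, B₀, hlo⟩ := hlow K (le_sup_left.trans hKK) hKf
  obtain ⟨r, hr⟩ := hpd
  have hζ : IsPrimitiveRoot (z ^ r) p := hz.pow hcardpos (by rw [hr]; ring)
  obtain ⟨hfin, c, hcl⟩ := fin_lim3 G K hn hG hnil hp hζ hz2 Q (g2e_syl hp S Q.Dg hE) hP hN hW hIQ z hz i₀
  have hβ := lbet G K z hz g uni hI'
  have hk : ∀ B : ℝ, ∃ k : ℕ, Spec.nK K QBar G B = (k : ℕ∞) ∧
      k * c₀ = (CfinS G K i₀ B).ncard := fun B => hnk K hKf i₀ B (hfin B)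
  choose k hk1 hk2 using hk
  have hc₀R : (0 : ℝ) < (c₀ : ℝ) := by exact_mod_cast hc₀
  have hlim : Tendsto (fun B : ℝ => (k B : ℝ) /
        (B ^ (1 / (Spec.indG G : ℝ)) * Real.log B ^ (Spec.betaAll K QBar G - 1)))
        atTop (𝓝 (c / (c₀ : ℝ))) := by
    refine (hcl.div_const (c₀ : ℝ)).congr fun B => ?_
    rw [← hk2 B, hβ]
    push_cast
    have : H38.ML.indG G = Spec.indG G := rfl
    rw [this]
    field_simp
  refine ⟨c / (c₀ : ℝ), ?_, k, hk1, hlim⟩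
  refine lt_of_lt_of_le hc₁ (ge_of_tendsto hlim ?_)
  filter_upwards [eventually_ge_atTop B₀, eventually_gt_atTop 1] with B hB hB1
  have h1 := hlo B hB
  rw [show Spec.nK K (AlgebraicClosure ℚ) G B = (k B : ℕ∞) from hk1 B] at h1
  have h2 : (⌈c₁ * B ^ (1 / (Spec.indG G : ℝ)) *
      Real.log B ^ (Spec.betaAll K QBar G - 1)⌉₊ : ℕ) ≤ k B := by exact_mod_cast h1
  have h3 : c₁ * B ^ (1 / (Spec.indG G : ℝ)) * Real.log B ^ (Spec.betaAll K QBar G - 1) ≤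
      (k B : ℝ) := (Nat.le_ceil _).trans (by exact_mod_cast h2)
  have hP : 0 < B ^ (1 / (Spec.indG G : ℝ)) * Real.log B ^ (Spec.betaAll K QBar G - 1) :=
    mul_pos (Real.rpow_pos_of_pos (by linarith) _) (pow_pos (Real.log_pos hB1) _)
  rw [le_div_iff₀ hP, ← mul_assoc]
  exact h3

end asy

end H57.D2
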