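import Pool.Agent.H57.D2.Coc
import Pool.Agent.H89.BRG.TwG

/-!
# H57-D2-TWG: the file H89/BRG/TwG for homomorphisms with inertia images of order dividing `p`
-/

set_option autoImplicit false

open scoped NumberField
open IsDedekindDomain
open scoped Classical

noncomputable section

namespace H57.D2

open H57.PC H57.LOW H57.CC H57.BRA H63.MA H38.BB H38.BG H77.PC3 H89.BRG

variable {K : Type} [Field K] [NumberField K] {p : ℕ} {ζ : K} {Ω : Type} [Field Ω]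
  [Algebra K Ω] [IsAlgClosure K Ω] {m l w N k : ℕ} {P R : Type} [Group P] [Group R]

/-- the inertia images outside `S0` have order dividing `p` -/
def Tmo {D : RD0 K p ζ} (L : LDs D Ω) {R : Type} [Group R] (ρ : Gal(Ω/K) →* R) : Prop :=
  ∀ v, v ∉ D.S0 → ∀ τ ∈ inr L v, ρ τ ^ p = 1

theorem tmo_tw {D : RD0 K p ζ} {L : LDs D Ω} (Dg : GP p m l w N P R) {ρ : Gal(Ω/K) →* R}
    (ht : Tmo L ρ) (a : Fin l → Kˣ) : Tmo L (tw Dg (kch ζ Ω Dg a) ρ (kch_pi Dg a)) := by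
  intro v hv τ hτ
  rw [tw_apply]
  have h1 : Commute (kch ζ Ω Dg a τ) (ρ τ) := Dg.vcen _ (kch_pi Dg a τ) _
  rw [h1.mul_pow, vpow Dg _ (kch_pi Dg a τ), ht v hv τ hτ, one_mul]

theorem brg3d (hp : p.Prime) (hp2 : MOne p K) (hζ : IsPrimitiveRoot ζ p) (hz : Z2 p K)
    {D : RD0 K p ζ} {L : LDs D Ω} (Q : DP K Ω) (Fr : FR L) {R : Type} [Group R] [Finite R]
    {e : R → R → ZMod p} (he : Coc p e) {ρ ρ' : Gal(Ω/K) →* R} (hρ : H38.ML.FT ρ)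
    (hρ' : H38.ML.FT ρ') {n : ℕ} (c : Fin n → Kˣ)
    (hk : ∀ σ ∈ (Zk p ζ c : Set Gal(Ω/K)), ∀ τ ∈ (Zk p ζ c : Set Gal(Ω/K)),
      e (ρ σ) (ρ τ) = 0 ∧ e (ρ' σ) (ρ' τ) = 0)
    (hS : ∀ v ∈ D.S0, ∀ σ ∈ dec (K := K) (Q.P v), ρ σ = ρ' σ)
    (htm : Tmo L ρ) (htm' : Tmo L ρ')
    (T : Finset (Pl K)) (hT : ∀ v ∈ T, v ∉ D.S0)
    (hur : ∀ v, v ∉ D.S0 → v ∉ T → ρ (L.t v) = 1 ∧ ρ' (L.t v) = 1)
    {lam : Pl K → ZMod p} (hlam : IsRec p ζ lam) :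
    ∑ v ∈ T, lam v * iv e (ρ (Fr.F v)) (ρ (L.t v)) =
      ∑ v ∈ T, lam v * iv e (ρ' (Fr.F v)) (ρ' (L.t v)) := by
  obtain ⟨E, hE, hE2⟩ := hρ
  obtain ⟨E', hE', hE2'⟩ := hρ'
  obtain ⟨g, hg⟩ : ∃ g : R × R → R × R → ZMod p,
      ∀ a b, g a b = e a.1 b.1 - e a.2 b.2 := ⟨_, fun _ _ => rfl⟩
  have hgc : Coc p g := by
    refine ⟨fun a => ?_, fun a => ?_, fun a b d => ?_⟩
    · rw [hg]
      change e 1 a.1 - e 1 a.2 = 0
      rw [he.l1, he.l1, sub_zero]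
    · rw [hg]
      change e a.1 1 - e a.2 1 = 0
      rw [he.r1, he.r1, sub_zero]
    · rw [hg, hg, hg, hg]
      simp only [Prod.fst_mul, Prod.snd_mul]
      linear_combination he.co a.1 b.1 d.1 - he.co a.2 b.2 d.2
  have hpb : ∀ σ τ, pb g (ρ.prod ρ') σ τ = e (ρ σ) (ρ τ) - e (ρ' σ) (ρ' τ) := by
    intro σ τ
    unfold pb
    rw [hg]
    rfl
  have hl0 : Lev (fun _ : Gal(Ω/K) => (0 : ZMod p)) := ⟨E, hE, fun _ _ _ => rfl⟩
  have h1 := brg3q hp hp2 hζ hz Q Fr hgc (ρ := ρ.prod ρ')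
    ⟨E ⊔ E', IntermediateField.finiteDimensional_sup _ _, fun u hu => by
      have h1 : ρ u = 1 := MonoidHom.mem_ker.1
        (hE2 (IntermediateField.fixingSubgroup_antitone le_sup_left hu))
      have h2 : ρ' u = 1 := MonoidHom.mem_ker.1
        (hE2' (IntermediateField.fixingSubgroup_antitone le_sup_right hu))
      rw [MonoidHom.mem_ker, MonoidHom.prod_apply, h1, h2]
      rfl⟩ c
    ⟨_, hl0, fun σ hσ τ hτ => by
      rw [hpb, (hk σ hσ τ hτ).1, (hk σ hσ τ hτ).2, sub_zero, add_zero, add_zero]⟩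
    (fun v hv => ⟨_, hl0, fun σ hσ τ hτ => by
      rw [hpb, hS v hv σ hσ, hS v hv τ hτ, sub_self, add_zero, add_zero]⟩)
    (fun v hv τ hτ => by
      rw [MonoidHom.prod_apply, Prod.pow_mk, htm v hv τ hτ, htm' v hv τ hτ]
      rfl) T hT
    (fun v hv hvT => by
      rw [MonoidHom.prod_apply, (hur v hv hvT).1, (hur v hv hvT).2]
      rfl) hlam
  have h2 : ∀ v, lam v * iv g ((ρ.prod ρ') (Fr.F v)) ((ρ.prod ρ') (L.t v)) =
      lam v * iv e (ρ (Fr.F v)) (ρ (L.t v)) - lam v * iv e (ρ' (Fr.F v)) (ρ' (L.t v)) := by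
    intro v
    unfold iv
    rw [hg, hg]
    simp only [MonoidHom.prod_apply]
    ring
  rw [Finset.sum_congr rfl fun v _ => h2 v, Finset.sum_sub_distrib] at h1
  exact sub_eq_zero.1 h1

theorem dl_teq [Finite R] (hp : p.Prime) (hζ : IsPrimitiveRoot ζ p) (hz : Z2 p K)
    {D : RD0 K p ζ} {L : LDs D Ω} (Q : DP K Ω) (Fr : FR L) (Dg : GP p m l w N P R)
    {e : R → R → ZMod p} (he : Coc p e)
    (he0 : ∀ v v', Dg.π v = 1 → Dg.π v' = 1 → e v v' = 0) {lam : Pl K → ZMod p}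
    (hlam : IsRec p ζ lam) (ρ ρ' : Gal(Ω/K) →* R) (h : H38.ML.FT ρ) (h' : H38.ML.FT ρ')
    (ht : Tmo L ρ) (ht' : Tmo L ρ')
    (hS : ∀ v ∈ D.S0, ∀ σ ∈ dec (K := K) (Q.P v), ρ σ = ρ' σ) :
    dl lam Fr e ρ = dl lam Fr e ρ' := by
  have hf := ram_finite hp D L ρ h
  have hf' := ram_finite hp D L ρ' h'
  obtain ⟨T, hT⟩ : ∃ T : Finset (Pl K), ∀ v, v ∈ T ↔
      ((v ∉ D.S0 ∧ ρ (L.t v) ≠ 1) ∨ (v ∉ D.S0 ∧ ρ' (L.t v) ≠ 1)) :=
    ⟨(hf.union hf').toFinset, fun v => by rw [Set.Finite.mem_toFinset]; rfl⟩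
  have hT1 : ∀ v ∈ T, v ∉ D.S0 := by
    intro v hv
    rcases (hT v).1 hv with h1 | h1
    · exact h1.1
    · exact h1.1
  have hT2 : ∀ v, v ∉ D.S0 → v ∉ T → ρ (L.t v) = 1 ∧ ρ' (L.t v) = 1 := by
    intro v hv hvT
    refine ⟨?_, ?_⟩
    · by_contra h1
      exact hvT ((hT v).2 (Or.inl ⟨hv, h1⟩))
    · by_contra h1
      exact hvT ((hT v).2 (Or.inr ⟨hv, h1⟩))
  rw [dl_sum lam Fr he ρ T hT1 fun v hv hvT => (hT2 v hv hvT).1,
    dl_sum lam Fr he ρ' T hT1 fun v hv hvT => (hT2 v hv hvT).2]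
  have ka : ∀ χ : Gal(Ω/K) →* R, H38.ML.FT χ → ∃ a : Fin m → Kˣ, ∀ c (σ : Gal(Ω/K)),
      kk p ζ (a c) σ = Multiplicative.toAdd (Dg.π (χ σ)) c := by
    intro χ hχ
    obtain ⟨E, hE, hE2⟩ := hχ
    have h1 : ∀ c, ∃ a : Kˣ, ∀ σ : Gal(Ω/K),
        kk p ζ a σ = Multiplicative.toAdd (Dg.π (χ σ)) c := fun c =>
      vs_kc hp hζ _ (fun σ τ => by
        simp only [map_mul, toAdd_mul, Pi.add_apply]) ⟨E, hE, fun u hu => by
        have h1 : χ u = 1 := MonoidHom.mem_ker.1 (hE2 hu)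
        rw [h1, map_one]
        rfl⟩
    choose a ha using h1
    exact ⟨a, ha⟩
  obtain ⟨a, ha⟩ := ka ρ h
  obtain ⟨a', ha'⟩ := ka ρ' h'
  refine brg3d hp (mone_z2 hp hz) hζ hz Q Fr he h h' (Fin.append a a') ?_ hS
    ht ht' T hT1 hT2 hlam
  have hz1 : ∀ σ ∈ (Zk p ζ (Fin.append a a') : Set Gal(Ω/K)),
      Dg.π (ρ σ) = 1 ∧ Dg.π (ρ' σ) = 1 := by
    intro σ hσ
    refine ⟨?_, ?_⟩
    · apply Multiplicative.toAdd.injective
      funext c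
      have h1 := hσ (Fin.castAdd m c)
      rw [Fin.append_left, ha] at h1
      exact h1
    · apply Multiplicative.toAdd.injective
      funext c
      have h1 := hσ (Fin.natAdd m c)
      rw [Fin.append_right, ha'] at h1
      exact h1
  intro σ hσ τ hτ
  exact ⟨he0 _ _ (hz1 σ hσ).1 (hz1 τ hτ).1, he0 _ _ (hz1 σ hσ).2 (hz1 τ hτ).2⟩

private theorem lamA_fin (hp : p.Prime) (hζ : IsPrimitiveRoot ζ p) {D : RD0 K p ζ}
    {L : LDs D Ω} (lam : Pl K → ZMod p) (Fr : FR L) (Dg : GP p m l w N P R) (T : BFT p m l)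
    (ρ : Gal(Ω/K) →* R) (h : H38.ML.FT ρ) (a : Fin l → Kˣ) :
    (Function.support fun v => (if v ∈ D.S0 then 0 else lam v *
    (T (fun c => kk p ζ (a c) (Fr.F v)) (Multiplicative.toAdd (Dg.π (ρ (L.t v)))) -
      T (fun c => kk p ζ (a c) (L.t v)) (Multiplicative.toAdd (Dg.π (ρ (Fr.F v))))))).Finite := by
  have hf := ram_finite hp D L ρ h
  have hf' := ram_finite hp D L (kch ζ Ω Dg a) (kch_ft hp hζ Dg a)
  refine (hf.union hf').subset ?_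
  intro v hv
  by_contra hvn
  apply hv
  by_cases hvS : v ∈ D.S0
  · exact if_pos hvS
  · have h1 : ρ (L.t v) = 1 := by
      by_contra h1
      exact hvn (Or.inl ⟨hvS, h1⟩)
    have h2 : kch ζ Ω Dg a (L.t v) = 1 := by
      by_contra h1
      exact hvn (Or.inr ⟨hvS, h1⟩)
    have h3 : (fun c => kk p ζ (a c) (L.t v)) = 0 := by
      funext c
      rw [← kch_cv Dg a (L.t v) c, h2, cv_one]
      rfl
    simp only [if_neg hvS, h1, h3, map_one, toAdd_one, map_zero, LinearMap.zero_apply, sub_zero,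
      mul_zero]

theorem dl_tw [Finite R] (hp : p.Prime) (hζ : IsPrimitiveRoot ζ p)
    {D : RD0 K p ζ} {L : LDs D Ω} (Fr : FR L) (Dg : GP p m l w N P R) (T : BFT p m l)
    {e : R → R → ZMod p} (he : Coc p e)
    (hiv : ∀ v r, Dg.π v = 1 →
      iv e v r = T (fun k => Dg.cv k v) (Multiplicative.toAdd (Dg.π r)))
    (lam : Pl K → ZMod p) (ρ : Gal(Ω/K) →* R) (h : H38.ML.FT ρ) (htm : Tmo L ρ)
    (a : Fin l → Kˣ) :
    dl lam Fr e (tw Dg (kch ζ Ω Dg a) ρ (kch_pi Dg a)) =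
      dl lam Fr e ρ + lamA lam Fr Dg T ρ a := by
  unfold dl lamA
  have hs : (Function.support fun v : Pl K => (if v ∈ D.S0 then 0 else
      lam v * iv e (ρ (Fr.F v)) (ρ (L.t v)))).Finite := by
    refine (ram_finite hp D L ρ h).subset ?_
    intro v hv
    by_contra hvn
    apply hv
    by_cases hvS : v ∈ D.S0
    · exact if_pos hvS
    · have h1 : ρ (L.t v) = 1 := by
        by_contra h1
        exact hvn ⟨hvS, h1⟩
      simp only [if_neg hvS]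
      rw [h1, iv_swap, iv_one_left he, neg_zero, mul_zero]
  rw [← finsum_add_distrib hs (lamA_fin hp hζ lam Fr Dg T ρ h a)]
  refine finsum_congr fun v => ?_
  by_cases hvS : v ∈ D.S0
  · rw [if_pos hvS, if_pos hvS, if_pos hvS, add_zero]
  · rw [if_neg hvS, if_neg hvS, if_neg hvS, tw_apply, tw_apply]
    obtain ⟨F, hF⟩ : ∃ F, F = Fr.F v := ⟨_, rfl⟩
    obtain ⟨t, ht⟩ : ∃ t, t = L.t v := ⟨_, rfl⟩
    have hc : ρ F * ρ t = ρ t * ρ F := by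
      rw [hF, ht]
      exact Fr.com v hvS R ρ h (htm v hvS)
    have hπ : ∀ σ : Gal(Ω/K), Dg.π (kch ζ Ω Dg a σ) = 1 := kch_pi Dg a
    have hcv : ∀ σ : Gal(Ω/K), (fun c => Dg.cv c (kch ζ Ω Dg a σ)) =
        fun c => kk p ζ (a c) σ := fun σ => funext fun c => kch_cv Dg a σ c
    rw [← hF, ← ht]
    have h1 : iv e (kch ζ Ω Dg a F * ρ F) (kch ζ Ω Dg a t * ρ t) =
        T (fun c => kk p ζ (a c) F) (Multiplicative.toAdd (Dg.π (ρ t))) -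
          T (fun c => kk p ζ (a c) t) (Multiplicative.toAdd (Dg.π (ρ F))) +
          iv e (ρ F) (ρ t) := by
      have c1 : kch ζ Ω Dg a F * (kch ζ Ω Dg a t * ρ t) =
          (kch ζ Ω Dg a t * ρ t) * kch ζ Ω Dg a F := Dg.vcen _ (hπ F) _
      have c2 : ρ F * (kch ζ Ω Dg a t * ρ t) = (kch ζ Ω Dg a t * ρ t) * ρ F := by
        rw [← mul_assoc, ← Dg.vcen _ (hπ t) (ρ F), mul_assoc, hc, mul_assoc]
      rw [iv_mul_left he c1 c2, hiv _ _ (hπ F), hcv, map_mul, hπ, one_mul,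
        iv_mul_right he (Dg.vcen _ (hπ t) (ρ F)).symm hc, iv_swap (kch ζ Ω Dg a t) (ρ F),
        hiv _ _ (hπ t), hcv]
      ring
    rw [h1]
    ring

theorem twg [NeZero p] [Finite R] (hp : p.Prime) (hζ : IsPrimitiveRoot ζ p)
    (hz : Z2 p K) {D : RD0 K p ζ} {L : LDs D Ω} (Q : DP K Ω) (Fr : FR L)
    (Dg : GP p m l w N P R) (T : BFT p m l) {e : R → R → ZMod p} (he : Coc p e)
    (he0 : ∀ v v', Dg.π v = 1 → Dg.π v' = 1 → e v v' = 0)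
    (hiv : ∀ v r, Dg.π v = 1 →
      iv e v r = T (fun k => Dg.cv k v) (Multiplicative.toAdd (Dg.π r)))
    {lam : Pl K → ZMod p} (hlam : IsRec p ζ lam) (X : VP K Ω p l k R) (hX : X.Ok D Q)
    (ρ₁ : Gal(Ω/K) →* R) (h₁ : H38.ML.FT ρ₁) (ht₁ : Tmo L ρ₁) :
    ∃ (τ : ZMod p) (η₀ : Fin k → Fin l → ZMod p), ∀ ρ : Gal(Ω/K) →* R, H38.ML.FT ρ → Tmo L ρ →
      (∀ j, Dg.π (ρ (X.σ j)) = Dg.π (ρ₁ (X.σ j))) → dl lam Fr e ρ =
        τ + ∑ j, dt (η₀ j) (fun c => Dg.cv c (ρ (X.σ j) * (ρ₁ (X.σ j))⁻¹)) := by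
  have hp2 := mone_z2 hp hz
  have hvan : ∀ a : Fin l → Kˣ, (∀ j c, kk p ζ (a c) (X.σ j) = 0) →
      lamA lam Fr Dg T ρ₁ a = 0 := by
    intro a ha
    have h1 := dl_tw hp hζ Fr Dg T he hiv lam ρ₁ h₁ ht₁ a
    have h3 := dl_teq hp hζ hz Q Fr Dg he he0 hlam
      (tw Dg (kch ζ Ω Dg a) ρ₁ (kch_pi Dg a)) ρ₁
      (tw_ft Dg _ ρ₁ (kch_pi Dg a) (kch_ft hp hζ Dg a) h₁) h₁ (tmo_tw Dg ht₁ a) ht₁ (by
        intro v hv σ hσ
        rw [tw_apply]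
        have h4 : kch ζ Ω Dg a σ = 1 := by
          refine Dg.vinj _ (kch_pi Dg a σ) fun c => ?_
          rw [kch_cv]
          exact hX.det (a c) (fun j => ha j c) v hv σ hσ
        rw [h4, one_mul])
    rw [h3] at h1
    exact left_eq_add.1 h1
  obtain ⟨ev, hev⟩ : ∃ ev : Additive (Fin l → Kˣ) →+ (Fin k → Fin l → ZMod p),
      ∀ a j c, ev (Additive.ofMul a) j c = kk p ζ (a c) (X.σ j) :=
    ⟨AddMonoidHom.mk' (fun a j c => kk p ζ ((Additive.toMul a) c) (X.σ j)) (by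
      intro a b
      funext j c
      rw [toMul_add, Pi.mul_apply, kk_mul_arg hp hζ]
      rfl), fun a j c => rfl⟩
  obtain ⟨Λ, hΛ⟩ : ∃ Λ : Additive (Fin l → Kˣ) →+ ZMod p,
      ∀ a, Λ (Additive.ofMul a) = lamA lam Fr Dg T ρ₁ a :=
    ⟨AddMonoidHom.mk' (fun a => lamA lam Fr Dg T ρ₁ (Additive.toMul a)) (by
      intro a b
      rw [toMul_add, lamA_add hp hζ lam Fr Dg T ρ₁ h₁]), fun a => rfl⟩
  obtain ⟨η₀, hη₀⟩ := tg_fac hp ev Λ (by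
    intro a ha
    have h1 := hΛ (Additive.toMul a)
    rw [ofMul_toMul] at h1
    rw [h1]
    refine hvan _ fun j c => ?_
    have h3 := hev (Additive.toMul a) j c
    rw [ofMul_toMul, ha] at h3
    exact h3.symm)
  refine ⟨dl lam Fr e ρ₁, η₀, fun ρ h ht hπ => ?_⟩
  have h0 := (vs_one hp hp2 hζ Dg X hX ρ ρ₁ h h₁).1 hπ
  have h3 := vs_chi hp hζ Dg ρ ρ₁ h h₁ h0
  choose a ha using h3
  have h4 : dl lam Fr e ρ = dl lam Fr e (tw Dg (kch ζ Ω Dg a) ρ₁ (kch_pi Dg a)) := by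
    refine dl_teq hp hζ hz Q Fr Dg he he0 hlam ρ _ h
      (tw_ft Dg _ ρ₁ (kch_pi Dg a) (kch_ft hp hζ Dg a) h₁) ht (tmo_tw Dg ht₁ a) ?_
    intro v hv σ hσ
    rw [tw_apply]
    have h5 : kch ζ Ω Dg a σ = ρ σ * (ρ₁ σ)⁻¹ := by
      refine v_ext Dg _ _ (kch_pi Dg a σ) (by
        rw [map_mul, map_inv, h0 v hv σ hσ, mul_inv_cancel]) fun c => ?_
      rw [kch_cv]
      exact ha c v hv σ hσ
    rw [h5, inv_mul_cancel_right]
  rw [h4, dl_tw hp hζ Fr Dg T he hiv lam ρ₁ h₁ ht₁ a, ← hΛ, hη₀]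
  congr 1
  refine Finset.sum_congr rfl fun j _ => ?_
  congr 1
  funext c
  obtain ⟨v, hv, hσ⟩ := hX.mem j
  rw [hev]
  exact ha c v hv _ hσ

end H57.D2
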